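import Pool.Agent.K4H32.LCP.Gron

set_option autoImplicit false
set_option maxSynthPendingDepth 6

/-!
# A Riemannian metric in a chart
-/

namespace Pool.Agent.K4H32.LCP

open Set Filter Topology Metric Manifold Bundle
open scoped ContDiff

section Clm

variable {E : Type*} [NormedAddCommGroup E] [NormedSpace ℝ E] [FiniteDimensional ℝ E]

lemma tendsto_clm {ι : Type*} {l : Filter ι} {A : ι → E →L[ℝ] E} {B : E →L[ℝ] E}
    (h : ∀ v, Tendsto (fun i => A i v) l (𝓝 (B v))) : Tendsto A l (𝓝 B) := by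
  set b := Module.finBasis ℝ E with hb
  obtain ⟨Cb, hCb0, hCb⟩ := b.exists_opNorm_le (F := E)
  rw [Metric.tendsto_nhds]
  intro ε hε
  have hη : 0 < ε / (2 * Cb) := by positivity
  have : ∀ᶠ i in l, ∀ j, ‖A i (b j) - B (b j)‖ < ε / (2 * Cb) := by
    rw [Filter.eventually_all]
    intro j
    filter_upwards [Metric.tendsto_nhds.1 (h (b j)) _ hη] with i hi
    rwa [← dist_eq_norm]
  filter_upwards [this] with i hi
  rw [dist_eq_norm]
  calc ‖A i - B‖ ≤ Cb * (ε / (2 * Cb)) := hCb hη.le fun j => (hi j).le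
    _ = ε / 2 := by field_simp
    _ < ε := by linarith

end Clm

section Bds

variable {V : Type*} [NormedAddCommGroup V] [NormedSpace ℝ V] [FiniteDimensional ℝ V]

/-- a smooth positive metric has bounds on balls. -/
lemma exists_bds {G : V → V →L[ℝ] V →L[ℝ] ℝ} {U : Set V} (hU : IsOpen U)
    (hG : ContDiffOn ℝ ∞ G U) (hpos : ∀ z ∈ U, ∀ v, v ≠ 0 → 0 < G z v v)
    (hsymm : ∀ z ∈ U, ∀ u v, G z u v = G z v u) {z0 : V} {R : ℝ} (hR : closedBall z0 R ⊆ U) :
    ∃ c C, Bds G (closedBall z0 R) c C := by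
  set S := closedBall z0 R with hS
  have hSc : IsCompact S := isCompact_closedBall z0 R
  have hGc : ContinuousOn G S := hG.continuousOn.mono hR
  -- lower bound
  obtain ⟨c, hc0, hc⟩ : ∃ c, 0 < c ∧ ∀ p ∈ S ×ˢ sphere (0 : V) 1, c ≤ G p.1 p.2 p.2 := by
    refine (hSc.prod (isCompact_sphere (0 : V) 1)).exists_forall_le' ?_ ?_
    · have h1 : ContinuousOn (fun p : V × V => G p.1) (S ×ˢ sphere (0 : V) 1) :=
        hGc.comp continuousOn_fst fun p hp => hp.1
      exact (h1.clm_apply continuousOn_snd).clm_apply continuousOn_snd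
    · rintro ⟨z, v⟩ ⟨hz, hv⟩
      refine hpos z (hR hz) v fun h => ?_
      subst h
      simp at hv
  obtain ⟨C1, hC1⟩ := hSc.exists_bound_of_continuousOn hGc
  have hG1 : ContDiffOn ℝ ∞ (fderiv ℝ G) U := hG.fderiv_of_isOpen hU (by simp)
  have hG2 : ContDiffOn ℝ ∞ (fderiv ℝ (fderiv ℝ G)) U := hG1.fderiv_of_isOpen hU (by simp)
  obtain ⟨C2, hC2⟩ := hSc.exists_bound_of_continuousOn (hG1.continuousOn.mono hR)
  obtain ⟨C3, hC3⟩ := hSc.exists_bound_of_continuousOn (hG2.continuousOn.mono hR)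
  refine ⟨c, 1 + |C1| + |C2| + |C3|, hc0, by positivity, ?_, ?_, ?_, ?_, ?_, ?_⟩
  · intro z hz v
    rcases eq_or_ne v 0 with rfl | hv
    · simp
    · have hn : 0 < ‖v‖ := norm_pos_iff.2 hv
      have h1 := hc (z, ‖v‖⁻¹ • v) ⟨hz, by simp [norm_smul, hn.ne']⟩
      simp only [map_smul, smul_apply, smul_eq_mul] at h1
      have h2 : c * ‖v‖ ^ 2 ≤ (‖v‖⁻¹ * (‖v‖⁻¹ * G z v v)) * ‖v‖ ^ 2 := by gcongr
      have h3 : (‖v‖⁻¹ * (‖v‖⁻¹ * G z v v)) * ‖v‖ ^ 2 = G z v v := by field_simp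
      rwa [h3] at h2
  · intro z hz v
    have h1 : |G z v v| ≤ C1 * ‖v‖ * ‖v‖ := by
      calc |G z v v| ≤ ‖G z v‖ * ‖v‖ := (G z v).le_opNorm v
        _ ≤ (‖G z‖ * ‖v‖) * ‖v‖ := by gcongr; exact (G z).le_opNorm v
        _ ≤ C1 * ‖v‖ * ‖v‖ := by gcongr; exact hC1 z hz
    have h2 : C1 ≤ 1 + |C1| + |C2| + |C3| := by
      have := le_abs_self C1
      have := abs_nonneg C2
      have := abs_nonneg C3
      linarith
    calc G z v v ≤ C1 * ‖v‖ * ‖v‖ := (le_abs_self _).trans h1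
      _ = C1 * ‖v‖ ^ 2 := by ring
      _ ≤ _ := by gcongr
  · intro z hz u v
    exact hsymm z (hR hz) u v
  · intro z hz
    exact (hG.contDiffAt (hU.mem_nhds (hR hz))).differentiableAt (by simp)
  · intro z hz
    refine (hC2 z hz).trans ?_
    have := le_abs_self C2
    have := abs_nonneg C1
    have := abs_nonneg C3
    linarith
  · intro z hz w hw
    have := (convex_closedBall z0 R).norm_image_sub_le_of_norm_hasFDerivWithin_le (𝕜 := ℝ)
        (f := fderiv ℝ G) (f' := fun x => fderiv ℝ (fderiv ℝ G) x) (C := C3)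
        (fun x hx => ((hG1.contDiffAt (hU.mem_nhds (hR hx))).differentiableAt
          (by simp)).hasFDerivAt.hasFDerivWithinAt)
        (fun x hx => hC3 x hx) hw hz
    refine this.trans ?_
    gcongr
    have := le_abs_self C3
    have := abs_nonneg C1
    have := abs_nonneg C2
    linarith

end Bds

end Pool.Agent.K4H32.LCP
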