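import Pool.Agent.K4H32.LCP.Geo

set_option autoImplicit false
set_option linter.unusedSectionVars false

/-!
# Conjugates of an element with a fixed point commute
-/

namespace Pool.Agent.K4H32.LCP

open Set Filter Topology Metric

lemma LN.image {G G' : Type*} [Group G] [Group G'] (φ : G →* G') {S : Set G} {k : ℕ} {g : G}
    (h : LN S k g) : LN (φ '' S) k (φ g) := by
  induction h with
  | base hs => exact LN.base ⟨_, hs, rfl⟩
  | step hs _ ih =>
    have := LN.step (S := φ '' S) (mem_image_of_mem φ hs) ih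
    simpa using this

variable {E : Type*} [NormedAddCommGroup E] [InnerProductSpace ℝ E] [FiniteDimensional ℝ E]
variable {N : Type*} [MetricSpace N]
variable {Γ : Type*} [Group Γ] [MulAction Γ E] [MulAction Γ N]
variable {c : Γ →* ℝ} (h : Sim E N c)

include h

lemma Sim.pow_smul_fix {β : Γ} {p0 : E} (hp0 : β • p0 = p0) (k : ℕ) : β ^ k • p0 = p0 := by
  induction k with
  | zero => simp
  | succ k ih => rw [pow_succ, mul_smul, hp0, ih]

lemma Sim.disp_conj {β : Γ} {p0 : E} (hp0 : β • p0 = p0) (g : Γ) (k : ℕ) :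
    ‖(β ^ k * g * (β ^ k)⁻¹) • p0 - p0‖ = c β ^ k * ‖g • p0 - p0‖ := by
  have h1 : (β ^ k)⁻¹ • p0 = p0 := by
    rw [inv_smul_eq_iff, h.pow_smul_fix hp0]
  rw [mul_smul, mul_smul, h1]
  conv_lhs => rw [← h.pow_smul_fix hp0 k, h.pow_smul_fix hp0 k]
  have h2 := h.hE (β ^ k) (g • p0) p0
  rw [h.pow_smul_fix hp0, dist_eq_norm, dist_eq_norm, map_pow] at h2
  exact h2

/-- an element acting trivially on `N` is trivial -/
lemma Sim.inj [LocallyCompactSpace N] {β : Γ} (hβ : c β < 1) {p0 : E} (hp0 : β • p0 = p0) (x : N)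
    {g : Γ} (hg : ∀ y : N, g • y = y) : g = 1 := by
  obtain ⟨r0, hr0, hd⟩ := h.disc p0 x
  have hlim : Tendsto (fun k : ℕ => c β ^ k * ‖g • p0 - p0‖) atTop (𝓝 0) := by
    have := (tendsto_pow_atTop_nhds_zero_of_lt_one (h.pos β).le hβ).mul_const ‖g • p0 - p0‖
    rwa [zero_mul] at this
  obtain ⟨k, hk⟩ := (hlim.eventually (gt_mem_nhds hr0)).exists
  have h1 := hd (β ^ k * g * (β ^ k)⁻¹) (by rw [h.disp_conj hp0]; exact hk) (by
    rw [mul_smul, mul_smul, hg, smul_inv_smul, dist_self]; exact hr0)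
  have : g = (β ^ k)⁻¹ * (β ^ k * g * (β ^ k)⁻¹) * β ^ k := by group
  rw [this, h1]; group

/-- the estimates for left-normed commutators -/
lemma Sim.ln_est {S : Set Γ} {p0 : E} {x : N} {M ε : ℝ} (hε : 0 ≤ ε)
    (hS1 : ∀ s ∈ S, c s = 1) (hSn : ∀ s ∈ S, h.Near (1 / 8) s) (hSM : ∀ s ∈ S, ‖s • p0 - p0‖ ≤ M)
    (hSN : ∀ s ∈ S, ∀ y ∈ closedBall x (2 * ε), dist (s • y) y ≤ ε)
    (hSi : ∀ s ∈ S, s⁻¹ ∈ S) (k : ℕ) (w : Γ) (hw : LN S k w) :
    c w = 1 ∧ h.Near (1 / 8 * (1 / 4) ^ k) w ∧ ‖w • p0 - p0‖ ≤ M * (1 / 2) ^ k ∧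
      dist (w • x) x ≤ 2 * ε := by
  induction hw with
  | base hs =>
    refine ⟨hS1 _ hs, by simpa using hSn _ hs, by simpa using hSM _ hs, ?_⟩
    have := hSN _ hs x (mem_closedBall_self (by positivity))
    linarith
  | @step k s w hs hw ih =>
    obtain ⟨i1, i2, i3, i4⟩ := ih
    have hM : 0 ≤ M := (norm_nonneg _).trans (hSM _ hs)
    have hs1 := hS1 _ hs
    refine ⟨?_, ?_, ?_, ?_⟩
    · have e1 : c s * c s⁻¹ = 1 := by rw [← map_mul, mul_inv_cancel, map_one]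
      have e2 : c w * c w⁻¹ = 1 := by rw [← map_mul, mul_inv_cancel, map_one]
      rw [hs1, one_mul] at e1
      rw [i1, one_mul] at e2
      rw [map_mul, map_mul, map_mul, hs1, i1, e1, e2]; norm_num
    · have := h.near_comm (hSn _ hs) i2 (by norm_num) (by positivity)
      have e : 2 * (1 / 8) * (1 / 8 * (1 / 4) ^ k) = 1 / 8 * (1 / 4 : ℝ) ^ (k + 1) := by ring
      rwa [e] at this
    · have h1 := h.disp_comm hs1 i1 (hSn _ hs) i2 (by norm_num) (by positivity) p0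
      have h2 : ((1 : ℝ) / 4) ^ k ≤ (1 / 2) ^ k := by gcongr; norm_num
      have h3 : ((1 : ℝ) / 4) ^ k ≤ 1 := pow_le_one₀ (by norm_num) (by norm_num)
      have h4 := hSM _ hs
      refine h1.trans ?_
      set q := ((1 : ℝ) / 4) ^ k with hq
      have hq0 : 0 ≤ q := by positivity
      set r := ((1 : ℝ) / 2) ^ k with hr
      have hr0 : 0 ≤ r := by positivity
      calc (1 / 8 + 2 * (1 / 8) * (1 / 8 * q)) * ‖w • p0 - p0‖ +
            (1 / 8 * q + 2 * (1 / 8) * (1 / 8 * q)) * ‖s • p0 - p0‖ ≤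
            (1 / 8 + 2 * (1 / 8) * (1 / 8 * 1)) * (M * r) +
            (1 / 8 * r + 2 * (1 / 8) * (1 / 8 * r)) * M := by gcongr
        _ = M * r * (10 / 32) := by ring
        _ ≤ M * r * (1 / 2) := by
            have : 0 ≤ M * r := by positivity
            nlinarith
        _ = M * (1 / 2) ^ (k + 1) := by rw [hr]; ring
    · -- the displacement in `N`
      have hwx : dist (w⁻¹ • x) x ≤ 2 * ε := by
        have := h.hN w (w⁻¹ • x) x
        rw [smul_inv_smul, i1, one_mul] at this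
        rw [← this, dist_comm]; exact i4
      have h1 := hSN _ (hSi _ hs) (w⁻¹ • x) hwx
      have h2 : dist (w • s⁻¹ • w⁻¹ • x) x ≤ ε := by
        have := h.hN w (s⁻¹ • w⁻¹ • x) (w⁻¹ • x)
        rw [smul_inv_smul, i1, one_mul] at this
        rw [this]; exact h1
      have h3 := hSN _ hs (w • s⁻¹ • w⁻¹ • x) (by
        rw [mem_closedBall]; linarith)
      have h4 := dist_triangle (s • w • s⁻¹ • w⁻¹ • x) (w • s⁻¹ • w⁻¹ • x) x
      have e : (s * w * s⁻¹ * w⁻¹) • x = s • w • s⁻¹ • w⁻¹ • x := by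
        rw [mul_smul, mul_smul, mul_smul]
      rw [e]
      linarith

/-- recurrence -/
lemma Sim.recur {a : c.ker} {K : Subgroup (N ≃ᵢ N)} (hK : Good (h.π a) K) {Q : Set N}
    (hQ : IsCompact Q) {ε : ℝ} (hε : 0 < ε) : ∃ i : ℕ, 0 < i ∧
      (∀ y ∈ Q, dist (a.1 ^ i • y) y ≤ ε) ∧ h.Near (1 / 8) (a.1 ^ i) := by
  -- the neighbourhood
  obtain ⟨t, htQ, htf, htc⟩ := Metric.finite_approx_of_totallyBounded hQ.totallyBounded (ε / 3)
    (by positivity)
  set U : Set (N ≃ᵢ N) := {f | ∀ y ∈ t, dist (f y) y < ε / 3} with hU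
  have hU1 : U ∈ 𝓝 (1 : N ≃ᵢ N) := by
    have : U = ⋂ y ∈ t, {f | dist (f y) y < ε / 3} := by
      ext f; simp [hU]
    rw [this, Filter.biInter_mem htf]
    intro y _
    have hc : Continuous fun f : N ≃ᵢ N => dist (f y) y := (continuous_eval y).dist continuous_const
    refine (isOpen_lt hc continuous_const).mem_nhds ?_
    show dist ((1 : N ≃ᵢ N) y) y < ε / 3
    have : (1 : N ≃ᵢ N) y = y := rfl
    rw [this, dist_self]; positivity
  have hUQ : ∀ f ∈ U, ∀ y ∈ Q, dist (f y) y ≤ ε := by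
    intro f hf y hy
    have h1 := htc hy
    simp only [mem_iUnion, exists_prop] at h1
    obtain ⟨y', hy', hyy⟩ := h1
    have h2 := hf y' hy'
    have h3 := dist_triangle4 (f y) (f y') y' y
    rw [f.isometry.dist_eq, dist_comm y' y] at h3
    have h4 := mem_ball.1 hyy
    linarith
  -- the sequence
  set u : ℕ → (N ≃ᵢ N) × (E →L[ℝ] E) := fun n =>
    (h.π a ^ n, (h.R (a.1 ^ n)).toLinearIsometry.toContinuousLinearMap) with hu
  have huT : ∀ n, u n ∈ (K : Set (N ≃ᵢ N)) ×ˢ closedBall (0 : E →L[ℝ] E) 1 := by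
    intro n
    refine ⟨K.pow_mem hK.mem n, ?_⟩
    rw [mem_closedBall, dist_zero_right]
    exact LinearIsometry.norm_toContinuousLinearMap_le _
  have hT : IsCompact ((K : Set (N ≃ᵢ N)) ×ˢ closedBall (0 : E →L[ℝ] E) 1) :=
    hK.compact.prod (isCompact_closedBall _ _)
  obtain ⟨p, _, hp⟩ := hT (f := map u atTop) (by
    rw [le_principal_iff]
    exact Filter.mem_map.2 (Filter.univ_mem' huT))
  have hcont : ContinuousAt (fun q : ((N ≃ᵢ N) × (E →L[ℝ] E)) × ((N ≃ᵢ N) × (E →L[ℝ] E)) =>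
      q.1.1⁻¹ * q.2.1) (p, p) := by fun_prop
  have hpre : (fun q : ((N ≃ᵢ N) × (E →L[ℝ] E)) × ((N ≃ᵢ N) × (E →L[ℝ] E)) =>
      q.1.1⁻¹ * q.2.1) ⁻¹' U ∈ 𝓝 (p, p) := by
    apply hcont
    simpa using hU1
  rw [nhds_prod_eq, Filter.mem_prod_self_iff] at hpre
  obtain ⟨V, hV, hVU⟩ := hpre
  have hV2 : {q : (N ≃ᵢ N) × (E →L[ℝ] E) | dist q.2 p.2 < 1 / 16} ∈ 𝓝 p := by
    have hc : Continuous fun q : (N ≃ᵢ N) × (E →L[ℝ] E) => dist q.2 p.2 := by fun_prop
    refine (isOpen_lt hc continuous_const).mem_nhds ?_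
    show dist p.2 p.2 < 1 / 16
    rw [dist_self]; norm_num
  have hfreq : ∃ᶠ n in atTop, u n ∈ V ∩ {q | dist q.2 p.2 < 1 / 16} := by
    have := (mapClusterPt_iff_frequently (u := u) (F := atTop) (x := p)).1 hp
    exact this _ (Filter.inter_mem hV hV2)
  obtain ⟨n1, hn1⟩ := hfreq.exists
  obtain ⟨n2, hn12, hn2⟩ := (Filter.frequently_atTop.1 hfreq) (n1 + 1)
  refine ⟨n2 - n1, by omega, ?_, ?_⟩
  · have h1 : (h.π a ^ n1)⁻¹ * h.π a ^ n2 ∈ U := hVU (mk_mem_prod hn1.1 hn2.1)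
    have h2 : (h.π a ^ n1)⁻¹ * h.π a ^ n2 = h.π a ^ (n2 - n1) := by
      rw [← zpow_natCast, ← zpow_natCast, ← zpow_neg, ← zpow_add, ← zpow_natCast]
      congr 1
      omega
    rw [h2, ← map_pow] at h1
    intro y hy
    exact hUQ _ h1 y hy
  · intro v
    have h1 : h.R (a.1 ^ n2) v = h.R (a.1 ^ n1) (h.R (a.1 ^ (n2 - n1)) v) := by
      rw [← h.R_mul, ← pow_add]
      congr 3
      omega
    have h2 : ‖h.R (a.1 ^ (n2 - n1)) v - v‖ = ‖h.R (a.1 ^ n2) v - h.R (a.1 ^ n1) v‖ := by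
      rw [h1, ← map_sub, (h.R (a.1 ^ n1)).norm_map]
    have h3 : dist (u n2).2 (u n1).2 ≤ 1 / 8 := by
      have := dist_triangle_right (u n2).2 (u n1).2 p.2
      have e1 := hn1.2
      have e2 := hn2.2
      simp only [mem_ofPred_eq] at e1 e2
      linarith
    rw [dist_eq_norm] at h3
    have h4 := ((u n2).2 - (u n1).2).le_opNorm v
    rw [h2]
    calc ‖h.R (a.1 ^ n2) v - h.R (a.1 ^ n1) v‖ = ‖((u n2).2 - (u n1).2) v‖ := rfl
      _ ≤ ‖(u n2).2 - (u n1).2‖ * ‖v‖ := h4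
      _ ≤ 1 / 8 * ‖v‖ := by gcongr

/-- **The conjugates of an element with a fixed point in `N` commute with it.** -/
theorem Sim.comm [LocallyCompactSpace N] {β : Γ} (hβ : c β < 1) {p0 : E} (hp0 : β • p0 = p0)
    (x : N) {a : c.ker} {K : Subgroup (N ≃ᵢ N)} (hK : Good (h.π a) K) (δ : Γ) :
    a.1 * (δ * a.1 * δ⁻¹) = (δ * a.1 * δ⁻¹) * a.1 := by
  obtain ⟨r0, hr0, hd⟩ := h.disc p0 x
  obtain ⟨ρ, hρ, hρc⟩ : ∃ ρ > 0, IsCompact (closedBall x ρ) := by
    obtain ⟨K, hK, hKy⟩ := exists_compact_mem_nhds x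
    obtain ⟨ρ, hρ, hs⟩ := Metric.nhds_basis_closedBall.mem_iff.1 hKy
    exact ⟨ρ, hρ, hK.of_isClosed_subset isClosed_closedBall hs⟩
  set ε := min ρ r0 / 4 with hε
  have hm : 0 < min ρ r0 := lt_min hρ hr0
  have hε0 : 0 < ε := by positivity
  have hεr : 2 * ε < r0 := by
    have := min_le_right ρ r0
    rw [hε]; linarith
  have hεc : IsCompact (closedBall x (2 * ε)) := by
    refine hρc.of_isClosed_subset isClosed_closedBall (closedBall_subset_closedBall ?_)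
    have := min_le_left ρ r0
    rw [hε]; linarith
  set Q : Set N := closedBall x (2 * ε) ∪ (fun y => δ⁻¹ • y) '' closedBall x (2 * ε) with hQ
  have hQc : IsCompact Q := hεc.union (hεc.image (h.continuous_smul δ⁻¹))
  have hδ := h.pos δ
  obtain ⟨i, hi, hiQ, hin⟩ := h.recur hK hQc (ε := min ε (ε / c δ)) (by positivity)
  -- the letters
  have hai : c (a.1 ^ i) = 1 := by
    have : c a.1 = 1 := a.2
    rw [map_pow, this, one_pow]
  have hci : ∀ g : Γ, c g = 1 → c g⁻¹ = 1 := by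
    intro g hg
    have : c g * c g⁻¹ = 1 := by rw [← map_mul, mul_inv_cancel, map_one]
    rwa [hg, one_mul] at this
  have hconj : ∀ g : Γ, c g = 1 → c (δ * g * δ⁻¹) = 1 := by
    intro g hg
    have : c δ * c δ⁻¹ = 1 := by rw [← map_mul, mul_inv_cancel, map_one]
    rw [map_mul, map_mul, hg, mul_one, this]
  set a' : Γ := a.1 ^ i with ha'
  set b' : Γ := δ * a' * δ⁻¹ with hb'
  have hb1 : c b' = 1 := hconj _ hai
  let A' : c.ker := ⟨a', hai⟩
  let B' : c.ker := ⟨b', hb1⟩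
  set S : Set c.ker := {A', A'⁻¹, B', B'⁻¹} with hS
  set M : ℝ := ‖a' • p0 - p0‖ + ‖b' • p0 - p0‖ with hM
  have hinvM : ∀ g : Γ, c g = 1 → ‖g⁻¹ • p0 - p0‖ = ‖g • p0 - p0‖ := by
    intro g hg
    have := h.hE g (g⁻¹ • p0) p0
    rw [smul_inv_smul, hg, one_mul, dist_eq_norm, dist_eq_norm] at this
    rw [← this, norm_sub_rev]
  have hinvN : ∀ g : Γ, c g = 1 → ∀ y : N, dist (g⁻¹ • y) y = dist (g • y) y := by
    intro g hg y
    have := h.hN g (g⁻¹ • y) y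
    rw [smul_inv_smul, hg, one_mul] at this
    rw [← this, dist_comm]
  have haQ : ∀ y ∈ closedBall x (2 * ε), dist (a' • y) y ≤ ε := fun y hy =>
    (hiQ y (Or.inl hy)).trans (min_le_left _ _)
  have hbQ : ∀ y ∈ closedBall x (2 * ε), dist (b' • y) y ≤ ε := by
    intro y hy
    have h1 := (hiQ (δ⁻¹ • y) (Or.inr ⟨y, hy, rfl⟩)).trans (min_le_right _ _)
    have h2 := h.hN δ (a' • δ⁻¹ • y) (δ⁻¹ • y)
    rw [smul_inv_smul] at h2
    have h3 : b' • y = δ • a' • δ⁻¹ • y := by rw [hb', mul_smul, mul_smul]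
    rw [h3, h2]
    calc c δ * dist (a' • δ⁻¹ • y) (δ⁻¹ • y) ≤ c δ * (ε / c δ) := by gcongr
      _ = ε := by field_simp
  have hSi : ∀ s ∈ S, s⁻¹ ∈ S := by
    intro s hs
    simp only [hS, mem_insert_iff, mem_singleton_iff] at hs ⊢
    rcases hs with rfl | rfl | rfl | rfl <;> simp
  have hSv : ∀ s ∈ S, h.Near (1 / 8) s.1 ∧ ‖s.1 • p0 - p0‖ ≤ M ∧
      ∀ y ∈ closedBall x (2 * ε), dist (s.1 • y) y ≤ ε := by
    intro s hs
    simp only [hS, mem_insert_iff, mem_singleton_iff] at hs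
    have hn1 := norm_nonneg (a' • p0 - p0)
    have hn2 := norm_nonneg (b' • p0 - p0)
    rcases hs with rfl | rfl | rfl | rfl
    · exact ⟨hin, by rw [hM]; linarith, haQ⟩
    · refine ⟨h.near_inv hin, ?_, fun y hy => ?_⟩
      · show ‖a'⁻¹ • p0 - p0‖ ≤ M
        rw [hinvM _ hai, hM]; linarith
      · show dist (a'⁻¹ • y) y ≤ ε
        rw [hinvN _ hai]; exact haQ y hy
    · exact ⟨h.near_conj hin δ, by rw [hM]; linarith, hbQ⟩
    · refine ⟨h.near_inv (h.near_conj hin δ), ?_, fun y hy => ?_⟩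
      · show ‖b'⁻¹ • p0 - p0‖ ≤ M
        rw [hinvM _ hb1, hM]; linarith
      · show dist (b'⁻¹ • y) y ≤ ε
        rw [hinvN _ hb1]; exact hbQ y hy
  -- nilpotency
  obtain ⟨k0, hk0⟩ : ∃ k0 : ℕ, M * (1 / 2) ^ k0 < r0 := by
    have : Tendsto (fun k : ℕ => M * (1 / 2 : ℝ) ^ k) atTop (𝓝 0) := by
      have := (tendsto_pow_atTop_nhds_zero_of_lt_one (r := (1 / 2 : ℝ)) (by norm_num)
        (by norm_num)).const_mul M
      rwa [mul_zero] at this
    exact (this.eventually (gt_mem_nhds hr0)).exists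
  have hLN : ∀ w : c.ker, LN S k0 w → w = 1 := by
    intro w hw
    have h1 := LN.image c.ker.subtype hw
    have h2 := h.ln_est (p0 := p0) (x := x) (M := M) hε0.le (S := c.ker.subtype '' S)
      (by rintro _ ⟨s, _, rfl⟩; exact s.2)
      (by rintro _ ⟨s, hs, rfl⟩; exact (hSv s hs).1)
      (by rintro _ ⟨s, hs, rfl⟩; exact (hSv s hs).2.1)
      (by rintro _ ⟨s, hs, rfl⟩; exact (hSv s hs).2.2)
      (by rintro _ ⟨s, hs, rfl⟩; exact ⟨s⁻¹, hSi s hs, by simp⟩) k0 _ h1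
    have h3 := hd _ (h2.2.2.1.trans_lt hk0) (h2.2.2.2.trans_lt hεr)
    exact Subtype.ext h3
  have hLN' : ∀ g, LN (h.π '' S) k0 g → g = 1 := by
    intro g hg
    obtain ⟨w, hw, rfl⟩ := hg.map
    rw [hLN w hw, map_one]
  have hSi' : ∀ s ∈ h.π '' S, s⁻¹ ∈ h.π '' S := by
    rintro _ ⟨s, hs, rfl⟩
    exact ⟨s⁻¹, hSi s hs, by simp⟩
  -- the two tori
  have hL := hK.map (h.cj δ) (h.continuous_cj δ)
  have hπb : h.π B' = (h.cj δ (h.π a)) ^ i := by
    rw [← map_pow, ← map_pow]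
    ext y
    show b' • y = δ • a.1 ^ i • δ⁻¹ • y
    rw [hb', mul_smul, mul_smul]
  have hπa : h.π A' = (h.π a) ^ i := by
    rw [← map_pow]; rfl
  have hKB : (K : Set (N ≃ᵢ N)) ⊆ Bk (h.π '' S) 0 := by
    refine (hK.dense i hi).trans (closure_mono ?_)
    have : Subgroup.zpowers (h.π a ^ i) ≤ Ak (h.π '' S) 0 := by
      rw [Subgroup.zpowers_le, Ak_zero]
      exact Subgroup.subset_closure ⟨A', by simp [hS], hπa⟩
    exact this
  have hLB : ((K.map (h.cj δ) : Subgroup (N ≃ᵢ N)) : Set (N ≃ᵢ N)) ⊆ Bk (h.π '' S) 0 := by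
    refine (hL.dense i hi).trans (closure_mono ?_)
    have : Subgroup.zpowers (h.cj δ (h.π a) ^ i) ≤ Ak (h.π '' S) 0 := by
      rw [Subgroup.zpowers_le, Ak_zero]
      exact Subgroup.subset_closure ⟨B', by simp [hS], hπb⟩
    exact this
  have hfin := commute_of_nilp hSi' hLN' hKB hLB hK.tors hL.div hK.mem hL.mem
  -- back to the group
  have hker : a.1 * (δ * a.1 * δ⁻¹) * a.1⁻¹ * (δ * a.1 * δ⁻¹)⁻¹ = 1 := by
    refine h.inj hβ hp0 x fun y => ?_
    have h1 : ∀ y : N, a.1 • (δ * a.1 * δ⁻¹) • y = (δ * a.1 * δ⁻¹) • a.1 • y := by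
      intro y
      have := congrArg (fun f : N ≃ᵢ N => f y) hfin
      have e : ∀ y : N, (h.cj δ (h.π a)) y = (δ * a.1 * δ⁻¹) • y := by
        intro y
        rw [mul_smul, mul_smul]; rfl
      calc a.1 • (δ * a.1 * δ⁻¹) • y = (h.π a) ((h.cj δ (h.π a)) y) := by rw [e]; rfl
        _ = (h.cj δ (h.π a)) ((h.π a) y) := this
        _ = (δ * a.1 * δ⁻¹) • a.1 • y := by rw [e]; rfl
    rw [mul_smul, mul_smul, mul_smul]
    have h2 := h1 (a.1⁻¹ • (δ * a.1 * δ⁻¹)⁻¹ • y)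
    rw [h2, smul_inv_smul, smul_inv_smul]
  rw [mul_inv_eq_one, mul_inv_eq_iff_eq_mul] at hker
  exact hker

end Pool.Agent.K4H32.LCP
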