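import Pool.Agent.K4H32.LCP.Pack

set_option autoImplicit false
set_option linter.unusedSectionVars false

/-!
# Discrete groups of similarities of `E × N` act freely on `N`
-/

namespace Pool.Agent.K4H32.LCP

open Set Filter Topology Metric

variable {E : Type*} [NormedAddCommGroup E] [InnerProductSpace ℝ E] [FiniteDimensional ℝ E]
variable {N : Type*} [MetricSpace N]
variable {Γ : Type*} [Group Γ] [MulAction Γ E] [MulAction Γ N]
variable {c : Γ →* ℝ} (h : Sim E N c)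

include h

/-- a periodic element has a fixed point in `E` -/
lemma Sim.fix_of_pow {g : Γ} (hg : c g = 1) {m : ℕ} (hm : 0 < m) (hgm : g ^ m = 1) :
    ∃ p : E, g • p = p := by
  set S : E := ∑ i ∈ Finset.range m, (g ^ i) • (0 : E) with hS
  have h1 : ∀ v : E, g • v = g • (0 : E) + h.R g v := by
    intro v
    have := h.smul_add' g 0 v
    rwa [zero_add, hg, one_smul] at this
  have hmr : (m : ℝ) ≠ 0 := by exact_mod_cast hm.ne'
  have h2 : (m : ℝ) • (g • (0 : E)) + h.R g S = S := by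
    rw [hS, map_sum]
    have e1 : (m : ℝ) • (g • (0 : E)) = ∑ _i ∈ Finset.range m, g • (0 : E) := by
      rw [Finset.sum_const, Finset.card_range, ← Nat.cast_smul_eq_nsmul ℝ]
    rw [e1, ← Finset.sum_add_distrib]
    have e2 : ∀ i, g • (0 : E) + h.R g ((g ^ i) • (0 : E)) = (g ^ (i + 1)) • (0 : E) := by
      intro i
      rw [← h1, smul_smul, ← pow_succ']
    simp only [e2]
    have e3 := Finset.sum_range_succ' (fun i => (g ^ i) • (0 : E)) m
    have e4 := Finset.sum_range_succ (fun i => (g ^ i) • (0 : E)) m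
    rw [e3] at e4
    rw [hgm, pow_zero] at e4
    exact add_right_cancel e4
  refine ⟨(m : ℝ)⁻¹ • S, ?_⟩
  rw [h1, map_smul]
  have h3 := congrArg (fun w => (m : ℝ)⁻¹ • w) h2
  simp only [smul_add, inv_smul_smul₀ hmr] at h3
  exact h3

/-- **A discrete group of similarities of `E × N`, not all isometries, acts freely on `N`.** -/
theorem Sim.free_action [ConnectedSpace N] [LocallyCompactSpace N] (hne : ∃ g, c g ≠ 1)
    (hLin : ∀ (g : Γ) (x : N), c g = 1 → g • x = x → ∃ (d : ℕ) (z : UnitAddTorus (Fin d)),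
      ∀ (y : N) (ε : ℝ), 0 < ε → ∃ δ : ℝ, 0 < δ ∧ ∀ n : ℕ, ‖n • z‖ < δ →
        dist (g ^ n • y) y < ε)
    {g : Γ} {x : N} (hx : g • x = x) : g = 1 := by
  by_contra hg1
  have hcg := h.ratio_one hx hg1
  -- a contraction
  obtain ⟨β, hβ⟩ : ∃ β, c β < 1 := by
    obtain ⟨β, hβ⟩ := hne
    rcases lt_or_gt_of_ne hβ with h1 | h1
    · exact ⟨β, h1⟩
    · refine ⟨β⁻¹, ?_⟩
      have h3 : c β * c β⁻¹ = 1 := by rw [← map_mul, mul_inv_cancel, map_one]
      have h4 := h.pos β⁻¹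
      nlinarith
  obtain ⟨p0, hp0⟩ := h.exists_fix hβ.ne
  obtain ⟨d, z, hz⟩ := hLin g x hcg hx
  obtain ⟨m, hm, hsat⟩ := exists_sat z
  let γ : c.ker := ⟨g, hcg⟩
  -- convergence in the group
  have hLN : ∀ U ∈ 𝓝 (1 : N ≃ᵢ N), ∃ δ : ℝ, 0 < δ ∧ ∀ n : ℕ, ‖n • z‖ < δ → h.π γ ^ n ∈ U := by
    have ht : Tendsto (fun n : ℕ => h.π γ ^ n) (comap (fun n : ℕ => n • z) (𝓝 0)) (𝓝 1) := by
      refine tendsto_iso.2 fun y => ?_
      rw [Metric.tendsto_nhds]
      intro ε hε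
      obtain ⟨δ, hδ, hδn⟩ := hz y ε hε
      rw [(Metric.nhds_basis_ball.comap _).eventually_iff]
      refine ⟨δ, hδ, fun n hn => ?_⟩
      have hn' : ‖n • z‖ < δ := by
        have : n • z ∈ ball (0 : UnitAddTorus (Fin d)) δ := hn
        rwa [mem_ball, dist_zero_right] at this
      have h1 := hδn n hn'
      rw [← map_pow]
      exact h1
    intro U hU
    have h1 := ht hU
    rw [Filter.mem_map, (Metric.nhds_basis_ball.comap _).mem_iff] at h1
    obtain ⟨δ, hδ, hδU⟩ := h1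
    refine ⟨δ, hδ, fun n hn => hδU ?_⟩
    show n • z ∈ ball (0 : UnitAddTorus (Fin d)) δ
    rwa [mem_ball, dist_zero_right]
  have hLZ : ∀ U ∈ 𝓝 (1 : N ≃ᵢ N), ∃ δ : ℝ, 0 < δ ∧ ∀ n : ℤ, ‖n • z‖ < δ → h.π γ ^ n ∈ U := by
    intro U hU
    have hU2 : U ∩ U⁻¹ ∈ 𝓝 (1 : N ≃ᵢ N) :=
      Filter.inter_mem hU (inv_mem_nhds_one _ hU)
    obtain ⟨δ, hδ, hδU⟩ := hLN _ hU2
    refine ⟨δ, hδ, fun n hn => ?_⟩
    obtain ⟨k, rfl | rfl⟩ := n.eq_nat_or_neg
    · rw [natCast_zsmul] at hn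
      rw [zpow_natCast]
      exact (hδU k hn).1
    · rw [neg_smul, norm_neg, natCast_zsmul] at hn
      rw [zpow_neg, zpow_natCast]
      exact (hδU k hn).2
  have hπx : h.π γ x = x := hx
  have hπxm : (h.π (γ ^ m)) x = x := by
    rw [map_pow]
    exact (stab x).pow_mem hπx m
  have hgood := exists_good (g := h.π (γ ^ m)) (z := m • z)
    (fun k n hn hk => hsat k n hn hk) (isCompact_closure_zpowers _ hπxm) (by
      intro U hU
      obtain ⟨δ, hδ, hδU⟩ := hLZ U hU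
      refine ⟨δ, hδ, fun n hn => ?_⟩
      rw [map_pow, ← zpow_natCast, ← zpow_mul]
      apply hδU
      rw [mul_comm, mul_smul, natCast_zsmul]
      exact hn)
  have hgmx : (γ ^ m).1 • x = x := hπxm
  have h1 := h.trivial_of_good hβ hp0 hgmx hgood
  have h2 : g ^ m = 1 := h1
  obtain ⟨p, hp⟩ := h.fix_of_pow hcg hm h2
  exact hg1 (h.free g p x hp hx)

end Pool.Agent.K4H32.LCP
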