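import Pool.Agent.K4H32.LCP.Rigid
import Pool.Agent.K4H32.LCP.PartA

set_option autoImplicit false
set_option maxSynthPendingDepth 3
set_option linter.unusedSectionVars false

/-!
# Similarities of a Riemannian manifold scale the distance
-/

namespace Pool.Agent.K4H32.LCP

open Set Filter Topology Metric Manifold Bundle MeasureTheory
open scoped ContDiff ENNReal

variable {E : Type*} [NormedAddCommGroup E] [NormedSpace ℝ E] [FiniteDimensional ℝ E]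
  {N : Type*} [MetricSpace N] [ChartedSpace E N] [IsManifold 𝓘(ℝ, E) ∞ N]
  [RiemannianBundle (fun (x : N) ↦ TangentSpace 𝓘(ℝ, E) x)]
  [IsContMDiffRiemannianBundle 𝓘(ℝ, E) ∞ E (fun (x : N) ↦ TangentSpace 𝓘(ℝ, E) x)]
  [IsRiemannianManifold 𝓘(ℝ, E) N]

lemma pathELength_map_le {f : N → N} (hf : ContMDiff 𝓘(ℝ, E) 𝓘(ℝ, E) ∞ f) {r : ℝ} (hr : 0 ≤ r)
    (hn : ∀ (y : N) (v : TangentSpace 𝓘(ℝ, E) y),
      ‖mfderiv 𝓘(ℝ, E) 𝓘(ℝ, E) f y v‖ = r * ‖v‖)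
    {γ : ℝ → N} (hγ : ContMDiffOn 𝓘(ℝ, ℝ) 𝓘(ℝ, E) 1 γ (Icc 0 1)) :
    pathELength 𝓘(ℝ, E) (f ∘ γ) 0 1 = ENNReal.ofReal r * pathELength 𝓘(ℝ, E) γ 0 1 := by
  rw [pathELength_eq_lintegral_mfderivWithin_Icc, pathELength_eq_lintegral_mfderivWithin_Icc,
    ← lintegral_const_mul' _ _ ENNReal.ofReal_ne_top]
  apply setLIntegral_congr_fun measurableSet_Icc (fun t ht ↦ ?_)
  have h1 : mfderivWithin 𝓘(ℝ, ℝ) 𝓘(ℝ, E) (f ∘ γ) (Icc 0 1) t =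
      (mfderiv 𝓘(ℝ, E) 𝓘(ℝ, E) f (γ t)) ∘L (mfderivWithin 𝓘(ℝ, ℝ) 𝓘(ℝ, E) γ (Icc 0 1) t) := by
    apply mfderiv_comp_mfderivWithin
    · exact (hf _).mdifferentiableAt (by simp)
    · exact hγ.mdifferentiableOn one_ne_zero t ht
    · rw [uniqueMDiffWithinAt_iff_uniqueDiffWithinAt]
      exact uniqueDiffOn_Icc zero_lt_one t ht
  have h2 : mfderivWithin 𝓘(ℝ, ℝ) 𝓘(ℝ, E) (f ∘ γ) (Icc 0 1) t 1 =
      mfderiv 𝓘(ℝ, E) 𝓘(ℝ, E) f (γ t) (mfderivWithin 𝓘(ℝ, ℝ) 𝓘(ℝ, E) γ (Icc 0 1) t 1) :=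
    congr($h1 1)
  rw [h2, ← ofReal_norm, ← ofReal_norm, hn, ENNReal.ofReal_mul hr]

lemma riemannianEDist_map_le {f : N → N} (hf : ContMDiff 𝓘(ℝ, E) 𝓘(ℝ, E) ∞ f) {r : ℝ}
    (hr : 0 < r) (hn : ∀ (y : N) (v : TangentSpace 𝓘(ℝ, E) y),
      ‖mfderiv 𝓘(ℝ, E) 𝓘(ℝ, E) f y v‖ = r * ‖v‖) (x y : N) :
    riemannianEDist 𝓘(ℝ, E) (f x) (f y) ≤ ENNReal.ofReal r * riemannianEDist 𝓘(ℝ, E) x y := by
  have hr0 : ENNReal.ofReal r ≠ 0 := by simpa using hr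
  have hrt : ENNReal.ofReal r ≠ ⊤ := ENNReal.ofReal_ne_top
  rw [mul_comm, ← ENNReal.div_le_iff hr0 hrt]
  refine le_of_forall_gt fun s hs => ?_
  obtain ⟨γ, h0, h1, hγ, hl⟩ := exists_lt_of_riemannianEDist_lt hs
  have hf1 : ContMDiff 𝓘(ℝ, E) 𝓘(ℝ, E) 1 f := hf.of_le (by simp)
  have h3 : ContMDiffOn 𝓘(ℝ, ℝ) 𝓘(ℝ, E) 1 (f ∘ γ) (Icc 0 1) := hf1.comp_contMDiffOn hγ
  have h2 : riemannianEDist 𝓘(ℝ, E) (f x) (f y) ≤ pathELength 𝓘(ℝ, E) (f ∘ γ) 0 1 :=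
    riemannianEDist_le_pathELength h3 (by simp [h0]) (by simp [h1]) zero_le_one
  rw [pathELength_map_le hf hr.le hn hγ] at h2
  refine lt_of_le_of_lt ?_ hl
  rw [ENNReal.div_le_iff hr0 hrt, mul_comm]
  exact h2

lemma dist_map_le {f : N → N} (hf : ContMDiff 𝓘(ℝ, E) 𝓘(ℝ, E) ∞ f) {r : ℝ}
    (hr : 0 < r) (hn : ∀ (y : N) (v : TangentSpace 𝓘(ℝ, E) y),
      ‖mfderiv 𝓘(ℝ, E) 𝓘(ℝ, E) f y v‖ = r * ‖v‖) (x y : N) :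
    dist (f x) (f y) ≤ r * dist x y := by
  have h := riemannianEDist_map_le hf hr hn x y
  rw [← IsRiemannianManifold.out (I := 𝓘(ℝ, E)), ← IsRiemannianManifold.out (I := 𝓘(ℝ, E)),
    edist_dist, edist_dist, ← ENNReal.ofReal_mul hr.le] at h
  exact (ENNReal.ofReal_le_ofReal_iff (by positivity)).1 h

end Pool.Agent.K4H32.LCP
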