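import Mathlib

set_option autoImplicit false

/-!
# The action of the fundamental group of an LCP manifold

`(M, c, D)` is a locally conformally product manifold: `D` is the Levi-Civita connection of a
Riemannian metric `h_D` on the universal cover, `(M', h_D) = V × (N, g_N)` with `V` a Euclidean space
of dimension at least one, and the fundamental group `Γ` acts on `M'` by deck transformations, which
are similarities `γ = (γ_E, γ_N)` of `h_D`. We record the part of the structure which is used.
Cocompactness of the action, non-flatness, incompleteness and irreducibility of `N` are not needed.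
-/

namespace Pool.Agent.K4H32.LCPS

open Manifold Bundle
open scoped ContDiff

section

variable {E : Type*} [NormedAddCommGroup E] [NormedSpace ℝ E] {N : Type*} [MetricSpace N]
  [ChartedSpace E N]

/-- `f` is a smooth map of the manifold `N`. -/
def IsSmooth (E : Type*) [NormedAddCommGroup E] [NormedSpace ℝ E] {N : Type*} [MetricSpace N]
    [ChartedSpace E N] (f : N → N) : Prop :=
  ContMDiff 𝓘(ℝ, E) 𝓘(ℝ, E) ∞ f

/-- The image of the tangent vector `v` at `y` under the differential of `f`. -/
noncomputable def push (f : N → N) (y : N) (v : TangentSpace 𝓘(ℝ, E) y) :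
    TangentSpace 𝓘(ℝ, E) (f y) :=
  mfderiv 𝓘(ℝ, E) 𝓘(ℝ, E) f y v

/-- The Riemannian norm of the tangent vector `v` at `y`. -/
noncomputable def len [RiemannianBundle (fun (x : N) ↦ TangentSpace 𝓘(ℝ, E) x)] (y : N)
    (v : TangentSpace 𝓘(ℝ, E) y) : ℝ := ‖v‖

/-- `f` is smooth and its differential multiplies the Riemannian norm by `r`: if `f` is a
diffeomorphism, this says that `f` is a similarity of ratio `r`, `f^* g = r ^ 2 g`. -/
def ScalesBy (E : Type*) [NormedAddCommGroup E] [NormedSpace ℝ E] {N : Type*} [MetricSpace N]
    [ChartedSpace E N] [RiemannianBundle (fun (x : N) ↦ TangentSpace 𝓘(ℝ, E) x)]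
    (f : N → N) (r : ℝ) : Prop :=
  IsSmooth E f ∧ ∀ (y : N) (v : TangentSpace 𝓘(ℝ, E) y), len (f y) (push f y v) = r * len y v

end

/-- The action of the fundamental group `Γ` of an LCP manifold on the universal cover `V × N`:
a free and properly discontinuous action by maps `γ = (γ_E, γ_N)`, where `γ_E` is a similarity of
the Euclidean space `V` and `γ_N` is a diffeomorphism and a similarity of the Riemannian manifold `N`
(modelled on the vector space `E`), both of the same ratio `lam γ`, and not all ratios are `1` (the
Weyl structure is not exact). -/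
structure IsLCPAction (V E : Type*) [MetricSpace V] [NormedAddCommGroup E] [NormedSpace ℝ E]
    (N : Type*) [MetricSpace N] [ChartedSpace E N]
    [RiemannianBundle (fun (x : N) ↦ TangentSpace 𝓘(ℝ, E) x)]
    (Γ : Type*) [Group Γ] [MulAction Γ V] [MulAction Γ N] (lam : Γ → ℝ) : Prop where
  /-- The ratios are positive. -/
  ratio_pos : ∀ γ : Γ, 0 < lam γ
  /-- The maps `γ_E` are similarities of the Euclidean space of ratio `lam γ`. -/
  similarity_flat : ∀ (γ : Γ) (u v : V), dist (γ • u) (γ • v) = lam γ * dist u v
  /-- The maps `γ_N` (diffeomorphisms, with inverses `(γ⁻¹)_N`) are similarities of the Riemannian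
  manifold `N` of ratio `lam γ`. -/
  similarity : ∀ γ : Γ, ScalesBy E (fun y : N => γ • y) (lam γ)
  /-- The action on `V × N` is free. -/
  free : ∀ (γ : Γ) (u : V) (y : N), γ • u = u → γ • y = y → γ = 1
  /-- The action on `V × N` is properly discontinuous. -/
  properly_discontinuous : ∀ K : Set (V × N), IsCompact K →
    {γ : Γ | ∃ p ∈ K, (γ • p.1, γ • p.2) ∈ K}.Finite
  /-- Not all ratios are `1`. -/
  not_isometric : ∃ γ : Γ, lam γ ≠ 1

end Pool.Agent.K4H32.LCPS
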