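import Pool.Agent.K4H32.LCP.Dist
import Pool.Agent.K4H32.LCP.Stmt

set_option autoImplicit false
set_option maxSynthPendingDepth 3
set_option linter.unusedSectionVars false

/-!
# The factor action of an LCP manifold is free
-/

namespace Pool.Agent.K4H32.LCPS

open Set Filter Topology Metric Manifold Bundle
open scoped ContDiff
open Pool.Agent.K4H32.LCP

universe u v

variable {V : Type*} [NormedAddCommGroup V] [InnerProductSpace ℝ V] [FiniteDimensional ℝ V]
  {E : Type*} [NormedAddCommGroup E] [NormedSpace ℝ E] [FiniteDimensional ℝ E]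
  {N : Type u} [MetricSpace N] [ChartedSpace E N] [IsManifold 𝓘(ℝ, E) ∞ N]
  [RiemannianBundle (fun (x : N) ↦ TangentSpace 𝓘(ℝ, E) x)]
  [IsContMDiffRiemannianBundle 𝓘(ℝ, E) ∞ E (fun (x : N) ↦ TangentSpace 𝓘(ℝ, E) x)]
  [IsRiemannianManifold 𝓘(ℝ, E) N]
  {Γ : Type v} [Group Γ] [MulAction Γ V] [MulAction Γ N] {lam : Γ → ℝ}

lemma IsLCPAction.smooth (h : IsLCPAction V E N Γ lam) (g : Γ) :
    ContMDiff 𝓘(ℝ, E) 𝓘(ℝ, E) ∞ (fun y : N => g • y) := (h.similarity g).1

lemma IsLCPAction.norm_mfderiv (h : IsLCPAction V E N Γ lam) (g : Γ) (y : N)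
    (v : TangentSpace 𝓘(ℝ, E) y) :
    ‖mfderiv 𝓘(ℝ, E) 𝓘(ℝ, E) (fun y : N => g • y) y v‖ = lam g * ‖v‖ := (h.similarity g).2 y v

lemma IsLCPAction.mul (h : IsLCPAction V E N Γ lam) (hq : Nontrivial V) (g g' : Γ) :
    lam (g * g') = lam g * lam g' := by
  obtain ⟨e, e', he⟩ := exists_pair_ne V
  have hd : dist e e' ≠ 0 := dist_ne_zero.2 he
  have h1 := h.similarity_flat (g * g') e e'
  rw [mul_smul, mul_smul, h.similarity_flat, h.similarity_flat, ← mul_assoc] at h1
  exact (mul_right_cancel₀ hd h1).symm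

lemma IsLCPAction.one (h : IsLCPAction V E N Γ lam) (hq : Nontrivial V) : lam 1 = 1 := by
  have h1 := h.mul hq 1 1
  rw [mul_one] at h1
  have := h.ratio_pos 1
  nlinarith

/-- the ratio as a homomorphism -/
def IsLCPAction.c (h : IsLCPAction V E N Γ lam) (hq : Nontrivial V) : Γ →* ℝ where
  toFun := lam
  map_one' := h.one hq
  map_mul' := h.mul hq

lemma IsLCPAction.dist_eq (h : IsLCPAction V E N Γ lam) (hq : Nontrivial V) (g : Γ) (x y : N) :
    dist (g • x) (g • y) = lam g * dist x y := by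
  have h1 := h.ratio_pos g
  have h2 := h.ratio_pos g⁻¹
  have h3 : lam g * lam g⁻¹ = 1 := by rw [← h.mul hq, mul_inv_cancel, h.one hq]
  apply le_antisymm
  · exact dist_map_le (E := E) (h.smooth g) h1 (h.norm_mfderiv g) x y
  · have h4 := dist_map_le (E := E) (h.smooth g⁻¹) h2 (h.norm_mfderiv g⁻¹) (g • x) (g • y)
    rw [inv_smul_smul, inv_smul_smul] at h4
    calc lam g * dist x y ≤ lam g * (lam g⁻¹ * dist (g • x) (g • y)) := by gcongr
      _ = dist (g • x) (g • y) := by rw [← mul_assoc, h3, one_mul]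

lemma IsLCPAction.sim (h : IsLCPAction V E N Γ lam) (hq : Nontrivial V) :
    Sim V N (h.c hq) where
  pos := h.ratio_pos
  hE := h.similarity_flat
  hN := h.dist_eq hq
  free := h.free
  pd := h.properly_discontinuous

lemma IsLCPAction.riso (h : IsLCPAction V E N Γ lam) (hq : Nontrivial V) {g : Γ} (hg : lam g = 1) :
    RIso E (fun y : N => g • y) where
  smooth := h.smooth g
  norm := by
    intro y u
    rw [gN_self, gN_self]
    have := h.norm_mfderiv g y u
    rw [hg, one_mul] at this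
    exact congrArg (fun r : ℝ => r ^ 2) this
  dist := by
    intro y z
    rw [h.dist_eq hq, hg, one_mul]

lemma IsLCPAction.dN_pow (h : IsLCPAction V E N Γ lam) {g : Γ} {x : N} (hx : g • x = x) (n : ℕ)
    (u : E) : dN (E := E) (fun y : N => g ^ (n + 1) • y) x u =
      dN (E := E) (fun y : N => g • y) x (dN (E := E) (fun y : N => g ^ n • y) x u) := by
  have hxn : g ^ n • x = x := by
    induction n with
    | zero => simp
    | succ n ih => rw [pow_succ, mul_smul, hx, ih]
  have h1 : (fun y : N => g ^ (n + 1) • y) = (fun y : N => g • y) ∘ (fun y : N => g ^ n • y) := by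
    funext y
    rw [pow_succ', mul_smul]; rfl
  have h2 : MDifferentiableAt 𝓘(ℝ, E) 𝓘(ℝ, E) (fun y : N => g • y) (g ^ n • x) :=
    (h.smooth g _).mdifferentiableAt (by simp)
  have h3 : MDifferentiableAt 𝓘(ℝ, E) 𝓘(ℝ, E) (fun y : N => g ^ n • y) x :=
    (h.smooth (g ^ n) _).mdifferentiableAt (by simp)
  have h4 := mfderiv_comp x h2 h3
  rw [← h1] at h4
  have h5 := congrArg (fun L : E →L[ℝ] E => L u) h4
  have h6 : dN (E := E) (fun y : N => g ^ (n + 1) • y) x u =
      dN (E := E) (fun y : N => g • y) (g ^ n • x)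
        (dN (E := E) (fun y : N => g ^ n • y) x u) := h5
  rw [h6, hxn]

/-- **The derivative at a fixed point controls an isometry.** -/
theorem IsLCPAction.lin [ConnectedSpace N] (h : IsLCPAction V E N Γ lam) (hq : Nontrivial V)
    (g : Γ) (x : N) (hg : lam g = 1) (hx : g • x = x) : ∃ (d : ℕ) (z : UnitAddTorus (Fin d)),
      ∀ (y : N) (ε : ℝ), 0 < ε → ∃ δ : ℝ, 0 < δ ∧ ∀ n : ℕ, ‖n • z‖ < δ →
        dist (g ^ n • y) y < ε := by
  have hgn : ∀ n : ℕ, lam (g ^ n) = 1 := by
    intro n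
    have : h.c hq (g ^ n) = (h.c hq g) ^ n := map_pow _ _ _
    have h2 : h.c hq g = 1 := hg
    rw [h2, one_pow] at this
    exact this
  have hxn : ∀ n : ℕ, g ^ n • x = x := by
    intro n
    induction n with
    | zero => simp
    | succ n ih => rw [pow_succ, mul_smul, hx, ih]
  -- the tangent space
  let W := TangentSpace 𝓘(ℝ, E) x
  have : FiniteDimensional ℝ W := inferInstanceAs (FiniteDimensional ℝ E)
  let A0 : W →ₗ[ℝ] W := (dN (E := E) (fun y : N => g • y) x : E →ₗ[ℝ] E)
  have hA0 : ∀ v : W, ‖A0 v‖ = ‖v‖ := by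
    intro v
    have h1 : gN (E := E) (g • x) (dN (E := E) (fun y : N => g • y) x v)
      (dN (E := E) (fun y : N => g • y) x v) = gN (E := E) x v v :=
      (h.riso hq hg).norm x v
    rw [hx, gN_self, gN_self] at h1
    have h2 : ‖A0 v‖ ^ 2 = ‖v‖ ^ 2 := h1
    exact (pow_left_inj₀ (norm_nonneg _) (norm_nonneg _) two_ne_zero).1 h2
  let A1 : W →ₗᵢ[ℝ] W := ⟨A0, hA0⟩
  let A : W ≃ₗᵢ[ℝ] W := A1.toLinearIsometryEquiv rfl
  have hA : ∀ v : W, A v = dN (E := E) (fun y : N => g • y) x v := fun v => rfl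
  have hApow : ∀ (n : ℕ) (v : W), (A ^ n) v = dN (E := E) (fun y : N => g ^ n • y) x v := by
    intro n
    induction n with
    | zero =>
      intro v
      have h1 : (fun y : N => g ^ 0 • y) = id := by funext y; simp
      rw [h1]
      have h2 : dN (E := E) (id : N → N) x = ContinuousLinearMap.id ℝ E := mfderiv_id
      rw [h2]; rfl
    | succ n ih =>
      intro v
      rw [h.dN_pow hx, ← ih, ← hA, pow_succ']; rfl
  obtain ⟨d, z, hz⟩ := exists_torus A
  refine ⟨d, z, ?_⟩
  intro y ε hε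
  have key : ∀ w : N, Tendsto (fun n : ℕ => g ^ n • w) (comap (fun n : ℕ => n • z) (𝓝 0)) (𝓝 w) := by
    refine fun w => rigid (E := E) (fun n => h.riso hq (hgn n)) hxn ?_ w
    intro u'
    let u : W := u'
    have hV : Tendsto (fun n : ℕ => (A ^ n) u) (comap (fun n : ℕ => n • z) (𝓝 0))
        (𝓝 u) := by
      rw [Metric.tendsto_nhds]
      intro η hη
      obtain ⟨δ, hδ, hδn⟩ := hz (η / (2 * (‖u‖ + 1))) (by positivity)
      rw [(Metric.nhds_basis_ball.comap _).eventually_iff]
      refine ⟨δ, hδ, fun n hn => ?_⟩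
      have hn' : ‖n • z‖ < δ := by
        have : n • z ∈ ball (0 : UnitAddTorus (Fin d)) δ := hn
        rwa [mem_ball, dist_zero_right] at this
      rw [dist_eq_norm]
      calc ‖(A ^ n) u - u‖ ≤ η / (2 * (‖u‖ + 1)) * ‖u‖ := hδn n hn' u
        _ ≤ η / (2 * (‖u‖ + 1)) * (‖u‖ + 1) := by gcongr; linarith
        _ = η / 2 := by
            have h9 : ‖u‖ + 1 ≠ 0 := (add_pos_of_nonneg_of_pos (norm_nonneg u) one_pos).ne'
            generalize ‖u‖ + 1 = κ at h9
            field_simp
        _ < η := by linarith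
    have h2 : (fun n : ℕ => (A ^ n) u) =
        fun n : ℕ => (dN (E := E) (fun y : N => g ^ n • y) x u : W) := by
      funext n; exact hApow n u
    rw [h2] at hV
    exact hV
  have h1 := Metric.tendsto_nhds.1 (key y) ε hε
  rw [(Metric.nhds_basis_ball.comap _).eventually_iff] at h1
  obtain ⟨δ, hδ, hδn⟩ := h1
  refine ⟨δ, hδ, fun n hn => hδn ?_⟩
  show n • z ∈ ball (0 : UnitAddTorus (Fin d)) δ
  rwa [mem_ball, dist_zero_right]

/-- **The fundamental group of an LCP manifold acts freely on the non-flat factor.** -/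
theorem IsLCPAction.free_on_factor [ConnectedSpace N] (h : IsLCPAction V E N Γ lam) (hq : Nontrivial V)
    (γ : Γ) (x : N) (hx : γ • x = x) : γ = 1 := by
  have : LocallyCompactSpace N := ChartedSpace.locallyCompactSpace E N
  exact (h.sim hq).free_action h.not_isometric (h.lin hq) hx

end Pool.Agent.K4H32.LCPS
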