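import Mathlib

set_option autoImplicit false
set_option linter.unusedSectionVars false

/-!
# The group of isometries with the topology of pointwise convergence
-/

namespace Pool.Agent.K4H32.LCP

open Set Filter Topology Metric

variable {N : Type*} [MetricSpace N]

/-- the topology of pointwise convergence -/
instance isoTop : TopologicalSpace (N ≃ᵢ N) :=
  TopologicalSpace.induced (fun f => (f : N → N)) Pi.topologicalSpace

lemma tendsto_iso {ι : Type*} {l : Filter ι} {f : ι → N ≃ᵢ N} {g : N ≃ᵢ N} :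
    Tendsto f l (𝓝 g) ↔ ∀ y, Tendsto (fun i => f i y) l (𝓝 (g y)) := by
  rw [nhds_induced, tendsto_comap_iff, tendsto_pi_nhds]
  rfl

lemma continuous_eval (y : N) : Continuous fun f : N ≃ᵢ N => f y :=
  (continuous_apply y).comp continuous_induced_dom

lemma iso_coe_inj : Function.Injective fun f : N ≃ᵢ N => (f : N → N) := fun f g h => by
  ext y; exact congrFun h y

instance : T2Space (N ≃ᵢ N) :=
  T2Space.of_injective_continuous iso_coe_inj continuous_induced_dom

instance : IsTopologicalGroup (N ≃ᵢ N) where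
  continuous_mul := by
    rw [continuous_iff_continuousAt]
    rintro ⟨f0, g0⟩
    refine tendsto_iso.2 fun y => ?_
    have h1 : Tendsto (fun p : (N ≃ᵢ N) × (N ≃ᵢ N) => p.2 y) (𝓝 (f0, g0)) (𝓝 (g0 y)) :=
      ((continuous_eval y).comp continuous_snd).tendsto (f0, g0)
    have h2 : Tendsto (fun p : (N ≃ᵢ N) × (N ≃ᵢ N) => p.1 (g0 y)) (𝓝 (f0, g0)) (𝓝 (f0 (g0 y))) :=
      ((continuous_eval (g0 y)).comp continuous_fst).tendsto (f0, g0)
    rw [tendsto_iff_dist_tendsto_zero] at h1 h2 ⊢
    have h3 := h1.add h2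
    rw [add_zero] at h3
    refine squeeze_zero (fun _ => dist_nonneg) (fun p => ?_) h3
    calc dist ((p.1 * p.2) y) ((f0 * g0) y) ≤ dist (p.1 (p.2 y)) (p.1 (g0 y)) +
          dist (p.1 (g0 y)) (f0 (g0 y)) := dist_triangle _ _ _
      _ = _ := by rw [p.1.isometry.dist_eq]
  continuous_inv := by
    rw [continuous_iff_continuousAt]
    intro f0
    refine tendsto_iso.2 fun y => ?_
    have h1 : Tendsto (fun f : N ≃ᵢ N => f (f0⁻¹ y)) (𝓝 f0) (𝓝 (f0 (f0⁻¹ y))) :=
      (continuous_eval _).tendsto f0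
    rw [tendsto_iff_dist_tendsto_zero] at h1 ⊢
    refine h1.congr fun f => ?_
    have e1 : f0 (f0⁻¹ y) = y := f0.apply_symm_apply y
    have e2 : f (f⁻¹ y) = y := f.apply_symm_apply y
    have e3 := f.isometry.dist_eq (f0⁻¹ y) (f⁻¹ y)
    rw [e2] at e3
    rw [e1, e3, dist_comm]

/-- the stabiliser of a point -/
def stab (x : N) : Subgroup (N ≃ᵢ N) where
  carrier := {f | f x = x}
  one_mem' := rfl
  mul_mem' := by
    intro f g hf hg
    have hf' : f x = x := hf
    have hg' : g x = x := hg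
    show f (g x) = x
    rw [hg', hf']
  inv_mem' := by
    intro f hf
    have hf' : f x = x := hf
    show f.symm x = x
    rw [f.symm_apply_eq]
    exact hf'.symm

/-- an isometry with a fixed point has relatively compact orbits -/
theorem exists_compact_orbit [ConnectedSpace N] [LocallyCompactSpace N] (a : N ≃ᵢ N) {x : N}
    (hx : a x = x) (y : N) : ∃ K : Set N, IsCompact K ∧ ∀ n : ℤ, (a ^ n) y ∈ K := by
  set R : Set N := {y | ∃ K : Set N, IsCompact K ∧ ∀ n : ℤ, (a ^ n) y ∈ K} with hR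
  have hopen : IsOpen R := by
    rw [Metric.isOpen_iff]
    rintro y ⟨K, hK, hKy⟩
    obtain ⟨δ, hδ, hδK⟩ := hK.exists_isCompact_cthickening
    refine ⟨δ, hδ, fun z hz => ⟨_, hδK, fun n => ?_⟩⟩
    refine mem_cthickening_of_dist_le _ ((a ^ n) y) _ _ (hKy n) ?_
    rw [(a ^ n).isometry.dist_eq]
    exact (mem_ball.1 hz).le
  have hclosed : IsClosed R := by
    rw [← closure_subset_iff_isClosed]
    intro y hy
    obtain ⟨ρ, hρ, hρc⟩ : ∃ ρ > 0, IsCompact (closedBall y ρ) := by
      obtain ⟨K, hK, hKy⟩ := exists_compact_mem_nhds y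
      obtain ⟨ρ, hρ, hs⟩ := Metric.nhds_basis_closedBall.mem_iff.1 hKy
      exact ⟨ρ, hρ, hK.of_isClosed_subset isClosed_closedBall hs⟩
    set e := ρ / 3 with he
    have he0 : 0 < e := by positivity
    obtain ⟨z, ⟨K, hK, hKz⟩, hyz⟩ := Metric.mem_closure_iff.1 hy e he0
    have hc2 : IsCompact (closedBall z (2 * e)) := by
      refine hρc.of_isClosed_subset isClosed_closedBall fun w hw => ?_
      rw [mem_closedBall] at hw ⊢
      have := dist_triangle w z y
      rw [dist_comm z y] at this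
      linarith
    have htb : TotallyBounded (range fun n : ℤ => (a ^ n) z) :=
      hK.totallyBounded.subset (range_subset_iff.2 hKz)
    obtain ⟨t, hts, htf, htc⟩ := Metric.finite_approx_of_totallyBounded htb e he0
    choose! ν hν using fun w (hw : w ∈ t) => hts hw
    refine ⟨⋃ w ∈ t, (a ^ (ν w)) '' closedBall z (2 * e), ?_, fun n => ?_⟩
    · exact htf.isCompact_biUnion fun w _ => hc2.image (a ^ (ν w)).continuous
    · have h1 := htc (mem_range_self n)
      simp only [mem_iUnion, exists_prop] at h1 ⊢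
      obtain ⟨w, hw, hnw⟩ := h1
      refine ⟨w, hw, (a ^ (ν w))⁻¹ ((a ^ n) y), ?_, (a ^ (ν w)).apply_symm_apply _⟩
      rw [mem_closedBall]
      have h2 := (a ^ (ν w)).isometry.dist_eq ((a ^ (ν w))⁻¹ ((a ^ n) y)) z
      have h3 : (a ^ (ν w)) ((a ^ (ν w))⁻¹ ((a ^ n) y)) = (a ^ n) y :=
        (a ^ (ν w)).apply_symm_apply _
      rw [h3] at h2
      rw [← h2]
      have h4 : (a ^ ν w) z = w := hν w hw
      rw [h4]
      have h5 := dist_triangle ((a ^ n) y) ((a ^ n) z) w
      rw [(a ^ n).isometry.dist_eq] at h5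
      have h6 := mem_ball.1 hnw
      linarith
  have hne : R.Nonempty := by
    refine ⟨x, {x}, isCompact_singleton, fun n => ?_⟩
    have hmem : a ∈ stab x := hx
    rw [mem_singleton_iff]
    exact (stab x).zpow_mem hmem n
  have : R = univ := IsClopen.eq_univ ⟨hclosed, hopen⟩ hne
  have hy : y ∈ R := by rw [this]; trivial
  exact hy

/-- the closure of the group generated by an isometry with a fixed point is compact -/
theorem isCompact_closure_zpowers [ConnectedSpace N] [LocallyCompactSpace N] (a : N ≃ᵢ N) {x : N}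
    (hx : a x = x) : IsCompact (closure (Subgroup.zpowers a : Set (N ≃ᵢ N))) := by
  choose K hK hKa using exists_compact_orbit a hx
  set T : Set (N ≃ᵢ N) := {f | ∀ y, f y ∈ K y ∧ f⁻¹ y ∈ K y} with hT
  have hTc : IsCompact T := by
    rw [isCompact_iff_ultrafilter_le_nhds]
    intro F hF
    have hFT : T ∈ F := by simpa using hF
    have h1 : ∀ y, ∃ w, Tendsto (fun f : N ≃ᵢ N => f y) F (𝓝 w) ∧ w ∈ K y := by
      intro y
      have := (hK y).ultrafilter_le_nhds (F.map fun f => f y) (by
        rw [le_principal_iff]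
        exact show (fun f : N ≃ᵢ N => f y) ⁻¹' K y ∈ F from
          Filter.mem_of_superset hFT fun f hf => (hf y).1)
      obtain ⟨w, hw, hw'⟩ := this
      exact ⟨w, hw', hw⟩
    have h2 : ∀ y, ∃ w, Tendsto (fun f : N ≃ᵢ N => f⁻¹ y) F (𝓝 w) ∧ w ∈ K y := by
      intro y
      have := (hK y).ultrafilter_le_nhds (F.map fun f => f⁻¹ y) (by
        rw [le_principal_iff]
        exact show (fun f : N ≃ᵢ N => f⁻¹ y) ⁻¹' K y ∈ F from
          Filter.mem_of_superset hFT fun f hf => (hf y).2)
      obtain ⟨w, hw, hw'⟩ := this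
      exact ⟨w, hw', hw⟩
    choose φ hφ hφK using h1
    choose ψ hψ hψK using h2
    have hφi : Isometry φ := by
      refine Isometry.of_dist_eq fun y z => ?_
      have h3 := (hφ y).dist (hφ z)
      have h4 : Tendsto (fun f : N ≃ᵢ N => dist (f y) (f z)) F (𝓝 (dist y z)) :=
        tendsto_const_nhds.congr fun f => (f.isometry.dist_eq y z).symm
      exact tendsto_nhds_unique h3 h4
    have hr : ∀ y, φ (ψ y) = y := by
      intro y
      have h3 := hφ (ψ y)
      have h4 : Tendsto (fun f : N ≃ᵢ N => f (ψ y)) F (𝓝 y) := by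
        rw [tendsto_iff_dist_tendsto_zero]
        have h5 := (hψ y)
        rw [tendsto_iff_dist_tendsto_zero] at h5
        refine h5.congr fun f => ?_
        have := f.isometry.dist_eq (f⁻¹ y) (ψ y)
        rw [show f (f⁻¹ y) = y from f.apply_symm_apply y] at this
        rw [← this, dist_comm]
      exact tendsto_nhds_unique h3 h4
    have hl : ∀ y, ψ (φ y) = y := fun y => hφi.injective (hr (φ y))
    let g : N ≃ᵢ N := ⟨⟨φ, ψ, hl, hr⟩, hφi⟩
    exact ⟨g, fun y => ⟨hφK y, hψK y⟩, tendsto_iso.2 hφ⟩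
  refine hTc.of_isClosed_subset isClosed_closure ?_
  rw [hTc.isClosed.closure_subset_iff]
  rintro _ ⟨n, rfl⟩ y
  refine ⟨hKa y n, ?_⟩
  have : ((a ^ n : N ≃ᵢ N))⁻¹ = a ^ (-n) := (zpow_neg a n).symm
  change ((a ^ n : N ≃ᵢ N))⁻¹ y ∈ K y
  rw [this]
  exact hKa y (-n)

end Pool.Agent.K4H32.LCP
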