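import Pool.Agent.K4H32.LCP.Nilp
import Pool.Agent.K4H32.LCP.IsoGrp

set_option autoImplicit false
set_option linter.unusedSectionVars false

/-!
# Discrete groups of similarities of `E × N`
-/

namespace Pool.Agent.K4H32.LCP

open Set Filter Topology Metric

variable {E : Type*} [NormedAddCommGroup E] [InnerProductSpace ℝ E] [FiniteDimensional ℝ E]
variable {N : Type*} [MetricSpace N]
variable {Γ : Type*} [Group Γ] [MulAction Γ E] [MulAction Γ N]

variable (E N) in
/-- a group acting on `E` and `N` by similarities, freely and properly discontinuously on the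
product -/
structure Sim (c : Γ →* ℝ) : Prop where
  pos : ∀ g : Γ, 0 < c g
  hE : ∀ (g : Γ) (u v : E), dist (g • u) (g • v) = c g * dist u v
  hN : ∀ (g : Γ) (x y : N), dist (g • x) (g • y) = c g * dist x y
  free : ∀ (g : Γ) (u : E) (x : N), g • u = u → g • x = x → g = 1
  pd : ∀ K : Set (E × N), IsCompact K → {g : Γ | ∃ p ∈ K, (g • p.1, g • p.2) ∈ K}.Finite

variable {c : Γ →* ℝ} (h : Sim E N c)

include h

lemma Sim.exists_lin (g : Γ) : ∃ R : E ≃ₗᵢ[ℝ] E, ∀ p v : E, g • (p + v) = g • p + c g • R v := by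
  have hc := h.pos g
  let e : E ≃ᵢ E :=
    { toFun := fun u => (c g)⁻¹ • (g • u)
      invFun := fun u => g⁻¹ • (c g • u)
      left_inv := fun u => by
        simp only
        rw [smul_inv_smul₀ hc.ne', inv_smul_smul]
      right_inv := fun u => by
        simp only
        rw [smul_inv_smul, inv_smul_smul₀ hc.ne']
      isometry_toFun := Isometry.of_dist_eq fun u v => by
        rw [dist_smul₀, h.hE, Real.norm_of_nonneg (by positivity)]
        field_simp }
  have he : ∀ u, e u = (c g)⁻¹ • (g • u) := fun u => rfl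
  refine ⟨e.toRealAffineIsometryEquiv.linearIsometryEquiv, fun p v => ?_⟩
  have h1 := e.toRealAffineIsometryEquiv.map_vadd p v
  have he' : ∀ u, e.toRealAffineIsometryEquiv u = (c g)⁻¹ • (g • u) := fun u => by
    rw [← he u]
    exact congrFun e.coeFn_toRealAffineIsometryEquiv u
  simp only [vadd_eq_add] at h1
  rw [he', he'] at h1
  have h2 := congrArg (fun w => c g • w) h1
  simp only [smul_add, smul_inv_smul₀ hc.ne'] at h2
  rw [add_comm p v, h2, add_comm]

/-- the linear part -/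
noncomputable def Sim.R (g : Γ) : E ≃ₗᵢ[ℝ] E := (h.exists_lin g).choose

lemma Sim.smul_add' (g : Γ) (p v : E) : g • (p + v) = g • p + c g • h.R g v :=
  (h.exists_lin g).choose_spec p v

lemma Sim.R_mul (g g' : Γ) (v : E) : h.R (g * g') v = h.R g (h.R g' v) := by
  have h1 := h.smul_add' (g * g') 0 v
  rw [mul_smul, mul_smul, h.smul_add' g', h.smul_add' g, map_mul, add_right_inj, map_smul,
    smul_smul] at h1
  have hc : c g * c g' ≠ 0 := (mul_pos (h.pos g) (h.pos g')).ne'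
  exact (smul_right_injective E hc h1).symm

lemma Sim.R_one (v : E) : h.R 1 v = v := by
  have h1 := h.smul_add' 1 0 v
  simp only [one_smul, map_one, zero_add] at h1
  exact h1.symm

lemma Sim.R_pow (g : Γ) (n : ℕ) (v : E) : h.R (g ^ n) v = ((h.R g) ^ n) v := by
  induction n generalizing v with
  | zero => rw [pow_zero, h.R_one]; rfl
  | succ n ih => rw [pow_succ, h.R_mul, ih, pow_succ]; rfl

/-- the linear part is `κ`-close to the identity -/
def Sim.Near (κ : ℝ) (g : Γ) : Prop := ∀ v : E, ‖h.R g v - v‖ ≤ κ * ‖v‖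

lemma Sim.near_inv {κ : ℝ} {g : Γ} (hg : h.Near κ g) : h.Near κ g⁻¹ := by
  intro v
  have h1 := hg (h.R g⁻¹ v)
  rw [← h.R_mul, mul_inv_cancel, h.R_one, (h.R g⁻¹).norm_map, norm_sub_rev] at h1
  exact h1

lemma Sim.near_conj {κ : ℝ} {g : Γ} (hg : h.Near κ g) (δ : Γ) : h.Near κ (δ * g * δ⁻¹) := by
  intro v
  have h1 := hg (h.R δ⁻¹ v)
  rw [(h.R δ⁻¹).norm_map] at h1
  have h2 : h.R (δ * g * δ⁻¹) v - v = h.R δ (h.R g (h.R δ⁻¹ v) - h.R δ⁻¹ v) := by
    rw [map_sub, ← h.R_mul δ δ⁻¹, mul_inv_cancel, h.R_one, h.R_mul, h.R_mul]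
  rw [h2, (h.R δ).norm_map]
  exact h1

lemma Sim.near_comm {κ μ : ℝ} {s w : Γ} (hs : h.Near κ s) (hw : h.Near μ w) (hκ : 0 ≤ κ)
    (hμ : 0 ≤ μ) : h.Near (2 * κ * μ) (s * w * s⁻¹ * w⁻¹) := by
  intro v
  set u := h.R (s⁻¹ * w⁻¹) v with hu
  have hun : ‖u‖ = ‖v‖ := (h.R _).norm_map v
  have h1 : h.R (s * w * s⁻¹ * w⁻¹) v = h.R s (h.R w u) := by
    rw [hu, ← h.R_mul, ← h.R_mul]
    congr 2
    group
  have h2 : v = h.R w (h.R s u) := by
    rw [hu, ← h.R_mul, ← h.R_mul]
    have : w * s * (s⁻¹ * w⁻¹) = 1 := by group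
    rw [this, h.R_one]
  have h3 : h.R (s * w * s⁻¹ * w⁻¹) v - v =
      (h.R s (h.R w u - u) - (h.R w u - u)) - (h.R w (h.R s u - u) - (h.R s u - u)) := by
    rw [h1]
    conv_lhs => rw [h2]
    rw [map_sub, map_sub]
    abel
  rw [h3]
  refine (norm_sub_le _ _).trans ?_
  have h4 := hs (h.R w u - u)
  have h5 := hw (h.R s u - u)
  have h6 := hs u
  have h7 := hw u
  rw [hun] at h6 h7
  calc ‖h.R s (h.R w u - u) - (h.R w u - u)‖ + ‖h.R w (h.R s u - u) - (h.R s u - u)‖ ≤
        κ * ‖h.R w u - u‖ + μ * ‖h.R s u - u‖ := add_le_add h4 h5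
    _ ≤ κ * (μ * ‖v‖) + μ * (κ * ‖v‖) := by gcongr
    _ = 2 * κ * μ * ‖v‖ := by ring

/-- the displacement of `p0` under a commutator -/
lemma Sim.disp_comm {κ μ : ℝ} {s w : Γ} (hs1 : c s = 1) (hw1 : c w = 1) (hs : h.Near κ s)
    (hw : h.Near μ w) (hκ : 0 ≤ κ) (hμ : 0 ≤ μ) (p0 : E) :
    ‖(s * w * s⁻¹ * w⁻¹) • p0 - p0‖ ≤ (κ + 2 * κ * μ) * ‖w • p0 - p0‖ +
      (μ + 2 * κ * μ) * ‖s • p0 - p0‖ := by
  set σ := s • p0 - p0 with hσ
  set t := w • p0 - p0 with ht
  have hc : c (s * w * s⁻¹ * w⁻¹) = 1 := by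
    have e : c (s * w * s⁻¹ * w⁻¹) = c s * c w * c s⁻¹ * c w⁻¹ := by simp
    have e1 : c s * c s⁻¹ = 1 := by rw [← map_mul, mul_inv_cancel, map_one]
    have e2 : c w * c w⁻¹ = 1 := by rw [← map_mul, mul_inv_cancel, map_one]
    rw [e, hs1, hw1] at *
    rw [one_mul] at e1 e2
    rw [e1, e2]; ring
  set g := s * w * s⁻¹ * w⁻¹ with hg
  have h1 : g • (w • s • p0) = s • w • p0 := by
    rw [hg, smul_smul, smul_smul, smul_smul]
    congr 1
    group
  have h2 : w • s • p0 = p0 + (t + h.R w σ) := by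
    have : s • p0 = p0 + σ := by rw [hσ]; abel
    rw [this, h.smul_add', hw1, one_smul, ht]; abel
  have h3 : s • w • p0 = p0 + (σ + h.R s t) := by
    have : w • p0 = p0 + t := by rw [ht]; abel
    rw [this, h.smul_add', hs1, one_smul, hσ]; abel
  rw [h2, h3, h.smul_add', hc, one_smul, map_add] at h1
  have h4 : g • p0 - p0 = (h.R s t - t) - (h.R g t - t) +
      (-(h.R w σ - σ) - (h.R g (h.R w σ) - h.R w σ)) := by
    have : g • p0 = p0 + (σ + h.R s t) - (h.R g t + h.R g (h.R w σ)) := by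
      rw [← h1]; abel
    rw [this]; abel
  have hgn := h.near_comm hs hw hκ hμ
  rw [← hg] at hgn
  have a1 := hs t
  have a2 := hgn t
  have a3 := hw σ
  have a4 := hgn (h.R w σ)
  rw [(h.R w).norm_map] at a4
  rw [h4]
  refine (norm_add_le _ _).trans ?_
  have b1 := norm_sub_le (h.R s t - t) (h.R g t - t)
  have b2 := norm_sub_le (-(h.R w σ - σ)) (h.R g (h.R w σ) - h.R w σ)
  rw [norm_neg] at b2
  nlinarith

/-- the isometry of `N` given by an element of ratio `1` -/
def Sim.isoN (g : c.ker) : N ≃ᵢ N where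
  toFun y := g.1 • y
  invFun y := g.1⁻¹ • y
  left_inv y := inv_smul_smul _ _
  right_inv y := smul_inv_smul _ _
  isometry_toFun := Isometry.of_dist_eq fun y z => by
    have : c g.1 = 1 := g.2
    rw [h.hN, this, one_mul]

/-- the projection to the isometries of `N` -/
def Sim.π : c.ker →* (N ≃ᵢ N) where
  toFun := h.isoN
  map_one' := by
    ext y
    exact one_smul _ _
  map_mul' := by
    intro g g'
    ext y
    exact mul_smul _ _ _

lemma Sim.π_apply (g : c.ker) (y : N) : h.π g y = g.1 • y := rfl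

/-- conjugation by a similarity -/
def Sim.cj (δ : Γ) : (N ≃ᵢ N) →* (N ≃ᵢ N) where
  toFun f :=
    { toFun := fun y => δ • f (δ⁻¹ • y)
      invFun := fun y => δ • f.symm (δ⁻¹ • y)
      left_inv := fun y => by
        simp only
        rw [inv_smul_smul, f.symm_apply_apply, smul_inv_smul]
      right_inv := fun y => by
        simp only
        rw [inv_smul_smul, f.apply_symm_apply, smul_inv_smul]
      isometry_toFun := Isometry.of_dist_eq fun y z => by
        rw [h.hN, f.isometry.dist_eq, h.hN, ← mul_assoc, ← map_mul, mul_inv_cancel, map_one,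
          one_mul] }
  map_one' := by
    ext y
    exact smul_inv_smul _ _
  map_mul' := by
    intro f f'
    ext y
    show δ • f (f' (δ⁻¹ • y)) = δ • f (δ⁻¹ • (δ • f' (δ⁻¹ • y)))
    rw [inv_smul_smul]

lemma Sim.cj_apply (δ : Γ) (f : N ≃ᵢ N) (y : N) : h.cj δ f y = δ • f (δ⁻¹ • y) := rfl

lemma Sim.continuous_smul (g : Γ) : Continuous fun y : N => g • y := by
  have : LipschitzWith (Real.toNNReal (c g)) fun y : N => g • y := by
    refine LipschitzWith.of_dist_le_mul fun y z => ?_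
    rw [h.hN, Real.coe_toNNReal _ (h.pos g).le]
  exact this.continuous

lemma Sim.continuous_cj (δ : Γ) : Continuous (h.cj δ) := by
  rw [continuous_iff_continuousAt]
  intro f
  refine tendsto_iso.2 fun y => ?_
  exact ((h.continuous_smul δ).tendsto _).comp ((continuous_eval (δ⁻¹ • y)).tendsto f)

/-- discreteness -/
lemma Sim.disc [LocallyCompactSpace N] (p0 : E) (x : N) :
    ∃ r0 : ℝ, 0 < r0 ∧ ∀ g : Γ, ‖g • p0 - p0‖ < r0 → dist (g • x) x < r0 → g = 1 := by
  obtain ⟨ρ, hρ, hρc⟩ : ∃ ρ > 0, IsCompact (closedBall x ρ) := by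
    obtain ⟨K, hK, hKy⟩ := exists_compact_mem_nhds x
    obtain ⟨ρ, hρ, hs⟩ := Metric.nhds_basis_closedBall.mem_iff.1 hKy
    exact ⟨ρ, hρ, hK.of_isClosed_subset isClosed_closedBall hs⟩
  have hfin := h.pd (closedBall p0 1 ×ˢ closedBall x ρ) ((isCompact_closedBall p0 1).prod hρc)
  set F := {g : Γ | ∃ p ∈ closedBall p0 1 ×ˢ closedBall x ρ,
    (g • p.1, g • p.2) ∈ closedBall p0 1 ×ˢ closedBall x ρ} with hF
  -- the minimal displacement
  obtain ⟨r1, hr1, hr1F⟩ : ∃ r1 : ℝ, 0 < r1 ∧ ∀ g ∈ F, g ≠ 1 →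
      r1 ≤ max ‖g • p0 - p0‖ (dist (g • x) x) := by
    have hpos : ∀ g ∈ F \ {1}, 0 < max ‖g • p0 - p0‖ (dist (g • x) x) := by
      rintro g ⟨_, hg1⟩
      by_contra hcon
      push Not at hcon
      have h1 : ‖g • p0 - p0‖ ≤ 0 := (le_max_left _ _).trans hcon
      have h2 : dist (g • x) x ≤ 0 := (le_max_right _ _).trans hcon
      refine hg1 (h.free g p0 x ?_ (dist_le_zero.1 h2))
      exact sub_eq_zero.1 (norm_le_zero_iff.1 h1)
    have hfin' : (F \ {1}).Finite := hfin.subset sdiff_subset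
    rcases (F \ {1}).eq_empty_or_nonempty with he | hne
    · refine ⟨1, one_pos, fun g hg hg1 => ?_⟩
      have : g ∈ F \ {1} := ⟨hg, hg1⟩
      rw [he] at this
      exact absurd this (notMem_empty g)
    · obtain ⟨g0, hg0, hmin⟩ := hfin'.exists_minimalFor
        (fun g => max ‖g • p0 - p0‖ (dist (g • x) x)) _ hne
      refine ⟨_, hpos g0 hg0, fun g hg hg1 => ?_⟩
      rcases le_total (max ‖g0 • p0 - p0‖ (dist (g0 • x) x))
        (max ‖g • p0 - p0‖ (dist (g • x) x)) with h1 | h1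
      · exact h1
      · exact hmin ⟨hg, hg1⟩ h1
  refine ⟨min r1 (min 1 ρ), by positivity, fun g hg1 hg2 => ?_⟩
  by_contra hne
  have hgF : g ∈ F := by
    refine ⟨(p0, x), ⟨mem_closedBall_self zero_le_one, mem_closedBall_self hρ.le⟩, ?_, ?_⟩
    · rw [mem_closedBall, dist_eq_norm]
      exact hg1.le.trans ((min_le_right _ _).trans (min_le_left _ _))
    · rw [mem_closedBall]
      exact hg2.le.trans ((min_le_right _ _).trans (min_le_right _ _))
  have := hr1F g hgF hne
  have h3 : max ‖g • p0 - p0‖ (dist (g • x) x) < r1 :=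
    max_lt (hg1.trans_le (min_le_left _ _)) (hg2.trans_le (min_le_left _ _))
  linarith

/-- an element of ratio `≠ 1` has a fixed point in `E` -/
lemma Sim.exists_fix {g : Γ} (hg : c g ≠ 1) : ∃ p : E, g • p = p := by
  have key : ∀ g : Γ, c g < 1 → ∃ p : E, g • p = p := by
    intro g hg
    have hL : ContractingWith (Real.toNNReal (c g)) (fun u : E => g • u) := by
      refine ⟨by rw [Real.toNNReal_lt_one]; exact hg, ?_⟩
      refine LipschitzWith.of_dist_le_mul fun y z => ?_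
      rw [h.hE, Real.coe_toNNReal _ (h.pos g).le]
    exact ⟨_, hL.fixedPoint_isFixedPt⟩
  rcases lt_or_gt_of_ne hg with h1 | h1
  · exact key g h1
  · have h2 : c g⁻¹ < 1 := by
      have h3 : c g * c g⁻¹ = 1 := by rw [← map_mul, mul_inv_cancel, map_one]
      have h4 := h.pos g⁻¹
      nlinarith
    obtain ⟨p, hp⟩ := key _ h2
    exact ⟨p, by rw [inv_smul_eq_iff] at hp; exact hp.symm⟩

lemma Sim.ratio_one {g : Γ} {x : N} (hx : g • x = x) (hg : g ≠ 1) : c g = 1 := by
  by_contra hc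
  obtain ⟨p, hp⟩ := h.exists_fix hc
  exact hg (h.free g p x hp hx)

end Pool.Agent.K4H32.LCP
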