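import Pool.Agent.K4H32.LCP.Sat

set_option autoImplicit false
set_option linter.unusedSectionVars false

/-!
# Elements of a topological group generating a torus
-/

namespace Pool.Agent.K4H32.LCP

open Set Filter Topology Metric

variable {G : Type*} [Group G] [TopologicalSpace G]

/-- `K` is a compact divisible group with dense torsion, and each power of `g` is dense in it -/
structure Good (g : G) (K : Subgroup G) : Prop where
  compact : IsCompact (K : Set G)
  mem : g ∈ K
  dense : ∀ n : ℕ, 0 < n → (K : Set G) ⊆ closure (Subgroup.zpowers (g ^ n) : Set G)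
  div : ∀ n : ℕ, 0 < n → ∀ u ∈ K, ∃ w ∈ K, w ^ n = u
  tors : (K : Set G) ⊆ closure {t | t ∈ K ∧ ∃ M : ℕ, 0 < M ∧ t ^ M = 1}

lemma Good.pow {g : G} {K : Subgroup G} (h : Good g K) {i : ℕ} (hi : 0 < i) : Good (g ^ i) K where
  compact := h.compact
  mem := K.pow_mem h.mem i
  dense := by
    intro n hn
    rw [← pow_mul]
    exact h.dense (i * n) (Nat.mul_pos hi hn)
  div := h.div
  tors := h.tors

lemma Good.map {G' : Type*} [Group G'] [TopologicalSpace G'] {g : G} {K : Subgroup G}
    (h : Good g K) (φ : G →* G') (hφ : Continuous φ) : Good (φ g) (K.map φ) where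
  compact := by
    rw [Subgroup.coe_map]
    exact h.compact.image hφ
  mem := ⟨g, h.mem, rfl⟩
  dense := by
    rintro n hn _ ⟨u, hu, rfl⟩
    refine map_mem_closure hφ (h.dense n hn hu) ?_
    rintro _ ⟨l, rfl⟩
    refine ⟨l, ?_⟩
    simp
  div := by
    rintro n hn _ ⟨u, hu, rfl⟩
    obtain ⟨w, hw, rfl⟩ := h.div n hn u hu
    exact ⟨φ w, ⟨w, hw, rfl⟩, by simp⟩
  tors := by
    rintro _ ⟨u, hu, rfl⟩
    refine map_mem_closure hφ (h.tors hu) ?_
    rintro t ⟨ht, M, hM, htM⟩
    exact ⟨⟨t, ht, rfl⟩, M, hM, by rw [← map_pow, htM, map_one]⟩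

variable [IsTopologicalGroup G] [T2Space G]

lemma commute_of_mem_closure {g h u : G} (hgh : Commute g h)
    (hu : u ∈ closure (Subgroup.zpowers g : Set G)) : Commute u h := by
  have hc : IsClosed {u : G | Commute u h} :=
    isClosed_eq (continuous_id.mul continuous_const) (continuous_const.mul continuous_id)
  refine hc.closure_subset_iff.2 ?_ hu
  rintro _ ⟨n, rfl⟩
  exact hgh.zpow_left n

/-- the closure of the group generated by `g` is a torus -/
theorem exists_good {d : ℕ} {z : UnitAddTorus (Fin d)} (hz : Sat z) {g : G}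
    (hK : IsCompact (closure (Subgroup.zpowers g : Set G)))
    (hL : ∀ U ∈ 𝓝 (1 : G), ∃ δ : ℝ, 0 < δ ∧ ∀ n : ℤ, ‖n • z‖ < δ → g ^ n ∈ U) :
    Good g (Subgroup.zpowers g).topologicalClosure := by
  have hcoe : ((Subgroup.zpowers g).topologicalClosure : Set G) =
    closure (Subgroup.zpowers g : Set G) := rfl
  have hgK : g ∈ (Subgroup.zpowers g).topologicalClosure :=
    Subgroup.le_topologicalClosure _ (Subgroup.mem_zpowers g)
  -- density of the powers
  have hD : ∀ n : ℕ, 0 < n → g ∈ (Subgroup.zpowers (g ^ n)).topologicalClosure := by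
    intro n hn
    show g ∈ closure (Subgroup.zpowers (g ^ n) : Set G)
    rw [mem_closure_iff_nhds]
    intro U hU
    have hU' : (fun h => h * g) ⁻¹' U ∈ 𝓝 (1 : G) := by
      apply (continuous_id.mul continuous_const).continuousAt
      simpa using hU
    obtain ⟨δ, hδ, hL'⟩ := hL _ hU'
    obtain ⟨l, hl⟩ := hz.dense hn hδ
    have h1 : ‖((l * n : ℕ) - 1 : ℤ) • z‖ < δ := by
      have : ((l * n : ℕ) - 1 : ℤ) • z = l • (n • z) - z := by
        rw [sub_smul, one_smul, natCast_zsmul, mul_smul]
      rwa [this]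
    have h2 := hL' _ h1
    refine ⟨g ^ (((l * n : ℕ) : ℤ) - 1) * g, h2, l, ?_⟩
    rw [← zpow_add_one, sub_add_cancel, zpow_natCast]
    show (g ^ n) ^ (l : ℤ) = g ^ (l * n)
    rw [zpow_natCast, ← pow_mul, mul_comm]
  have hD2 : ∀ n : ℕ, 0 < n → (closure (Subgroup.zpowers g : Set G)) ⊆
      closure (Subgroup.zpowers (g ^ n) : Set G) := by
    intro n hn
    refine isClosed_closure.closure_subset_iff.2 ?_
    rintro _ ⟨l, rfl⟩
    exact (Subgroup.zpowers (g ^ n)).topologicalClosure.zpow_mem (hD n hn) l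
  refine ⟨hK, hgK, hD2, ?_, ?_⟩
  · intro n hn u hu
    have h1 : IsCompact ((fun w : G => w ^ n) '' closure (Subgroup.zpowers g : Set G)) :=
      hK.image (continuous_pow n)
    have h2 : closure (Subgroup.zpowers (g ^ n) : Set G) ⊆
        (fun w : G => w ^ n) '' closure (Subgroup.zpowers g : Set G) := by
      refine h1.isClosed.closure_subset_iff.2 ?_
      rintro _ ⟨l, rfl⟩
      refine ⟨g ^ l, subset_closure ⟨l, rfl⟩, ?_⟩
      simp only
      rw [← zpow_natCast, ← zpow_mul, ← zpow_natCast g n, ← zpow_mul, mul_comm]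
    obtain ⟨w, hw, hwu⟩ := h2 (hD2 n hn hu)
    exact ⟨w, hw, hwu⟩
  · -- torsion
    set Tor : Set G := {t | t ∈ (Subgroup.zpowers g).topologicalClosure ∧
      ∃ M : ℕ, 0 < M ∧ t ^ M = 1} with hTor
    have hgT : g ∈ closure Tor := by
      rw [mem_closure_iff_nhds]
      intro U hU
      have hU' : (fun h => g * h⁻¹) ⁻¹' U ∈ 𝓝 (1 : G) := by
        apply (continuous_const.mul continuous_inv).continuousAt
        simpa using hU
      obtain ⟨W, hW, hWc, hWU⟩ := exists_mem_nhds_isClosed_subset hU'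
      obtain ⟨δ, hδ, hL'⟩ := hL _ hW
      obtain ⟨y, M, hM, hMy, hyδ, hyn⟩ := exists_torsion_near z (half_pos hδ)
      have hycl : y ∈ closure (range fun n : ℕ => n • z) := by
        rw [Metric.mem_closure_iff]
        intro ε hε
        obtain ⟨n, hn⟩ := hyn ε hε
        exact ⟨n • z, mem_range_self n, by rw [dist_comm, dist_eq_norm]; exact hn⟩
      obtain ⟨F, hF⟩ : ∃ F : Ultrafilter ℕ, Tendsto (fun n : ℕ => n • z) F (𝓝 y) := by
        have : NeBot (comap (fun n : ℕ => n • z) (𝓝 y)) := by
          rw [comap_neBot_iff]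
          intro t ht
          obtain ⟨w, hw1, n, hn⟩ := mem_closure_iff_nhds.1 hycl t ht
          exact ⟨n, by
            have hn' : n • z = w := hn
            rw [hn']; exact hw1⟩
        exact ⟨Ultrafilter.of _, tendsto_comap.mono_left (Ultrafilter.of_le _)⟩
      obtain ⟨h, hhK, hh⟩ := hK.ultrafilter_le_nhds (F.map fun n : ℕ => g ^ n) (by
        rw [le_principal_iff]
        refine Filter.Eventually.of_forall (f := (F : Filter ℕ)) fun n => ?_
        exact subset_closure ⟨(n : ℤ), by simp⟩)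
      have hh' : Tendsto (fun n : ℕ => g ^ n) F (𝓝 h) := hh
      have hhW : h ∈ W := by
        refine hWc.mem_of_tendsto hh' ?_
        have h1 : ∀ᶠ n : ℕ in (F : Filter ℕ), ‖n • z - y‖ < δ / 2 := by
          have := Metric.tendsto_nhds.1 hF (δ / 2) (half_pos hδ)
          filter_upwards [this] with n hn
          rwa [← dist_eq_norm]
        filter_upwards [h1] with n hn
        have h2 := hL' (n : ℤ) (by
          rw [natCast_zsmul]
          have := norm_add_le (n • z - y) y
          rw [sub_add_cancel] at this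
          linarith)
        simpa using h2
      -- the power
      have hpow : h ^ M = g ^ M := by
        have h1 : Tendsto (fun n : ℕ => (g ^ n) ^ M * (g ^ M)⁻¹) F (𝓝 (h ^ M * (g ^ M)⁻¹)) :=
          (hh'.pow M).mul tendsto_const_nhds
        have h2 : Tendsto (fun n : ℕ => (g ^ n) ^ M * (g ^ M)⁻¹) F (𝓝 1) := by
          intro U' hU'
          obtain ⟨δ', hδ', hL''⟩ := hL _ hU'
          have h3 : Tendsto (fun n : ℕ => M • (n • z)) F (𝓝 (M • y)) := hF.const_smul M
          rw [hMy] at h3
          have h4 := Metric.tendsto_nhds.1 h3 δ' hδ'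
          show ∀ᶠ n : ℕ in (F : Filter ℕ), (g ^ n) ^ M * (g ^ M)⁻¹ ∈ U'
          filter_upwards [h4] with n hn
          have h5 := hL'' ((n * M : ℕ) - (M : ℕ) : ℤ) (by
            rw [dist_eq_norm] at hn
            rw [sub_smul, natCast_zsmul, natCast_zsmul, mul_comm, mul_smul]
            exact hn)
          rwa [zpow_sub, zpow_natCast, zpow_natCast, pow_mul] at h5
        have h3 := tendsto_nhds_unique h1 h2
        rwa [mul_inv_eq_one] at h3
      have hcomm : Commute h g := commute_of_mem_closure (Commute.refl g) hhK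
      refine ⟨g * h⁻¹, hWU hhW, ?_, M, hM, ?_⟩
      · exact Subgroup.mul_mem _ hgK (Subgroup.inv_mem _ hhK)
      · rw [(hcomm.symm.inv_right).mul_pow, inv_pow, hpow, mul_inv_cancel]
    rw [hcoe]
    refine isClosed_closure.closure_subset_iff.2 ?_
    rintro _ ⟨n, rfl⟩
    refine map_mem_closure (f := fun t : G => t ^ n) (continuous_zpow n) hgT ?_
    rintro t ⟨ht, M, hM, htM⟩
    refine ⟨Subgroup.zpow_mem _ ht n, M, hM, ?_⟩
    rw [← zpow_natCast, ← zpow_mul, mul_comm, zpow_mul, zpow_natCast, htM, one_zpow]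

end Pool.Agent.K4H32.LCP
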