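import Pool.Agent.K4H32.LCP.Koszul

set_option autoImplicit false
set_option maxSynthPendingDepth 3

/-!
# Rigidity of isometries in a chart
-/

namespace Pool.Agent.K4H32.LCP

open Set Filter Topology Metric

variable {V : Type*} [NormedAddCommGroup V] [NormedSpace ℝ V] [FiniteDimensional ℝ V]

variable {G : V → V →L[ℝ] V →L[ℝ] ℝ} {O S : Set V} {c C : ℝ} {F : V → V}

lemma Iso.surj (hB : Bds G S c C) (hF : Iso G O S F) (hO : O ⊆ S) (z : V) (hz : z ∈ O) :
    Function.Surjective (fderiv ℝ F z) := by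
  have hinj : Function.Injective (fderiv ℝ F z : V →ₗ[ℝ] V) := by
    rw [← LinearMap.ker_eq_bot, LinearMap.ker_eq_bot']
    intro v hv
    have h1 := hF.le_norm_fderiv_apply hB hO hz v
    have hv' : fderiv ℝ F z v = 0 := hv
    rw [hv', norm_zero, mul_zero] at h1
    exact norm_le_zero_iff.1 h1
  exact LinearMap.injective_iff_surjective.1 hinj

/-- the constant in Gronwall's inequality -/
noncomputable def gC (c C : ℝ) : ℝ := 1 + 2 * (2 * C * (1 + √(C / c)) ^ 4 / c)

lemma gC_pos (hc : 0 < c) (hC : 0 < C) : 1 ≤ gC c C := by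
  unfold gC
  have : 0 ≤ 2 * C * (1 + √(C / c)) ^ 4 / c := by positivity
  linarith

/-- Gronwall's inequality for the `1`-jet of `F - id`. -/
lemma Iso.gronwall (hB : Bds G S c C) (hF : Iso G O S F) (hO : O ⊆ S) (hOo : IsOpen O)
    (hconv : Convex ℝ O) {w z : V} (hw : w ∈ O) (hz : z ∈ O) {δ : ℝ}
    (h0 : ‖F w - w‖ ≤ δ) (h1 : ‖fderiv ℝ F w - 1‖ ≤ δ) :
    ‖F z - z‖ ≤ δ * Real.exp (gC c C * ‖z - w‖) := by
  set γ : ℝ → V := fun t => w + t • (z - w) with hγ
  have hγO : ∀ t ∈ Icc (0 : ℝ) 1, γ t ∈ O := by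
    intro t ht
    have := hconv hw hz (sub_nonneg.2 ht.2) ht.1 (by ring : (1 - t) + t = 1)
    have e : (1 - t) • w + t • z = γ t := by simp only [hγ]; module
    rwa [e] at this
  have hγd : ∀ t, HasDerivAt γ (z - w) t := by
    intro t
    have := ((hasDerivAt_id t).smul_const (z - w)).const_add w
    rw [one_smul] at this
    exact this
  set f : ℝ → V × (V →L[ℝ] V) := fun t => (F (γ t) - γ t, fderiv ℝ F (γ t) - 1) with hf
  set f' : ℝ → V × (V →L[ℝ] V) := fun t =>
    (fderiv ℝ F (γ t) (z - w) - (z - w), fderiv ℝ (fderiv ℝ F) (γ t) (z - w)) with hf'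
  have hd : ∀ t ∈ Icc (0 : ℝ) 1, HasDerivAt f (f' t) t := by
    intro t ht
    have hd1 : DifferentiableAt ℝ F (γ t) := (hF.smooth _ (hγO t ht)).differentiableAt (by norm_num)
    have hd2 : DifferentiableAt ℝ (fderiv ℝ F) (γ t) :=
      ((hF.smooth _ (hγO t ht)).fderiv_right (m := 1) (by norm_num)).differentiableAt (by norm_num)
    refine HasDerivAt.prodMk ?_ ?_
    · exact (hd1.hasFDerivAt.comp_hasDerivAt t (hγd t)).sub (hγd t)
    · exact (hd2.hasFDerivAt.comp_hasDerivAt t (hγd t)).sub_const 1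
  have hbound : ∀ t ∈ Ico (0 : ℝ) 1, ‖f' t‖ ≤ (gC c C * ‖z - w‖) * ‖f t‖ + 0 := by
    intro t ht
    have htI : t ∈ Icc (0 : ℝ) 1 := ⟨ht.1, ht.2.le⟩
    have hn := hF.norm_snd_le hB hO hOo (hF.surj hB hO) (hγO t htI)
    have hf1 : ‖F (γ t) - γ t‖ ≤ ‖f t‖ := by
      rw [Prod.norm_def]; exact le_max_left _ _
    have hf2 : ‖fderiv ℝ F (γ t) - 1‖ ≤ ‖f t‖ := by
      rw [Prod.norm_def]; exact le_max_right _ _
    have hc := hB.c_pos
    have hC := hB.C_pos
    set Q := 2 * C * (1 + √(C / c)) ^ 4 / c with hQ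
    have hQ0 : 0 ≤ Q := by positivity
    have hg : gC c C = 1 + 2 * Q := rfl
    rw [add_zero, hg, Prod.norm_def]
    have hft : 0 ≤ ‖f t‖ := norm_nonneg _
    apply max_le
    · have : fderiv ℝ F (γ t) (z - w) - (z - w) = (fderiv ℝ F (γ t) - 1) (z - w) := by simp
      calc ‖(f' t).1‖ = ‖(fderiv ℝ F (γ t) - 1) (z - w)‖ := by rw [← this]
        _ ≤ ‖fderiv ℝ F (γ t) - 1‖ * ‖z - w‖ := ContinuousLinearMap.le_opNorm _ _
        _ ≤ ‖f t‖ * ‖z - w‖ := by gcongr
        _ ≤ _ := by nlinarith [mul_nonneg (mul_nonneg hQ0 (norm_nonneg (z - w))) hft]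
    · calc ‖(f' t).2‖ = ‖fderiv ℝ (fderiv ℝ F) (γ t) (z - w)‖ := rfl
        _ ≤ ‖fderiv ℝ (fderiv ℝ F) (γ t)‖ * ‖z - w‖ := ContinuousLinearMap.le_opNorm _ _
        _ ≤ (Q * (‖F (γ t) - γ t‖ + ‖fderiv ℝ F (γ t) - 1‖)) * ‖z - w‖ := by gcongr
        _ ≤ (Q * (‖f t‖ + ‖f t‖)) * ‖z - w‖ := by gcongr
        _ ≤ _ := by nlinarith [mul_nonneg hft (norm_nonneg (z - w))]
  have hf0 : ‖f 0‖ ≤ δ := by
    have e0 : γ 0 = w := by simp [hγ]
    rw [Prod.norm_def]
    simp only [hf, e0]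
    exact max_le h0 h1
  have key := norm_le_gronwallBound_of_norm_deriv_right_le (f := f) (f' := f') (δ := δ)
    (K := gC c C * ‖z - w‖) (ε := 0) (a := 0) (b := 1)
    (fun t ht => (hd t ht).continuousAt.continuousWithinAt)
    (fun t ht => (hd t ⟨ht.1, ht.2.le⟩).hasDerivWithinAt) hf0 hbound 1 (by simp)
  rw [gronwallBound_ε0] at key
  have e1 : γ 1 = z := by simp [hγ]
  have : ‖F z - z‖ ≤ ‖f 1‖ := by
    rw [Prod.norm_def]
    simp only [hf, e1]
    exact le_max_left _ _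
  simpa using this.trans key

variable {ι : Type*} {l : Filter ι} {Fi : ι → V → V}

/-- convergence to the identity propagates from one point (with the derivative) to `O` -/
lemma tendsto_of_jet (hB : Bds G S c C) (hO : O ⊆ S) (hOo : IsOpen O) (hconv : Convex ℝ O)
    (hF : ∀ᶠ i in l, Iso G O S (Fi i)) {w : V} (hw : w ∈ O)
    (h0 : Tendsto (fun i => Fi i w) l (𝓝 w))
    (h1 : Tendsto (fun i => fderiv ℝ (Fi i) w) l (𝓝 1)) {z : V} (hz : z ∈ O) :
    Tendsto (fun i => Fi i z) l (𝓝 z) := by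
  rw [Metric.tendsto_nhds]
  intro ε hε
  set δ := ε / (2 * Real.exp (gC c C * ‖z - w‖)) with hδ
  have hδ0 : 0 < δ := by positivity
  filter_upwards [hF, Metric.tendsto_nhds.1 h0 δ hδ0, Metric.tendsto_nhds.1 h1 δ hδ0] with i hi h0i h1i
  rw [dist_eq_norm] at h0i h1i ⊢
  have := hi.gronwall hB hO hOo hconv hw hz h0i.le h1i.le
  have e : δ * Real.exp (gC c C * ‖z - w‖) = ε / 2 := by
    rw [hδ]; field_simp
  rw [e] at this
  linarith

/-- if `Fi → id` pointwise near `w` then the derivatives at `w` tend to the identity -/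
lemma tendsto_fderiv (hB : Bds G S c C) (hO : O ⊆ S) (hOo : IsOpen O) (hbd : Bornology.IsBounded S)
    (hF : ∀ᶠ i in l, Iso G O S (Fi i)) {w : V} (hw : w ∈ O)
    (h0 : ∀ᶠ y in 𝓝 w, Tendsto (fun i => Fi i y) l (𝓝 y)) :
    Tendsto (fun i => fderiv ℝ (Fi i) w) l (𝓝 1) := by
  obtain ⟨D, hD⟩ := Metric.isBounded_iff.1 hbd
  set K := √(C / c) with hK
  have hK0 : 0 ≤ K := Real.sqrt_nonneg _
  have hc := hB.c_pos
  have hC := hB.C_pos
  have hDnn : 0 ≤ D := dist_nonneg.trans (hD (hO hw) (hO hw))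
  set M := (2 * C * (1 + √(C / c)) ^ 4 / c) * (D + (K + 1)) with hM
  have hM0 : 0 ≤ M := by positivity
  -- bound for the second derivative
  have hsnd : ∀ᶠ i in l, ∀ z ∈ O, ‖fderiv ℝ (fderiv ℝ (Fi i)) z‖ ≤ M := by
    filter_upwards [hF] with i hi z hz
    refine (hi.norm_snd_le hB hO hOo (hi.surj hB hO) hz).trans ?_
    rw [hM]
    gcongr
    · rw [← dist_eq_norm]; exact hD (hi.maps z hz) (hO hz)
    · refine (norm_sub_le _ _).trans (add_le_add (hi.norm_fderiv_le hB hO hz) ?_)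
      exact ContinuousLinearMap.norm_id_le
  set b := Module.finBasis ℝ V with hb
  obtain ⟨Cb, hCb0, hCb⟩ := b.exists_opNorm_le (F := V)
  rw [Metric.tendsto_nhds]
  intro ε hε
  -- a bound for the vectors of the basis
  obtain ⟨B, hB1, hBb⟩ : ∃ B : ℝ, 1 ≤ B ∧ ∀ j, ‖b j‖ ≤ B := by
    refine ⟨1 + ∑ j, ‖b j‖, by
      have : 0 ≤ ∑ j, ‖b j‖ := Finset.sum_nonneg fun _ _ => norm_nonneg _
      linarith, fun j => ?_⟩
    have := Finset.single_le_sum (f := fun j => ‖b j‖) (fun _ _ => norm_nonneg _)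
      (Finset.mem_univ j)
    linarith
  -- a small radius
  obtain ⟨r, hr0, hr⟩ := Metric.mem_nhds_iff.1 (Filter.inter_mem (hOo.mem_nhds hw) h0)
  set ε' := ε / (2 * Cb) with hε'
  have hε'0 : 0 < ε' := by positivity
  obtain ⟨t, ht0, ht1, ht2⟩ : ∃ t : ℝ, 0 < t ∧ t * B < r / 2 ∧ M * r * 0 + M * (2 * t * B) * B ≤ ε' / 2 := by
    refine ⟨min (r / (4 * B)) (ε' / (4 * (M + 1) * B ^ 2)), by positivity, ?_, ?_⟩
    · calc min (r / (4 * B)) (ε' / (4 * (M + 1) * B ^ 2)) * B ≤ r / (4 * B) * B := by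
            gcongr; exact min_le_left _ _
        _ = r / 4 := by field_simp
        _ < r / 2 := by linarith
    · calc M * r * 0 + M * (2 * (min (r / (4 * B)) (ε' / (4 * (M + 1) * B ^ 2))) * B) * B ≤
            M * (2 * (ε' / (4 * (M + 1) * B ^ 2)) * B) * B := by
              rw [mul_zero, zero_add]; gcongr; exact min_le_right _ _
        _ = (M / (M + 1)) * (ε' / 2) := by field_simp; ring
        _ ≤ 1 * (ε' / 2) := by
              gcongr
              rw [div_le_one (by linarith)]; linarith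
        _ = ε' / 2 := one_mul _
  rw [mul_zero, zero_add] at ht2
  -- the points
  have hpt : ∀ j, w + t • b j ∈ ball w r := by
    intro j
    rw [mem_ball, dist_eq_norm, add_sub_cancel_left, norm_smul, Real.norm_of_nonneg ht0.le]
    calc t * ‖b j‖ ≤ t * B := by gcongr; exact hBb j
      _ < r := by linarith
  have hwb : w ∈ ball w r := mem_ball_self hr0
  set η := t * ε' / 8 with hη
  have hη0 : 0 < η := by positivity
  have hev : ∀ᶠ i in l, ∀ j, ‖Fi i (w + t • b j) - (w + t • b j)‖ < η := by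
    rw [Filter.eventually_all]
    intro j
    have := Metric.tendsto_nhds.1 ((hr (hpt j)).2) η hη0
    filter_upwards [this] with i hi
    rwa [← dist_eq_norm]
  have hevw : ∀ᶠ i in l, ‖Fi i w - w‖ < η := by
    have := Metric.tendsto_nhds.1 ((hr hwb).2) η hη0
    filter_upwards [this] with i hi
    rwa [← dist_eq_norm]
  filter_upwards [hF, hsnd, hev, hevw] with i hi hsi hei hwi
  rw [dist_eq_norm]
  have hmain : ‖fderiv ℝ (Fi i) w - 1‖ ≤ Cb * ε' := by
    refine hCb hε'0.le fun j => ?_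
    -- the small ball
    set ρ := 2 * t * B with hρ
    have hρ0 : 0 < ρ := by positivity
    have hsub : ball w ρ ⊆ O := fun y hy =>
      (hr (ball_subset_ball (by rw [hρ]; linarith) hy)).1
    have hdiff : ∀ y ∈ ball w ρ, ‖fderiv ℝ (Fi i) y - fderiv ℝ (Fi i) w‖ ≤ M * ρ := by
      intro y hy
      have := (convex_ball w ρ).norm_image_sub_le_of_norm_hasFDerivWithin_le (𝕜 := ℝ)
        (f := fderiv ℝ (Fi i)) (f' := fun x => fderiv ℝ (fderiv ℝ (Fi i)) x) (C := M)
        (fun x hx => (((hi.smooth x (hsub hx)).fderiv_right (m := 1)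
          (by norm_num)).differentiableAt (by norm_num)).hasFDerivAt.hasFDerivWithinAt)
        (fun x hx => hsi x (hsub hx)) (mem_ball_self hρ0) hy
      refine this.trans ?_
      gcongr
      rw [← dist_eq_norm]; exact (mem_ball.1 hy).le
    have hyb : w + t • b j ∈ ball w ρ := by
      rw [mem_ball, dist_eq_norm, add_sub_cancel_left, norm_smul, Real.norm_of_nonneg ht0.le]
      calc t * ‖b j‖ ≤ t * B := by gcongr; exact hBb j
        _ < ρ := by rw [hρ]; nlinarith
    have h2 := (convex_ball w ρ).norm_image_sub_le_of_norm_hasFDerivWithin_le' (𝕜 := ℝ)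
        (f := Fi i) (f' := fun x => fderiv ℝ (Fi i) x) (φ := fderiv ℝ (Fi i) w) (C := M * ρ)
        (fun x hx => ((hi.smooth x (hsub hx)).differentiableAt
          (by norm_num)).hasFDerivAt.hasFDerivWithinAt)
        hdiff (mem_ball_self hρ0) hyb
    rw [add_sub_cancel_left] at h2
    have e : t • (fderiv ℝ (Fi i) w - 1) (b j) =
        -(Fi i (w + t • b j) - Fi i w - fderiv ℝ (Fi i) w (t • b j)) +
          (Fi i (w + t • b j) - (w + t • b j)) - (Fi i w - w) := by
      simp only [sub_apply, one_apply_eq_self, map_smul]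
      module
    have h3 : t * ‖(fderiv ℝ (Fi i) w - 1) (b j)‖ ≤ M * ρ * ‖t • b j‖ + η + η := by
      calc t * ‖(fderiv ℝ (Fi i) w - 1) (b j)‖ = ‖t • (fderiv ℝ (Fi i) w - 1) (b j)‖ := by
            rw [norm_smul, Real.norm_of_nonneg ht0.le]
        _ ≤ _ := by
            rw [e]
            refine (norm_sub_le _ _).trans (add_le_add ?_ hwi.le)
            refine (norm_add_le _ _).trans (add_le_add ?_ (hei j).le)
            rw [norm_neg]; exact h2
    rw [norm_smul, Real.norm_of_nonneg ht0.le] at h3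
    have h4 : t * ‖(fderiv ℝ (Fi i) w - 1) (b j)‖ ≤ t * ε' := by
      refine h3.trans ?_
      have h5 : M * ρ * (t * ‖b j‖) ≤ t * (ε' / 2) := by
        calc M * ρ * (t * ‖b j‖) ≤ M * ρ * (t * B) := by gcongr; exact hBb j
          _ = t * (M * (2 * t * B) * B) := by rw [hρ]; ring
          _ ≤ t * (ε' / 2) := by gcongr
      rw [hη]
      nlinarith
    exact le_of_mul_le_mul_left h4 ht0
  calc ‖fderiv ℝ (Fi i) w - 1‖ ≤ Cb * ε' := hmain
    _ = ε / 2 := by rw [hε']; field_simp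
    _ < ε := by linarith

end Pool.Agent.K4H32.LCP
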