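import Mathlib

set_option autoImplicit false
set_option maxSynthPendingDepth 3

/-!
# Isometries between open sets of a Euclidean space with a variable metric

`G` is a Riemannian metric on (an open subset of) a finite dimensional space `V`, `F` an isometry.
The second derivative of `F` is given by the formula of Koszul, so it is bounded by the `1`-jet of
`F - id`.
-/

namespace Pool.Agent.K4H32.LCP

open Set Filter Topology Metric

variable {V : Type*} [NormedAddCommGroup V] [NormedSpace ℝ V]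

/-- bounds of a metric `G` on a set `S` -/
structure Bds (G : V → V →L[ℝ] V →L[ℝ] ℝ) (S : Set V) (c C : ℝ) : Prop where
  c_pos : 0 < c
  C_pos : 0 < C
  lower : ∀ z ∈ S, ∀ v, c * ‖v‖ ^ 2 ≤ G z v v
  upper : ∀ z ∈ S, ∀ v, G z v v ≤ C * ‖v‖ ^ 2
  symm : ∀ z ∈ S, ∀ u v, G z u v = G z v u
  diff : ∀ z ∈ S, DifferentiableAt ℝ G z
  der : ∀ z ∈ S, ‖fderiv ℝ G z‖ ≤ C
  lip : ∀ z ∈ S, ∀ w ∈ S, ‖fderiv ℝ G z - fderiv ℝ G w‖ ≤ C * ‖z - w‖

/-- an isometry of `G` from the open set `O` to the set `S` -/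
structure Iso (G : V → V →L[ℝ] V →L[ℝ] ℝ) (O S : Set V) (F : V → V) : Prop where
  maps : ∀ z ∈ O, F z ∈ S
  smooth : ∀ z ∈ O, ContDiffAt ℝ 2 F z
  iso : ∀ z ∈ O, ∀ u v, G (F z) (fderiv ℝ F z u) (fderiv ℝ F z v) = G z u v

variable {G : V → V →L[ℝ] V →L[ℝ] ℝ} {O S : Set V} {c C : ℝ} {F : V → V}

lemma le_of_sq_le_sq {a b : ℝ} (h : a ^ 2 ≤ b ^ 2) (hb : 0 ≤ b) : a ≤ b :=
  le_of_not_gt fun h' => by nlinarith

lemma Iso.norm_fderiv_apply_le (hB : Bds G S c C) (hF : Iso G O S F) (hO : O ⊆ S) {z : V}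
    (hz : z ∈ O) (u : V) : ‖fderiv ℝ F z u‖ ≤ √(C / c) * ‖u‖ := by
  have h1 := hB.lower (F z) (hF.maps z hz) (fderiv ℝ F z u)
  rw [hF.iso z hz] at h1
  have h2 := hB.upper z (hO hz) u
  have h3 : ‖fderiv ℝ F z u‖ ^ 2 ≤ (√(C / c) * ‖u‖) ^ 2 := by
    rw [mul_pow, Real.sq_sqrt (div_nonneg hB.C_pos.le hB.c_pos.le)]
    have := hB.c_pos
    rw [div_mul_eq_mul_div, le_div_iff₀ this]
    linarith
  exact le_of_sq_le_sq h3 (by positivity)

lemma Iso.le_norm_fderiv_apply (hB : Bds G S c C) (hF : Iso G O S F) (hO : O ⊆ S) {z : V}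
    (hz : z ∈ O) (u : V) : ‖u‖ ≤ √(C / c) * ‖fderiv ℝ F z u‖ := by
  have h1 := hB.upper (F z) (hF.maps z hz) (fderiv ℝ F z u)
  rw [hF.iso z hz] at h1
  have h2 := hB.lower z (hO hz) u
  have h3 : ‖u‖ ^ 2 ≤ (√(C / c) * ‖fderiv ℝ F z u‖) ^ 2 := by
    rw [mul_pow, Real.sq_sqrt (div_nonneg hB.C_pos.le hB.c_pos.le)]
    have := hB.c_pos
    rw [div_mul_eq_mul_div, le_div_iff₀ this]
    linarith
  exact le_of_sq_le_sq h3 (by positivity)

lemma Iso.norm_fderiv_le (hB : Bds G S c C) (hF : Iso G O S F) (hO : O ⊆ S) {z : V}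
    (hz : z ∈ O) : ‖fderiv ℝ F z‖ ≤ √(C / c) :=
  ContinuousLinearMap.opNorm_le_bound _ (Real.sqrt_nonneg _)
    (hF.norm_fderiv_apply_le hB hO hz)

/-- differentiating the isometry equation -/
lemma Iso.deriv_eq (hB : Bds G S c C) (hF : Iso G O S F) (hO : O ⊆ S) (hOo : IsOpen O) {z : V}
    (hz : z ∈ O) (w u v : V) :
    fderiv ℝ G (F z) (fderiv ℝ F z w) (fderiv ℝ F z u) (fderiv ℝ F z v) +
      G (F z) (fderiv ℝ (fderiv ℝ F) z w u) (fderiv ℝ F z v) +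
      G (F z) (fderiv ℝ F z u) (fderiv ℝ (fderiv ℝ F) z w v) = fderiv ℝ G z w u v := by
  have hd1 : DifferentiableAt ℝ F z := (hF.smooth z hz).differentiableAt (by norm_num)
  have hd2 : DifferentiableAt ℝ (fderiv ℝ F) z :=
    ((hF.smooth z hz).fderiv_right (m := 1) (by norm_num)).differentiableAt (by norm_num)
  have hG1 : HasFDerivAt (fun y => G (F y)) ((fderiv ℝ G (F z)).comp (fderiv ℝ F z)) z :=
    (hB.diff _ (hF.maps z hz)).hasFDerivAt.comp z hd1.hasFDerivAt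
  have hu : ∀ u : V, HasFDerivAt (fun y => fderiv ℝ F y u)
      ((fderiv ℝ (fderiv ℝ F) z).flip u) z := by
    intro u
    have := hd2.hasFDerivAt.clm_apply (hasFDerivAt_const u z)
    refine this.congr_fderiv ?_
    ext x; simp
  have h1 := (hG1.clm_apply (hu u)).clm_apply (hu v)
  have h2 : HasFDerivAt (fun y => G y u v) (((fderiv ℝ G z).flip u).flip v) z := by
    have := ((hB.diff z (hO hz)).hasFDerivAt.clm_apply (hasFDerivAt_const u z)).clm_apply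
      (hasFDerivAt_const v z)
    refine this.congr_fderiv ?_
    ext x; simp
  have h3 : (fun y => G y u v) =ᶠ[𝓝 z] fun y => G (F y) (fderiv ℝ F y u) (fderiv ℝ F y v) := by
    filter_upwards [hOo.mem_nhds hz] with y hy
    exact (hF.iso y hy u v).symm
  have h4 := (h1.congr_of_eventuallyEq h3).unique h2
  have h5 := congrArg (fun L : V →L[ℝ] ℝ => L w) h4
  simp only [add_apply, ContinuousLinearMap.comp_apply,
    ContinuousLinearMap.flip_apply] at h5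
  rw [← h5]
  ring

lemma Iso.symm2 (hF : Iso G O S F) {z : V} (hz : z ∈ O) (w u : V) :
    fderiv ℝ (fderiv ℝ F) z w u = fderiv ℝ (fderiv ℝ F) z u w := by
  have := (hF.smooth z hz).isSymmSndFDerivAt (by simp)
  exact this.eq w u

/-- the bound on the right hand side of Koszul's formula -/
lemma Iso.rhs_le (hB : Bds G S c C) (hF : Iso G O S F) (hO : O ⊆ S) {z : V}
    (hz : z ∈ O) (w u v : V) :
    |fderiv ℝ G z w u v - fderiv ℝ G (F z) (fderiv ℝ F z w) (fderiv ℝ F z u) (fderiv ℝ F z v)| ≤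
      C * (1 + √(C / c)) ^ 3 * (‖F z - z‖ + ‖fderiv ℝ F z - 1‖) * ‖w‖ * ‖u‖ * ‖v‖ := by
  set D := fderiv ℝ F z with hD
  set g := fderiv ℝ G z with hg
  set h := fderiv ℝ G (F z) with hh
  set K := √(C / c) with hK
  have hK0 : 0 ≤ K := Real.sqrt_nonneg _
  set a := ‖F z - z‖ with ha
  set b := ‖D - 1‖ with hb
  have ha0 : 0 ≤ a := norm_nonneg _
  have hb0 : 0 ≤ b := norm_nonneg _
  have hC := hB.C_pos
  have h1 : ‖g - h‖ ≤ C * a := by
    have := hB.lip z (hO hz) (F z) (hF.maps z hz)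
    rwa [norm_sub_rev z (F z)] at this
  have h2 : ‖h‖ ≤ C := hB.der _ (hF.maps z hz)
  have hDb : ∀ x, ‖D x‖ ≤ K * ‖x‖ := fun x => hF.norm_fderiv_apply_le hB hO hz x
  have hD1 : ∀ x, ‖x - D x‖ ≤ b * ‖x‖ := by
    intro x
    have := (D - 1).le_opNorm x
    rw [norm_sub_rev]
    simpa using this
  have tri : ∀ (k : V →L[ℝ] V →L[ℝ] V →L[ℝ] ℝ) (x y t : V), |k x y t| ≤ ‖k‖ * ‖x‖ * ‖y‖ * ‖t‖ := by
    intro k x y t
    calc |k x y t| ≤ ‖k x y‖ * ‖t‖ := (k x y).le_opNorm t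
      _ ≤ (‖k x‖ * ‖y‖) * ‖t‖ := by gcongr; exact (k x).le_opNorm y
      _ ≤ ((‖k‖ * ‖x‖) * ‖y‖) * ‖t‖ := by gcongr; exact k.le_opNorm x
  have e : g w u v - h (D w) (D u) (D v) = (g - h) w u v + h (w - D w) u v + h (D w) (u - D u) v +
      h (D w) (D u) (v - D v) := by
    simp only [sub_apply, map_sub]
    ring
  rw [e]
  have t1 := tri (g - h) w u v
  have t2 := tri h (w - D w) u v
  have t3 := tri h (D w) (u - D u) v
  have t4 := tri h (D w) (D u) (v - D v)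
  set X := ‖w‖ with hX
  set Y := ‖u‖ with hY
  set Z := ‖v‖ with hZ
  have hX0 : 0 ≤ X := norm_nonneg _
  have hY0 : 0 ≤ Y := norm_nonneg _
  have hZ0 : 0 ≤ Z := norm_nonneg _
  have s1 : |(g - h) w u v| ≤ C * a * X * Y * Z := t1.trans (by gcongr)
  have s2 : |h (w - D w) u v| ≤ C * (b * X) * Y * Z := t2.trans (by
    gcongr; exact hD1 w)
  have s3 : |h (D w) (u - D u) v| ≤ C * (K * X) * (b * Y) * Z := t3.trans (by
    gcongr
    · exact hDb w
    · exact hD1 u)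
  have s4 : |h (D w) (D u) (v - D v)| ≤ C * (K * X) * (K * Y) * (b * Z) := t4.trans (by
    gcongr
    · exact hDb w
    · exact hDb u
    · exact hD1 v)
  have s5 : |(g - h) w u v + h (w - D w) u v + h (D w) (u - D u) v + h (D w) (D u) (v - D v)| ≤
      C * a * X * Y * Z + C * (b * X) * Y * Z + C * (K * X) * (b * Y) * Z +
        C * (K * X) * (K * Y) * (b * Z) := by
    refine (abs_add_le _ _).trans (add_le_add ?_ s4)
    refine (abs_add_le _ _).trans (add_le_add ?_ s3)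
    exact (abs_add_le _ _).trans (add_le_add s1 s2)
  refine s5.trans ?_
  have hP : 0 ≤ C * X * Y * Z := by positivity
  have e2 : C * a * X * Y * Z + C * (b * X) * Y * Z + C * (K * X) * (b * Y) * Z +
        C * (K * X) * (K * Y) * (b * Z) = (C * X * Y * Z) * (a + b * (1 + K + K ^ 2)) := by ring
  have e3 : C * (1 + K) ^ 3 * (a + b) * X * Y * Z = (C * X * Y * Z) * ((1 + K) ^ 3 * (a + b)) := by
    ring
  rw [e2, e3]
  apply mul_le_mul_of_nonneg_left _ hP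
  have q1 : 0 ≤ a * K := by positivity
  have q2 : 0 ≤ a * K ^ 2 := by positivity
  have q3 : 0 ≤ a * K ^ 3 := by positivity
  have q4 : 0 ≤ b * K := by positivity
  have q5 : 0 ≤ b * K ^ 2 := by positivity
  have q6 : 0 ≤ b * K ^ 3 := by positivity
  nlinarith [q1, q2, q3, q4, q5, q6]

/-- Koszul's formula -/
lemma Iso.koszul (hB : Bds G S c C) (hF : Iso G O S F) (hO : O ⊆ S) (hOo : IsOpen O) {z : V}
    (hz : z ∈ O) (w u v : V) :
    2 * G (F z) (fderiv ℝ (fderiv ℝ F) z w u) (fderiv ℝ F z v) =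
    (fderiv ℝ G z w u v - fderiv ℝ G (F z) (fderiv ℝ F z w) (fderiv ℝ F z u) (fderiv ℝ F z v)) +
    (fderiv ℝ G z u w v - fderiv ℝ G (F z) (fderiv ℝ F z u) (fderiv ℝ F z w) (fderiv ℝ F z v)) -
    (fderiv ℝ G z v w u - fderiv ℝ G (F z) (fderiv ℝ F z v) (fderiv ℝ F z w) (fderiv ℝ F z u)) := by
  have h1 := hF.deriv_eq hB hO hOo hz w u v
  have h2 := hF.deriv_eq hB hO hOo hz u w v
  have h3 := hF.deriv_eq hB hO hOo hz v w u
  have s1 := hF.symm2 hz u w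
  have s2 := hF.symm2 hz v w
  have s3 := hF.symm2 hz v u
  have hS := hB.symm _ (hF.maps z hz)
  rw [s1, hS (fderiv ℝ F z w)] at h2
  rw [s2, s3, hS (fderiv ℝ F z w)] at h3
  rw [hS (fderiv ℝ F z u)] at h1
  linarith

/-- the second derivative is bounded by the `1`-jet of `F - id` -/
lemma Iso.norm_snd_le (hB : Bds G S c C) (hF : Iso G O S F) (hO : O ⊆ S) (hOo : IsOpen O)
    (hsurj : ∀ z ∈ O, Function.Surjective (fderiv ℝ F z)) {z : V} (hz : z ∈ O) :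
    ‖fderiv ℝ (fderiv ℝ F) z‖ ≤ (2 * C * (1 + √(C / c)) ^ 4 / c) *
      (‖F z - z‖ + ‖fderiv ℝ F z - 1‖) := by
  set K := √(C / c) with hK
  have hK0 : 0 ≤ K := Real.sqrt_nonneg _
  have hC := hB.C_pos
  have hc := hB.c_pos
  set e := ‖F z - z‖ + ‖fderiv ℝ F z - 1‖ with he
  have he0 : 0 ≤ e := by positivity
  refine ContinuousLinearMap.opNorm_le_bound _ (by positivity) fun w => ?_
  refine ContinuousLinearMap.opNorm_le_bound _ (by positivity) fun u => ?_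
  set X := fderiv ℝ (fderiv ℝ F) z w u with hX
  obtain ⟨v, hv⟩ := hsurj z hz X
  have h1 := hF.koszul hB hO hOo hz w u v
  rw [hv, ← hX] at h1
  have h2 := hB.lower (F z) (hF.maps z hz) X
  have r1 := hF.rhs_le hB hO hz w u v
  have r2 := hF.rhs_le hB hO hz u w v
  have r3 := hF.rhs_le hB hO hz v w u
  rw [hv] at r1 r2 r3
  have hvn : ‖v‖ ≤ K * ‖X‖ := by
    have := hF.le_norm_fderiv_apply hB hO hz v
    rwa [hv] at this
  set P := C * (1 + K) ^ 3 * e with hP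
  have hP0 : 0 ≤ P := by positivity
  have a1 := (abs_le.1 r1).2
  have a2 := (abs_le.1 r2).2
  have a3 := (abs_le.1 r3).1
  have h3 : 2 * (c * ‖X‖ ^ 2) ≤ 3 * (P * ‖w‖ * ‖u‖ * ‖v‖) := by
    nlinarith
  have h4 : 2 * (c * ‖X‖ ^ 2) ≤ 3 * (P * ‖w‖ * ‖u‖ * (K * ‖X‖)) := by
    refine h3.trans ?_
    gcongr
  rcases (norm_nonneg X).eq_or_lt with h0 | h0
  · rw [← h0]; positivity
  have h5 : 2 * c * ‖X‖ ≤ 3 * P * K * ‖w‖ * ‖u‖ := by
    have : (2 * c * ‖X‖) * ‖X‖ ≤ (3 * P * K * ‖w‖ * ‖u‖) * ‖X‖ := by nlinarith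
    exact le_of_mul_le_mul_right this h0
  have h6 : 3 * P * K ≤ 4 * C * (1 + K) ^ 4 * e := by
    rw [hP]
    have hK1 : K ≤ 1 + K := by linarith
    have : C * (1 + K) ^ 3 * e * K ≤ C * (1 + K) ^ 3 * e * (1 + K) := by gcongr
    nlinarith [show 0 ≤ C * (1 + K) ^ 3 * e * (1 + K) by positivity]
  have h7 : 2 * c * ‖X‖ ≤ (4 * C * (1 + K) ^ 4 * e) * ‖w‖ * ‖u‖ := by
    refine h5.trans ?_
    gcongr
  have h8 : 2 * C * (1 + K) ^ 4 / c * e * ‖w‖ * ‖u‖ =
      ((4 * C * (1 + K) ^ 4 * e) * ‖w‖ * ‖u‖) / (2 * c) := by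
    field_simp; ring
  rw [h8, le_div_iff₀ (by positivity)]
  linarith

end Pool.Agent.K4H32.LCP
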