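import Pool.Agent.K4H32.LCP.Chart

set_option autoImplicit false
set_option maxSynthPendingDepth 3
set_option linter.unusedSectionVars false

/-!
# A Riemannian metric in a chart
-/

namespace Pool.Agent.K4H32.LCP

open Set Filter Topology Metric Manifold Bundle
open scoped ContDiff

variable {E : Type*} [NormedAddCommGroup E] [NormedSpace ℝ E] [FiniteDimensional ℝ E]
  {N : Type*} [MetricSpace N] [ChartedSpace E N] [IsManifold 𝓘(ℝ, E) ∞ N]
  [RiemannianBundle (fun (x : N) ↦ TangentSpace 𝓘(ℝ, E) x)]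
  [IsContMDiffRiemannianBundle 𝓘(ℝ, E) ∞ E (fun (x : N) ↦ TangentSpace 𝓘(ℝ, E) x)]

/-- the inner product of two tangent vectors at `y`, as a function on the model space -/
noncomputable def gN (y : N) (u v : E) : ℝ :=
  inner ℝ (show TangentSpace 𝓘(ℝ, E) y from u) (show TangentSpace 𝓘(ℝ, E) y from v)

/-- the derivative of the inverse of the chart at `y0` -/
noncomputable def chA (y0 : N) (z : E) : E →L[ℝ] E :=
  mfderiv 𝓘(ℝ, E) 𝓘(ℝ, E) (extChartAt 𝓘(ℝ, E) y0).symm z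

lemma gN_add_left (y : N) (u u' v : E) : gN y (u + u') v = gN y u v + gN y u' v :=
  inner_add_left (𝕜 := ℝ) (show TangentSpace 𝓘(ℝ, E) y from u)
    (show TangentSpace 𝓘(ℝ, E) y from u') (show TangentSpace 𝓘(ℝ, E) y from v)

lemma gN_symm (y : N) (u v : E) : gN y u v = gN y v u :=
  real_inner_comm (show TangentSpace 𝓘(ℝ, E) y from v) (show TangentSpace 𝓘(ℝ, E) y from u)

lemma gN_add_right (y : N) (u v v' : E) : gN y u (v + v') = gN y u v + gN y u v' := by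
  rw [gN_symm, gN_add_left, gN_symm y v, gN_symm y v']

lemma gN_smul_left (y : N) (r : ℝ) (u v : E) : gN y (r • u) v = r * gN y u v := by
  have := real_inner_smul_left (show TangentSpace 𝓘(ℝ, E) y from u)
    (show TangentSpace 𝓘(ℝ, E) y from v) r
  exact this

lemma gN_smul_right (y : N) (r : ℝ) (u v : E) : gN y u (r • v) = r * gN y u v := by
  rw [gN_symm, gN_smul_left, gN_symm]

lemma gN_self (y : N) (u : E) : gN y u u = ‖(show TangentSpace 𝓘(ℝ, E) y from u)‖ ^ 2 :=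
  real_inner_self_eq_norm_sq _

lemma gN_pos (y : N) {u : E} (hu : u ≠ 0) : 0 < gN y u u := by
  rw [gN_self]
  have h : (show TangentSpace 𝓘(ℝ, E) y from u) ≠ 0 := hu
  have := norm_pos_iff.2 h
  positivity

/-- the bilinear form at `y` -/
noncomputable def gL (y : N) : E →ₗ[ℝ] E →ₗ[ℝ] ℝ :=
  LinearMap.mk₂ ℝ (gN y) (gN_add_left y) (fun r u v => gN_smul_left y r u v)
    (gN_add_right y) (fun r u v => gN_smul_right y r u v)

/-- the metric in the chart at `y0` -/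
noncomputable def chG (y0 : N) (z : E) : E →L[ℝ] E →L[ℝ] ℝ :=
  LinearMap.toContinuousLinearMap
    ((LinearMap.toContinuousLinearMap (𝕜 := ℝ) (E := E) (F' := ℝ)).toLinearMap ∘ₗ
      ((gL ((extChartAt 𝓘(ℝ, E) y0).symm z)).compl₁₂ (chA y0 z : E →ₗ[ℝ] E)
        (chA y0 z : E →ₗ[ℝ] E)))

lemma chG_apply (y0 : N) (z u v : E) :
    chG y0 z u v = gN ((extChartAt 𝓘(ℝ, E) y0).symm z) (chA y0 z u) (chA y0 z v) := rfl

lemma isOpen_tgt (y0 : N) : IsOpen (extChartAt 𝓘(ℝ, E) y0).target :=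
  isOpen_extChartAt_target y0

lemma contMDiffOn_symm (y0 : N) : ContMDiffOn 𝓘(ℝ, E) 𝓘(ℝ, E) ∞ (extChartAt 𝓘(ℝ, E) y0).symm
    (extChartAt 𝓘(ℝ, E) y0).target := contMDiffOn_extChartAt_symm y0

/-- smoothness of the metric in the chart -/
lemma contDiffOn_chG (y0 : N) : ContDiffOn ℝ ∞ (chG y0) (extChartAt 𝓘(ℝ, E) y0).target := by
  rw [contDiffOn_clm_apply]
  intro u
  rw [contDiffOn_clm_apply]
  intro v
  rw [← contMDiffOn_iff_contDiffOn]
  have hsec : ∀ u : E, ContMDiffOn 𝓘(ℝ, E) (𝓘(ℝ, E).tangent) ∞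
      (fun z : E => (⟨(extChartAt 𝓘(ℝ, E) y0).symm z, chA y0 z u⟩ : TangentBundle 𝓘(ℝ, E) N))
      (extChartAt 𝓘(ℝ, E) y0).target := by
    intro u
    have h1 := (contMDiffOn_symm (E := E) y0).contMDiffOn_tangentMapWithin (m := ∞) (by simp)
      (isOpen_tgt y0).uniqueMDiffOn
    have h2 : ContMDiffOn 𝓘(ℝ, E) (𝓘(ℝ, E).tangent) ∞
        (fun z : E => (⟨z, u⟩ : TangentBundle 𝓘(ℝ, E) E)) (extChartAt 𝓘(ℝ, E) y0).target := by
      intro z _
      have := (contMDiffAt_vectorSpace_iff_contDiffAt (𝕜 := ℝ) (E := E) (n := ∞)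
        (V := fun x => (show TangentSpace 𝓘(ℝ, E) x from u)) (x := z)).2 contDiffAt_const
      exact this.contMDiffWithinAt
    have h3 := h1.comp h2 (fun z hz => hz)
    refine h3.congr fun z hz => ?_
    simp only [Function.comp_apply, tangentMapWithin]
    rw [mfderivWithin_of_isOpen (isOpen_tgt y0) hz]
    rfl
  have := ContMDiffOn.inner_bundle (IB := 𝓘(ℝ, E)) (F := E) (n := ∞)
    (E := fun (x : N) ↦ TangentSpace 𝓘(ℝ, E) x) (b := (extChartAt 𝓘(ℝ, E) y0).symm)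
    (v := fun z => (show TangentSpace 𝓘(ℝ, E) ((extChartAt 𝓘(ℝ, E) y0).symm z) from chA y0 z u))
    (w := fun z => (show TangentSpace 𝓘(ℝ, E) ((extChartAt 𝓘(ℝ, E) y0).symm z) from chA y0 z v))
    (hsec u) (hsec v)
  exact this

lemma mdiffAt_symm (y0 : N) {z : E} (hz : z ∈ (extChartAt 𝓘(ℝ, E) y0).target) :
    MDifferentiableAt 𝓘(ℝ, E) 𝓘(ℝ, E) (extChartAt 𝓘(ℝ, E) y0).symm z :=
  ((contMDiffOn_symm (E := E) y0).contMDiffAt ((isOpen_tgt (E := E) y0).mem_nhds hz)).mdifferentiableAt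
    (by simp)

lemma mdiffAt_chart (y0 : N) {y : N} (hy : y ∈ (extChartAt 𝓘(ℝ, E) y0).source) :
    MDifferentiableAt 𝓘(ℝ, E) 𝓘(ℝ, E) (extChartAt 𝓘(ℝ, E) y0) y :=
  (contMDiffAt_extChartAt' (n := ∞) (by simpa using hy)).mdifferentiableAt (by simp)

/-- the derivative of the chart -/
noncomputable def chD (y0 y : N) : E →L[ℝ] E :=
  mfderiv 𝓘(ℝ, E) 𝓘(ℝ, E) (extChartAt 𝓘(ℝ, E) y0) y

lemma chD_chA (y0 : N) {z : E} (hz : z ∈ (extChartAt 𝓘(ℝ, E) y0).target) (u : E) :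
    chD y0 ((extChartAt 𝓘(ℝ, E) y0).symm z) (chA y0 z u) = u := by
  have h1 := mdiffAt_symm (E := E) y0 hz
  have h2 := mdiffAt_chart (E := E) y0 ((extChartAt 𝓘(ℝ, E) y0).map_target hz)
  have h3 : (extChartAt 𝓘(ℝ, E) y0 ∘ (extChartAt 𝓘(ℝ, E) y0).symm) =ᶠ[𝓝 z] id := by
    filter_upwards [(isOpen_tgt (E := E) y0).mem_nhds hz] with z' hz'
    exact (extChartAt 𝓘(ℝ, E) y0).right_inv hz'
  have h4 := mfderiv_comp z h2 h1
  rw [h3.mfderiv_eq, mfderiv_id] at h4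
  have h5 := congrArg (fun L : E →L[ℝ] E => L u) h4
  exact h5.symm

lemma chA_inj (y0 : N) {z : E} (hz : z ∈ (extChartAt 𝓘(ℝ, E) y0).target) {u : E} (hu : u ≠ 0) :
    chA y0 z u ≠ 0 := by
  intro h
  have := chD_chA (E := E) y0 hz u
  rw [h, map_zero] at this
  exact hu this.symm

/-- a map in the chart at `y0` -/
noncomputable def chF (y0 : N) (f : N → N) (z : E) : E :=
  extChartAt 𝓘(ℝ, E) y0 (f ((extChartAt 𝓘(ℝ, E) y0).symm z))

lemma contMDiffAt_chF (y0 : N) {f : N → N} (hf : ContMDiff 𝓘(ℝ, E) 𝓘(ℝ, E) ∞ f) {z : E}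
    (hz : z ∈ (extChartAt 𝓘(ℝ, E) y0).target)
    (hfz : f ((extChartAt 𝓘(ℝ, E) y0).symm z) ∈ (extChartAt 𝓘(ℝ, E) y0).source) :
    ContMDiffAt 𝓘(ℝ, E) 𝓘(ℝ, E) ∞ (chF (E := E) y0 f) z := by
  have h1 : ContMDiffAt 𝓘(ℝ, E) 𝓘(ℝ, E) ∞ (extChartAt 𝓘(ℝ, E) y0).symm z :=
    (contMDiffOn_symm (E := E) y0).contMDiffAt ((isOpen_tgt (E := E) y0).mem_nhds hz)
  have h2 : ContMDiffAt 𝓘(ℝ, E) 𝓘(ℝ, E) ∞ (extChartAt 𝓘(ℝ, E) y0)
      (f ((extChartAt 𝓘(ℝ, E) y0).symm z)) :=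
    contMDiffAt_extChartAt' (n := ∞) (by simpa using hfz)
  exact h2.comp z ((hf _).comp z h1)

/-- the derivative of `f` as a map of the model space -/
noncomputable def dN (f : N → N) (y : N) : E →L[ℝ] E := mfderiv 𝓘(ℝ, E) 𝓘(ℝ, E) f y

lemma chA_fderiv_chF (y0 : N) {f : N → N} (hf : ContMDiff 𝓘(ℝ, E) 𝓘(ℝ, E) ∞ f) {z : E}
    (hz : z ∈ (extChartAt 𝓘(ℝ, E) y0).target)
    (hfz : f ((extChartAt 𝓘(ℝ, E) y0).symm z) ∈ (extChartAt 𝓘(ℝ, E) y0).source) (u : E) :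
    chA y0 (chF (E := E) y0 f z) (fderiv ℝ (chF (E := E) y0 f) z u) =
      dN f ((extChartAt 𝓘(ℝ, E) y0).symm z) (chA y0 z u) := by
  have hF := (contMDiffAt_chF (E := E) y0 hf hz hfz).mdifferentiableAt (by simp)
  have hFz : chF (E := E) y0 f z ∈ (extChartAt 𝓘(ℝ, E) y0).target :=
    (extChartAt 𝓘(ℝ, E) y0).map_source hfz
  have h1 := mdiffAt_symm (E := E) y0 hz
  have h2 := mdiffAt_symm (E := E) y0 hFz
  have h3 : MDifferentiableAt 𝓘(ℝ, E) 𝓘(ℝ, E) f ((extChartAt 𝓘(ℝ, E) y0).symm z) :=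
    (hf _).mdifferentiableAt (by simp)
  have h4 : ((extChartAt 𝓘(ℝ, E) y0).symm ∘ chF (E := E) y0 f) =ᶠ[𝓝 z]
      (f ∘ (extChartAt 𝓘(ℝ, E) y0).symm) := by
    have hc : ContinuousAt (f ∘ (extChartAt 𝓘(ℝ, E) y0).symm) z :=
      ContinuousAt.comp hf.continuous.continuousAt h1.continuousAt
    have hs : (extChartAt 𝓘(ℝ, E) y0).source ∈ 𝓝 ((f ∘ (extChartAt 𝓘(ℝ, E) y0).symm) z) :=
      (isOpen_extChartAt_source y0).mem_nhds hfz
    filter_upwards [hc hs] with z' hz'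
    exact (extChartAt 𝓘(ℝ, E) y0).left_inv hz'
  have h5 := mfderiv_comp z h2 hF
  have h6 := mfderiv_comp z h3 h1
  rw [h4.mfderiv_eq, h6, mfderiv_eq_fderiv] at h5
  have h7 := congrArg (fun L : E →L[ℝ] E => L u) h5
  exact h7.symm

end Pool.Agent.K4H32.LCP
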