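import Pool.Agent.K4H32.LCP.Good

set_option autoImplicit false
set_option linter.unusedSectionVars false

/-!
# Left-normed commutators and a commutation lemma
-/

namespace Pool.Agent.K4H32.LCP

open Set Filter Topology Metric

section Alg

variable {G : Type*} [Group G]

/-- left-normed commutators of weight `k + 1` in the letters `S` -/
inductive LN (S : Set G) : ℕ → G → Prop
  | base {s : G} (hs : s ∈ S) : LN S 0 s
  | step {k : ℕ} {s w : G} (hs : s ∈ S) (hw : LN S k w) : LN S (k + 1) (s * w * s⁻¹ * w⁻¹)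

lemma LN.map {G' : Type*} [Group G'] (φ : G →* G') {S : Set G} {k : ℕ} {g : G'}
    (h : LN (φ '' S) k g) : ∃ w, LN S k w ∧ φ w = g := by
  induction h with
  | base hs =>
    obtain ⟨s, hs, rfl⟩ := hs
    exact ⟨s, LN.base hs, rfl⟩
  | step hs _ ih =>
    obtain ⟨s, hs, rfl⟩ := hs
    obtain ⟨w, hw, rfl⟩ := ih
    exact ⟨_, LN.step hs hw, by simp⟩

lemma LN.eq_one {S : Set G} {k0 : ℕ} (h0 : ∀ g, LN S k0 g → g = 1) :
    ∀ (j : ℕ) (g : G), LN S (k0 + j) g → g = 1 := by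
  intro j
  induction j with
  | zero => exact h0
  | succ j ih =>
    intro g hg
    rw [← add_assoc] at hg
    cases hg with
    | step hs hw =>
      rw [ih _ hw]; simp

/-- the descending central series -/
def Ak (S : Set G) (k : ℕ) : Subgroup G := Subgroup.closure {g | ∃ j, k ≤ j ∧ LN S j g}

lemma Ak_anti (S : Set G) {k l : ℕ} (h : k ≤ l) : Ak S l ≤ Ak S k := by
  refine Subgroup.closure_mono ?_
  rintro g ⟨j, hj, hg⟩
  exact ⟨j, h.trans hj, hg⟩

lemma Ak_conj {S : Set G} (_hS : ∀ s ∈ S, s⁻¹ ∈ S) {k : ℕ} {s w : G} (hs : s ∈ S)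
    (hw : w ∈ Ak S k) : s * w * s⁻¹ ∈ Ak S k := by
  induction hw using Subgroup.closure_induction with
  | mem w hw =>
    obtain ⟨j, hj, hw⟩ := hw
    have h1 : s * w * s⁻¹ * w⁻¹ ∈ Ak S k :=
      Subgroup.subset_closure ⟨j + 1, by omega, LN.step hs hw⟩
    have h2 : w ∈ Ak S k := Subgroup.subset_closure ⟨j, hj, hw⟩
    have h3 := (Ak S k).mul_mem h1 h2
    simpa using h3
  | one => simp
  | mul x y _ _ hx hy =>
    have := (Ak S k).mul_mem hx hy
    have e : s * x * s⁻¹ * (s * y * s⁻¹) = s * (x * y) * s⁻¹ := by group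
    rwa [e] at this
  | inv x _ hx =>
    have := (Ak S k).inv_mem hx
    have e : (s * x * s⁻¹)⁻¹ = s * x⁻¹ * s⁻¹ := by group
    rwa [e] at this

lemma Ak_conj' {S : Set G} (hS : ∀ s ∈ S, s⁻¹ ∈ S) {k : ℕ} {h w : G}
    (hh : h ∈ Subgroup.closure S) (hw : w ∈ Ak S k) : h * w * h⁻¹ ∈ Ak S k := by
  have key : ∀ w ∈ Ak S k, h * w * h⁻¹ ∈ Ak S k ∧ h⁻¹ * w * h ∈ Ak S k := by
    clear hw w
    induction hh using Subgroup.closure_induction with
    | mem s hs =>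
      intro w hw
      refine ⟨Ak_conj hS hs hw, ?_⟩
      have := Ak_conj hS (hS s hs) hw
      rwa [inv_inv] at this
    | one => intro w hw; simpa using hw
    | mul x y _ _ hx hy =>
      intro w hw
      refine ⟨?_, ?_⟩
      · have := (hx _ (hy w hw).1).1
        have e : x * (y * w * y⁻¹) * x⁻¹ = x * y * w * (x * y)⁻¹ := by group
        rwa [e] at this
      · have := (hy _ (hx w hw).2).2
        have e : y⁻¹ * (x⁻¹ * w * x) * y = (x * y)⁻¹ * w * (x * y) := by group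
        rwa [e] at this
    | inv x _ hx =>
      intro w hw
      refine ⟨?_, ?_⟩
      · simpa using (hx w hw).2
      · simpa using (hx w hw).1
  exact (key w hw).1

lemma Ak_zero {S : Set G} : Ak S 0 = Subgroup.closure S := by
  apply le_antisymm
  · refine (Subgroup.closure_le _).2 ?_
    rintro g ⟨j, -, hg⟩
    induction hg with
    | base hs => exact Subgroup.subset_closure hs
    | step hs _ ih =>
      have h1 := Subgroup.subset_closure (k := _) hs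
      exact (Subgroup.closure S).mul_mem ((Subgroup.closure S).mul_mem
        ((Subgroup.closure S).mul_mem h1 ih) ((Subgroup.closure S).inv_mem h1))
        ((Subgroup.closure S).inv_mem ih)
  · refine Subgroup.closure_mono fun s hs => ⟨0, le_rfl, LN.base hs⟩

lemma Ak_comm {S : Set G} (hS : ∀ s ∈ S, s⁻¹ ∈ S) {k : ℕ} {s w : G} (hs : s ∈ S)
    (hw : w ∈ Ak S k) : s * w * s⁻¹ * w⁻¹ ∈ Ak S (k + 1) := by
  induction hw using Subgroup.closure_induction with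
  | mem w hw =>
    obtain ⟨j, hj, hw⟩ := hw
    exact Subgroup.subset_closure ⟨j + 1, by omega, LN.step hs hw⟩
  | one => simp
  | mul x y hx' _ hx hy =>
    have hx0 : x ∈ Subgroup.closure S := by
      rw [← Ak_zero]; exact Ak_anti S (Nat.zero_le k) hx'
    have h1 := Ak_conj' hS hx0 hy
    have h2 := (Ak S (k + 1)).mul_mem hx h1
    have e : s * x * s⁻¹ * x⁻¹ * (x * (s * y * s⁻¹ * y⁻¹) * x⁻¹) =
      s * (x * y) * s⁻¹ * (x * y)⁻¹ := by group
    rwa [e] at h2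
  | inv x hx' hx =>
    have hx0 : x⁻¹ ∈ Subgroup.closure S := by
      refine (Subgroup.closure S).inv_mem ?_
      rw [← Ak_zero]; exact Ak_anti S (Nat.zero_le k) hx'
    have h1 := Ak_conj' hS hx0 ((Ak S (k + 1)).inv_mem hx)
    have e : x⁻¹ * (s * x * s⁻¹ * x⁻¹)⁻¹ * x⁻¹⁻¹ = s * x⁻¹ * s⁻¹ * (x⁻¹)⁻¹ := by group
    rwa [e] at h1

lemma Ak_comm' {S : Set G} (hS : ∀ s ∈ S, s⁻¹ ∈ S) {k : ℕ} {h w : G}
    (hh : h ∈ Subgroup.closure S) (hw : w ∈ Ak S k) : h * w * h⁻¹ * w⁻¹ ∈ Ak S (k + 1) := by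
  induction hh using Subgroup.closure_induction with
  | mem s hs => exact Ak_comm hS hs hw
  | one => simp
  | mul x y hx' _ hx hy =>
    have h1 := Ak_conj' hS hx' hy
    have h2 := (Ak S (k + 1)).mul_mem h1 hx
    have e : x * (y * w * y⁻¹ * w⁻¹) * x⁻¹ * (x * w * x⁻¹ * w⁻¹) =
      x * y * w * (x * y)⁻¹ * w⁻¹ := by group
    rwa [e] at h2
  | inv x hx' hx =>
    have h1 := Ak_conj' hS ((Subgroup.closure S).inv_mem hx') ((Ak S (k + 1)).inv_mem hx)
    have e : x⁻¹ * (x * w * x⁻¹ * w⁻¹)⁻¹ * x⁻¹⁻¹ = x⁻¹ * w * x⁻¹⁻¹ * w⁻¹ := by group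
    rwa [e] at h1

end Alg

section Top

variable {G : Type*} [Group G] [TopologicalSpace G] [IsTopologicalGroup G] [T2Space G]

/-- the closure of the descending central series -/
def Bk (S : Set G) (k : ℕ) : Subgroup G := (Ak S k).topologicalClosure

lemma Bk_comm {S : Set G} (hS : ∀ s ∈ S, s⁻¹ ∈ S) {k : ℕ} {h w : G} (hh : h ∈ Bk S 0)
    (hw : w ∈ Bk S k) : h * w * h⁻¹ * w⁻¹ ∈ Bk S (k + 1) := by
  have hcl : IsClosed (Bk S (k + 1) : Set G) := Subgroup.isClosed_topologicalClosure _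
  have h1 : ∀ w ∈ Ak S k, h * w * h⁻¹ * w⁻¹ ∈ Bk S (k + 1) := by
    intro w hw
    have hc : IsClosed {h : G | h * w * h⁻¹ * w⁻¹ ∈ Bk S (k + 1)} :=
      hcl.preimage (f := fun h : G => h * w * h⁻¹ * w⁻¹) (by fun_prop)
    refine hc.closure_subset_iff.2 ?_ hh
    intro h hh
    refine Subgroup.le_topologicalClosure _ (Ak_comm' hS ?_ hw)
    rw [← Ak_zero]; exact hh
  have hc : IsClosed {w : G | h * w * h⁻¹ * w⁻¹ ∈ Bk S (k + 1)} :=
      hcl.preimage (f := fun w : G => h * w * h⁻¹ * w⁻¹) (by fun_prop)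
  exact hc.closure_subset_iff.2 h1 hw

lemma Bk_anti (S : Set G) {k l : ℕ} (h : k ≤ l) : Bk S l ≤ Bk S k :=
  Subgroup.topologicalClosure_mono (Ak_anti S h)

lemma Bk_conj {S : Set G} (hS : ∀ s ∈ S, s⁻¹ ∈ S) {k : ℕ} {h w : G} (hh : h ∈ Bk S 0)
    (hw : w ∈ Bk S k) : h * w * h⁻¹ ∈ Bk S k := by
  have h1 := Bk_anti S (Nat.le_succ k) (Bk_comm hS hh hw)
  have h2 := (Bk S k).mul_mem h1 hw
  simpa using h2

/-- congruence modulo `Bk S k` -/
def Cg (S : Set G) (k : ℕ) (x y : G) : Prop := x * y⁻¹ ∈ Bk S k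

lemma Cg.refl (S : Set G) (k : ℕ) (x : G) : Cg S k x x := by
  simp [Cg]

lemma Cg.mul {S : Set G} (hS : ∀ s ∈ S, s⁻¹ ∈ S) {k : ℕ} {x y x' y' : G} (hx : x ∈ Bk S 0)
    (h : Cg S k x y) (h' : Cg S k x' y') : Cg S k (x * x') (y * y') := by
  have h1 := Bk_conj hS hx h'
  have h2 := (Bk S k).mul_mem h1 h
  have e : x * (x' * y'⁻¹) * x⁻¹ * (x * y⁻¹) = x * x' * (y * y')⁻¹ := by group
  rwa [e] at h2

lemma Cg.trans {S : Set G} {k : ℕ} {x y z : G} (h : Cg S k x y) (h' : Cg S k y z) :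
    Cg S k x z := by
  have := (Bk S k).mul_mem h h'
  have e : x * y⁻¹ * (y * z⁻¹) = x * z⁻¹ := by group
  rwa [e] at this

lemma Cg.symm {S : Set G} {k : ℕ} {x y : G} (h : Cg S k x y) : Cg S k y x := by
  have := (Bk S k).inv_mem h
  have e : (x * y⁻¹)⁻¹ = y * x⁻¹ := by group
  rwa [e] at this

/-- **Commutation lemma.** -/
theorem commute_of_nilp {S : Set G} (hS : ∀ s ∈ S, s⁻¹ ∈ S) {k0 : ℕ}
    (h0 : ∀ g, LN S k0 g → g = 1) {K L : Subgroup G} (hK : (K : Set G) ⊆ Bk S 0)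
    (hL : (L : Set G) ⊆ Bk S 0)
    (hT : (K : Set G) ⊆ closure {t | t ∈ K ∧ ∃ M : ℕ, 0 < M ∧ t ^ M = 1})
    (hDiv : ∀ n : ℕ, 0 < n → ∀ u ∈ L, ∃ w ∈ L, w ^ n = u) {u v : G} (hu : u ∈ K) (hv : v ∈ L) :
    u * v = v * u := by
  have main : ∀ k, ∀ u ∈ K, ∀ v ∈ L, u * v * u⁻¹ * v⁻¹ ∈ Bk S k := by
    intro k
    induction k with
    | zero =>
      intro u hu v hv
      exact Subgroup.mul_mem _ (Subgroup.mul_mem _ (Subgroup.mul_mem _ (hK hu) (hL hv))
        (Subgroup.inv_mem _ (hK hu))) (Subgroup.inv_mem _ (hL hv))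
    | succ k ih =>
      -- powers on the right
      have hR : ∀ t ∈ K, ∀ w ∈ L, ∀ n : ℕ,
          Cg S (k + 1) (t * w ^ n * t⁻¹ * (w ^ n)⁻¹) ((t * w * t⁻¹ * w⁻¹) ^ n) := by
        intro t ht w hw n
        induction n with
        | zero => simp only [pow_zero]; simpa using Cg.refl S (k + 1) (1 : G)
        | succ n ihn =>
          have c1 : Cg S (k + 1) (w * (t * w ^ n * t⁻¹ * (w ^ n)⁻¹) * w⁻¹)
              (t * w ^ n * t⁻¹ * (w ^ n)⁻¹) := Bk_comm hS (hL hw) (ih t ht _ (L.pow_mem hw n))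
          have c2 := Cg.mul hS (x := t * w * t⁻¹ * w⁻¹)
            (Bk_anti S (Nat.zero_le k) (ih t ht w hw)) (Cg.refl S (k + 1) _) (c1.trans ihn)
          have e1 : t * w * t⁻¹ * w⁻¹ * (w * (t * w ^ n * t⁻¹ * (w ^ n)⁻¹) * w⁻¹) =
              t * w ^ (n + 1) * t⁻¹ * (w ^ (n + 1))⁻¹ := by
            rw [pow_succ']; group
          rw [e1] at c2
          rwa [pow_succ' (t * w * t⁻¹ * w⁻¹) n]
      have hLf : ∀ t ∈ K, ∀ w ∈ L, ∀ n : ℕ,
          Cg S (k + 1) (t ^ n * w * (t ^ n)⁻¹ * w⁻¹) ((t * w * t⁻¹ * w⁻¹) ^ n) := by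
        intro t ht w hw n
        induction n with
        | zero => simp only [pow_zero]; simpa using Cg.refl S (k + 1) (1 : G)
        | succ n ihn =>
          have c1 : Cg S (k + 1) (t * (t ^ n * w * (t ^ n)⁻¹ * w⁻¹) * t⁻¹)
              (t ^ n * w * (t ^ n)⁻¹ * w⁻¹) := Bk_comm hS (hK ht) (ih _ (K.pow_mem ht n) w hw)
          have hm : t * (t ^ n * w * (t ^ n)⁻¹ * w⁻¹) * t⁻¹ ∈ Bk S 0 :=
            Bk_conj hS (hK ht) (Bk_anti S (Nat.zero_le k) (ih _ (K.pow_mem ht n) w hw))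
          have c2 := Cg.mul hS hm (c1.trans ihn) (Cg.refl S (k + 1) (t * w * t⁻¹ * w⁻¹))
          have e1 : t * (t ^ n * w * (t ^ n)⁻¹ * w⁻¹) * t⁻¹ * (t * w * t⁻¹ * w⁻¹) =
              t ^ (n + 1) * w * (t ^ (n + 1))⁻¹ * w⁻¹ := by
            rw [pow_succ']; group
          rw [e1] at c2
          rwa [pow_succ (t * w * t⁻¹ * w⁻¹) n]
      intro u hu v hv
      have hc : IsClosed {u : G | u * v * u⁻¹ * v⁻¹ ∈ Bk S (k + 1)} :=
        (Subgroup.isClosed_topologicalClosure _).preimage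
          (f := fun u : G => u * v * u⁻¹ * v⁻¹) (by fun_prop)
      refine hc.closure_subset_iff.2 ?_ (hT hu)
      rintro t ⟨ht, M, hM, htM⟩
      obtain ⟨w, hw, rfl⟩ := hDiv M hM v hv
      have h1 := hR t ht w hw M
      have h2 := hLf t ht w hw M
      have h3 := h1.trans h2.symm
      rw [htM] at h3
      have h4 : Cg S (k + 1) (t * w ^ M * t⁻¹ * (w ^ M)⁻¹) 1 := by simpa using h3
      have h5 : t * w ^ M * t⁻¹ * (w ^ M)⁻¹ * 1⁻¹ ∈ Bk S (k + 1) := h4
      simpa using h5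
  have hbot : Bk S k0 = ⊥ := by
    have h1 : Ak S k0 = ⊥ := by
      rw [eq_bot_iff, Ak, Subgroup.closure_le]
      rintro g ⟨j, hj, hg⟩
      obtain ⟨i, rfl⟩ := Nat.exists_eq_add_of_le hj
      exact LN.eq_one h0 i g hg
    rw [Bk, h1]
    ext g
    show g ∈ closure ((⊥ : Subgroup G) : Set G) ↔ _
    rw [Subgroup.coe_bot, closure_singleton]
    simp
  have h1 := main k0 u hu v hv
  rw [hbot, Subgroup.mem_bot] at h1
  have : u * v = (u * v * u⁻¹ * v⁻¹) * (v * u) := by group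
  rw [this, h1, one_mul]

end Top

end Pool.Agent.K4H32.LCP
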