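import Pool.Agent.K4H32.LCP.Comm

set_option autoImplicit false
set_option linter.unusedSectionVars false

/-!
# Packing: an element with a fixed point in `N` is trivial
-/

namespace Pool.Agent.K4H32.LCP

open Set Filter Topology Metric

section Prod

variable {G : Type*} [Group G] [TopologicalSpace G] [IsTopologicalGroup G]

/-- the product of two subgroups commuting elementwise -/
def csup (H K : Subgroup G) (h : ∀ u ∈ H, ∀ v ∈ K, Commute u v) : Subgroup G where
  carrier := {g | ∃ u ∈ H, ∃ v ∈ K, g = u * v}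
  one_mem' := ⟨1, H.one_mem, 1, K.one_mem, by simp⟩
  mul_mem' := by
    rintro _ _ ⟨u, hu, v, hv, rfl⟩ ⟨u', hu', v', hv', rfl⟩
    refine ⟨u * u', H.mul_mem hu hu', v * v', K.mul_mem hv hv', ?_⟩
    have := (h u' hu' v hv).eq
    calc u * v * (u' * v') = u * (v * u') * v' := by group
      _ = u * (u' * v) * v' := by rw [this]
      _ = _ := by group
  inv_mem' := by
    rintro _ ⟨u, hu, v, hv, rfl⟩
    refine ⟨u⁻¹, H.inv_mem hu, v⁻¹, K.inv_mem hv, ?_⟩
    rw [mul_inv_rev]
    exact (h _ (H.inv_mem hu) _ (K.inv_mem hv)).eq.symm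

lemma exists_prod (Ks : ℕ → Subgroup G) (hc : ∀ k, IsCompact (Ks k : Set G))
    (hcomm : ∀ k l, ∀ u ∈ Ks k, ∀ v ∈ Ks l, Commute u v) (n : ℕ) :
    ∃ P : Subgroup G, IsCompact (P : Set G) ∧ (∀ k < n, Ks k ≤ P) ∧
      ∀ u, (∀ k < n, ∀ v ∈ Ks k, Commute u v) → ∀ p ∈ P, Commute u p := by
  induction n with
  | zero =>
    refine ⟨⊥, by simp, by simp, fun u _ p hp => ?_⟩
    rw [Subgroup.mem_bot] at hp
    rw [hp]; exact Commute.one_right u
  | succ n ih =>
    obtain ⟨P, hP1, hP2, hP3⟩ := ih
    have hPK : ∀ u ∈ P, ∀ v ∈ Ks n, Commute u v := fun u hu v hv =>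
      (hP3 v (fun k _ w hw => hcomm n k v hv w hw) u hu).symm
    refine ⟨csup P (Ks n) hPK, ?_, ?_, ?_⟩
    · have : (csup P (Ks n) hPK : Set G) = (fun p : G × G => p.1 * p.2) '' ((P : Set G) ×ˢ (Ks n : Set G)) := by
        ext g
        constructor
        · rintro ⟨u, hu, v, hv, rfl⟩
          exact ⟨(u, v), ⟨hu, hv⟩, rfl⟩
        · rintro ⟨⟨u, v⟩, ⟨hu, hv⟩, rfl⟩
          exact ⟨u, hu, v, hv, rfl⟩
      rw [this]
      exact (hP1.prod (hc n)).image continuous_mul
    · intro k hk g hg
      rcases Nat.lt_succ_iff_lt_or_eq.1 hk with h1 | h1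
      · exact ⟨g, hP2 k h1 hg, 1, one_mem _, by simp⟩
      · subst h1
        exact ⟨1, one_mem _, g, hg, by simp⟩
    · rintro u hu _ ⟨p, hp, v, hv, rfl⟩
      exact (hP3 u (fun k hk => hu k (Nat.lt_succ_of_lt hk)) p hp).mul_right
        (hu n (Nat.lt_succ_self n) v hv)

end Prod

section Word

variable {G : Type*} [Group G]

/-- the word `A₀ ^ n₀ ⋯ A_{j-1} ^ n_{j-1}` -/
def wd (A : ℕ → G) (n : ℕ → ℕ) : ℕ → G
  | 0 => 1
  | j + 1 => wd A n j * A j ^ n j

lemma wd_mem (A : ℕ → G) (n : ℕ → ℕ) (j : ℕ) :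
    wd A n j ∈ Subgroup.closure {g | ∃ k < j, g = A k} := by
  induction j with
  | zero => exact one_mem _
  | succ j ih =>
    refine mul_mem (Subgroup.closure_mono ?_ ih) (pow_mem (Subgroup.subset_closure ?_) _)
    · rintro g ⟨k, hk, rfl⟩
      exact ⟨k, by omega, rfl⟩
    · exact ⟨j, by omega, rfl⟩

lemma wd_rel (A : ℕ → G) {n n' : ℕ → ℕ} (j : ℕ) (h : wd A n j = wd A n' j)
    (hne : ∃ k < j, n k ≠ n' k) : ∃ s < j, ∃ e : ℕ, 0 < e ∧
      A s ^ e ∈ Subgroup.closure {g | ∃ k < s, g = A k} := by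
  induction j with
  | zero => obtain ⟨k, hk, _⟩ := hne; omega
  | succ j ih =>
    by_cases hj : n j = n' j
    · have h1 : wd A n j = wd A n' j := by
        have : wd A n j * A j ^ n j = wd A n' j * A j ^ n' j := h
        rw [hj] at this
        exact mul_right_cancel this
      obtain ⟨k, hk, hkn⟩ := hne
      have hkj : k ≠ j := fun h => hkn (by rw [h]; exact hj)
      obtain ⟨s, hs, e, he, hse⟩ := ih h1 ⟨k, by omega, hkn⟩
      exact ⟨s, by omega, e, he, hse⟩
    · have h2 : wd A n j * A j ^ n j = wd A n' j * A j ^ n' j := h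
      have m1 := wd_mem A n j
      have m2 := wd_mem A n' j
      set H := Subgroup.closure {g | ∃ k < j, g = A k} with hH
      refine ⟨j, by omega, ?_⟩
      rcases lt_or_gt_of_ne hj with hlt | hlt
      · refine ⟨n' j - n j, by omega, ?_⟩
        have h3 : A j ^ (n' j - n j) = (wd A n' j)⁻¹ * wd A n j := by
          have h4 : A j ^ n' j = A j ^ (n' j - n j) * A j ^ n j := by
            rw [← pow_add]; congr 1; omega
          rw [h4, ← mul_assoc] at h2
          have h5 := mul_right_cancel h2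
          rw [h5]; group
        rw [h3]
        exact mul_mem (inv_mem m2) m1
      · refine ⟨n j - n' j, by omega, ?_⟩
        have h3 : A j ^ (n j - n' j) = (wd A n j)⁻¹ * wd A n' j := by
          have h4 : A j ^ n j = A j ^ (n j - n' j) * A j ^ n' j := by
            rw [← pow_add]; congr 1; omega
          rw [h4, ← mul_assoc] at h2
          have h5 := mul_right_cancel h2
          rw [← h5]; group
        rw [h3]
        exact mul_mem (inv_mem m1) m2

end Word

variable {E : Type*} [NormedAddCommGroup E] [InnerProductSpace ℝ E] [FiniteDimensional ℝ E]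
variable {N : Type*} [MetricSpace N]
variable {Γ : Type*} [Group Γ] [MulAction Γ E] [MulAction Γ N]
variable {c : Γ →* ℝ} (h : Sim E N c)

include h

lemma Sim.disp_mul {g g' : Γ} (hg : c g = 1) (p0 : E) :
    ‖(g * g') • p0 - p0‖ ≤ ‖g • p0 - p0‖ + ‖g' • p0 - p0‖ := by
  have h1 := h.hE g (g' • p0) p0
  rw [hg, one_mul, dist_eq_norm, dist_eq_norm] at h1
  have h2 : (g * g') • p0 - p0 = (g • g' • p0 - g • p0) + (g • p0 - p0) := by
    rw [mul_smul]; abel
  rw [h2, ← h1, add_comm]
  exact norm_add_le _ _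

lemma Sim.disp_pow {g : Γ} (hg : c g = 1) (p0 : E) (n : ℕ) :
    ‖g ^ n • p0 - p0‖ ≤ n * ‖g • p0 - p0‖ := by
  induction n with
  | zero => simp
  | succ n ih =>
    rw [pow_succ]
    have h1 : c (g ^ n) = 1 := by rw [map_pow, hg, one_pow]
    refine (h.disp_mul h1 p0).trans ?_
    push_cast
    linarith

/-- **Packing.** -/
theorem Sim.trivial_of_good [LocallyCompactSpace N] {β : Γ} (hβ : c β < 1) {p0 : E}
    (hp0 : β • p0 = p0) {x : N} {a : c.ker} (hax : a.1 • x = x) {K : Subgroup (N ≃ᵢ N)}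
    (hK : Good (h.π a) K) : a.1 = 1 := by
  have hβ0 := h.pos β
  have hci : c β * c β⁻¹ = 1 := by rw [← map_mul, mul_inv_cancel, map_one]
  have hck : ∀ k : ℕ, c (β ^ k) * c (β ^ k)⁻¹ = 1 := by
    intro k; rw [← map_mul, mul_inv_cancel, map_one]
  have hca : c a.1 = 1 := a.2
  -- the conjugates
  have hA1 : ∀ k : ℕ, c (β ^ k * a.1 * (β ^ k)⁻¹) = 1 := by
    intro k
    rw [map_mul, map_mul, hca, mul_one, hck]
  let A : ℕ → c.ker := fun k => ⟨β ^ k * a.1 * (β ^ k)⁻¹, hA1 k⟩
  have hAv : ∀ k, (A k).1 = β ^ k * a.1 * (β ^ k)⁻¹ := fun k => rfl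
  have hA0 : A 0 = a := Subtype.ext (by rw [hAv]; simp)
  have hπA : ∀ k, h.π (A k) = h.cj (β ^ k) (h.π a) := by
    intro k
    ext y
    show (β ^ k * a.1 * (β ^ k)⁻¹) • y = β ^ k • a.1 • (β ^ k)⁻¹ • y
    rw [mul_smul, mul_smul]
  set Kk : ℕ → Subgroup (N ≃ᵢ N) := fun k => K.map (h.cj (β ^ k)) with hKk
  have hG : ∀ k, Good (h.π (A k)) (Kk k) := by
    intro k
    rw [hπA]
    exact hK.map _ (h.continuous_cj _)
  -- commutation
  have hAcomm : ∀ k l, A k * A l = A l * A k := by
    intro k l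
    apply Subtype.ext
    have h1 := h.comm hβ hp0 x hK ((β ^ k)⁻¹ * β ^ l)
    show β ^ k * a.1 * (β ^ k)⁻¹ * (β ^ l * a.1 * (β ^ l)⁻¹) =
      β ^ l * a.1 * (β ^ l)⁻¹ * (β ^ k * a.1 * (β ^ k)⁻¹)
    have e1 : β ^ k * a.1 * (β ^ k)⁻¹ * (β ^ l * a.1 * (β ^ l)⁻¹) =
      β ^ k * (a.1 * ((β ^ k)⁻¹ * β ^ l * a.1 * ((β ^ k)⁻¹ * β ^ l)⁻¹)) * (β ^ k)⁻¹ := by group
    have e2 : β ^ l * a.1 * (β ^ l)⁻¹ * (β ^ k * a.1 * (β ^ k)⁻¹) =
      β ^ k * (((β ^ k)⁻¹ * β ^ l * a.1 * ((β ^ k)⁻¹ * β ^ l)⁻¹) * a.1) * (β ^ k)⁻¹ := by group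
    rw [e1, e2, h1]
  have hKcl : ∀ k, (Kk k : Set (N ≃ᵢ N)) ⊆ closure (Subgroup.zpowers (h.π (A k)) : Set (N ≃ᵢ N)) := by
    intro k
    have := (hG k).dense 1 one_pos
    rwa [pow_one] at this
  have hcomm : ∀ k l, ∀ u ∈ Kk k, ∀ v ∈ Kk l, Commute u v := by
    intro k l u hu v hv
    have h1 : Commute (h.π (A k)) (h.π (A l)) := by
      show h.π (A k) * h.π (A l) = h.π (A l) * h.π (A k)
      rw [← map_mul, hAcomm, map_mul]
    have h2 : Commute v (h.π (A k)) := commute_of_mem_closure h1.symm (hKcl l hv)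
    exact commute_of_mem_closure h2.symm (hKcl k hu)
  set M := ‖a.1 • p0 - p0‖ with hM
  have hM0 : 0 ≤ M := norm_nonneg _
  have hdisp : ∀ k, ‖(A k).1 • p0 - p0‖ = c β ^ k * M := fun k => h.disp_conj hp0 a.1 k
  have hdisp' : ∀ k, ‖(A k).1 • p0 - p0‖ ≤ M := by
    intro k
    rw [hdisp]
    have : c β ^ k ≤ 1 := pow_le_one₀ hβ0.le hβ.le
    nlinarith
  obtain ⟨r0, hr0, hd⟩ := h.disc p0 x
  -- the dimension
  set q := Module.finrank ℝ E with hq
  obtain ⟨P, hPc, hPK, -⟩ := exists_prod Kk (fun k => (hG k).compact) hcomm (q + 1)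
  have hPA : ∀ k < q + 1, h.π (A k) ∈ P := fun k hk => hPK k hk (hG k).mem
  set Cx : Set N := (fun f : N ≃ᵢ N => f x) '' (P : Set (N ≃ᵢ N)) with hCx
  have hCxc : IsCompact Cx := hPc.image (continuous_eval x)
  -- the relation
  obtain ⟨s, hs, e, he, hse⟩ : ∃ s < q + 1, ∃ e : ℕ, 0 < e ∧
      A s ^ e ∈ Subgroup.closure {g | ∃ k < s, g = A k} := by
    -- cells in `N`
    obtain ⟨t, htC, htf, htc⟩ := Metric.finite_approx_of_totallyBounded hCxc.totallyBounded
      (r0 / 2) (by positivity)
    set b := stdOrthonormalBasis ℝ E with hb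
    set hh : ℝ := r0 / (q + 1) with hhh
    have hh0 : 0 < hh := by positivity
    obtain ⟨B1, hB1⟩ := exists_nat_gt ((q + 1) * M / hh + 1)
    set L : ℕ := (2 * B1 + 1) ^ q * htf.toFinset.card + 1 with hL
    -- the word of an exponent vector
    let ext : (Fin (q + 1) → Fin (L + 1)) → ℕ → ℕ := fun n k =>
      if hk : k < q + 1 then (n ⟨k, hk⟩ : ℕ) else 0
    have hextL : ∀ n k, ext n k ≤ L := by
      intro n k
      simp only [ext]
      split_ifs with hk
      · have := (n ⟨k, hk⟩).2; omega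
      · exact Nat.zero_le _
    let W : (Fin (q + 1) → Fin (L + 1)) → c.ker := fun n => wd A (ext n) (q + 1)
    have hWP : ∀ n, h.π (W n) ∈ P := by
      intro n
      have h1 := wd_mem A (ext n) (q + 1)
      have h2 : Subgroup.closure {g | ∃ k < q + 1, g = A k} ≤ P.comap h.π := by
        rw [Subgroup.closure_le]
        rintro _ ⟨k, hk, rfl⟩
        exact hPA k hk
      exact h2 h1
    have hWx : ∀ n, (W n).1 • x ∈ Cx := fun n => ⟨h.π (W n), hWP n, rfl⟩
    have hWd : ∀ n, ‖(W n).1 • p0 - p0‖ ≤ (q + 1) * L * M := by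
      intro n
      have key : ∀ j : ℕ, ‖(wd A (ext n) j).1 • p0 - p0‖ ≤ j * L * M := by
        intro j
        induction j with
        | zero =>
          have : (wd A (ext n) 0).1 = 1 := rfl
          rw [this]; simp
        | succ j ih =>
          have e1 : (wd A (ext n) (j + 1)).1 = (wd A (ext n) j).1 * (A j).1 ^ ext n j := rfl
          rw [e1]
          refine (h.disp_mul (wd A (ext n) j).2 p0).trans ?_
          have h1 := (h.disp_pow (hA1 j) p0 (ext n j))
          have h2 : (ext n j : ℝ) ≤ L := by exact_mod_cast hextL n j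
          have h3 : (ext n j : ℝ) * ‖(A j).1 • p0 - p0‖ ≤ L * M := by
            gcongr
            exact hdisp' j
          have h4 : ‖(A j).1 ^ ext n j • p0 - p0‖ ≤ L * M := h1.trans h3
          push_cast
          linarith
      have := key (q + 1)
      push_cast at this
      exact this
    choose! ν hνt hν using fun y (hy : y ∈ Cx) => by
      have h1 := htc hy
      simp only [mem_iUnion, exists_prop] at h1
      exact h1
    let cell : (Fin (q + 1) → Fin (L + 1)) → (Fin q → ℤ) × N := fun n =>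
      (fun i => ⌊inner ℝ (b i) ((W n).1 • p0 - p0) / hh⌋, ν ((W n).1 • x))
    let T : Finset ((Fin q → ℤ) × N) :=
      (Fintype.piFinset fun _ => Finset.Icc (-(L * B1 : ℤ)) (L * B1)) ×ˢ htf.toFinset
    have hbn : ∀ i, ‖b i‖ = 1 := fun i => b.orthonormal.1 i
    have hcell : ∀ n, cell n ∈ T := by
      intro n
      rw [Finset.mem_product]
      refine ⟨?_, ?_⟩
      · rw [Fintype.mem_piFinset]
        intro i
        rw [Finset.mem_Icc]
        have h1 : |inner ℝ (b i) ((W n).1 • p0 - p0)| ≤ (q + 1) * L * M := by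
          have := abs_real_inner_le_norm (b i) ((W n).1 • p0 - p0)
          rw [hbn i, one_mul] at this
          exact this.trans (hWd n)
        have h2 := abs_le.1 h1
        have hL1 : (1 : ℝ) ≤ L := by
          have : 1 ≤ L := by rw [hL]; omega
          exact_mod_cast this
        have h3 : (q + 1) * L * M / hh + 1 ≤ L * B1 := by
          have : (L : ℝ) * ((q + 1) * M / hh + 1) ≤ L * B1 := by gcongr
          have e1 : (L : ℝ) * ((q + 1) * M / hh + 1) = (q + 1) * L * M / hh + L := by ring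
          linarith
        show -(L * B1 : ℤ) ≤ ⌊inner ℝ (b i) ((W n).1 • p0 - p0) / hh⌋ ∧
          ⌊inner ℝ (b i) ((W n).1 • p0 - p0) / hh⌋ ≤ (L * B1 : ℤ)
        constructor
        · rw [Int.le_floor]
          push_cast
          rw [le_div_iff₀ hh0]
          have h4 : (q + 1) * L * M ≤ L * B1 * hh := by
            have : (q + 1) * L * M / hh ≤ L * B1 := by linarith
            rwa [div_le_iff₀ hh0] at this
          linarith
        · have h5 : (⌊inner ℝ (b i) ((W n).1 • p0 - p0) / hh⌋ : ℝ) ≤ L * B1 := by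
            refine (Int.floor_le _).trans ?_
            rw [div_le_iff₀ hh0]
            have h4 : (q + 1) * L * M ≤ L * B1 * hh := by
              have : (q + 1) * L * M / hh ≤ L * B1 := by linarith
              rwa [div_le_iff₀ hh0] at this
            linarith
          exact_mod_cast h5
      · rw [Set.Finite.mem_toFinset]
        exact hνt _ (hWx n)
    have hcard : T.card < (Finset.univ : Finset (Fin (q + 1) → Fin (L + 1))).card := by
      rw [Finset.card_product, Fintype.card_piFinset_const, Int.card_Icc, Finset.card_univ,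
        Fintype.card_pi_const, Fintype.card_fin]
      have e1 : ((L * B1 : ℤ) + 1 - -(L * B1 : ℤ)).toNat = 2 * (L * B1) + 1 := by
        have : (L * B1 : ℤ) + 1 - -(L * B1 : ℤ) = ((2 * (L * B1) + 1 : ℕ) : ℤ) := by
          push_cast; ring
        rw [this, Int.toNat_natCast]
      rw [e1]
      calc (2 * (L * B1) + 1) ^ q * htf.toFinset.card ≤
            ((2 * B1 + 1) * (L + 1)) ^ q * htf.toFinset.card := by
              gcongr
              nlinarith [Nat.zero_le B1, Nat.zero_le L]
        _ = (L + 1) ^ q * ((2 * B1 + 1) ^ q * htf.toFinset.card) := by rw [mul_pow]; ring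
        _ < (L + 1) ^ q * (L + 1) := by
              apply Nat.mul_lt_mul_of_pos_left
              · rw [hL]; omega
              · positivity
        _ = (L + 1) ^ (q + 1) := by rw [pow_succ]
    obtain ⟨n, -, n', -, hnn, hcc⟩ := Finset.exists_ne_map_eq_of_card_lt_of_maps_to hcard
      (f := cell) (fun n _ => hcell n)
    have hcc1 : ∀ i, ⌊inner ℝ (b i) ((W n).1 • p0 - p0) / hh⌋ =
        ⌊inner ℝ (b i) ((W n').1 • p0 - p0) / hh⌋ := fun i => congrFun (congrArg Prod.fst hcc) i
    have hcc2 : ν ((W n).1 • x) = ν ((W n').1 • x) := congrArg Prod.snd hcc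
    -- the two words agree
    have hWW : W n = W n' := by
      have hWc : c (W n').1 = 1 := (W n').2
      have h1 : (W n').1⁻¹ * (W n).1 = 1 := by
        apply hd
        · -- in `E`
          have e1 : ‖((W n').1⁻¹ * (W n).1) • p0 - p0‖ = ‖(W n).1 • p0 - (W n').1 • p0‖ := by
            have := h.hE (W n').1 (((W n').1⁻¹ * (W n).1) • p0) p0
            rw [smul_smul, mul_inv_cancel_left, hWc, one_mul, dist_eq_norm, dist_eq_norm] at this
            exact this.symm
          rw [e1]
          set u := (W n).1 • p0 - (W n').1 • p0 with hu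
          have h2 : ∀ i, |inner ℝ (b i) u| ≤ hh := by
            intro i
            have h3 : u = ((W n).1 • p0 - p0) - ((W n').1 • p0 - p0) := by rw [hu]; abel
            rw [h3, inner_sub_right]
            have h4 := Int.abs_sub_lt_one_of_floor_eq_floor (hcc1 i)
            rw [← sub_div, abs_div, abs_of_pos hh0, div_lt_one hh0] at h4
            exact h4.le
          have h5 : u = ∑ i, inner ℝ (b i) u • b i := (b.sum_repr' u).symm
          calc ‖u‖ = ‖∑ i, inner ℝ (b i) u • b i‖ := by rw [← h5]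
            _ ≤ ∑ i, ‖inner ℝ (b i) u • b i‖ := norm_sum_le _ _
            _ ≤ ∑ _i : Fin q, hh := by
                refine Finset.sum_le_sum fun i _ => ?_
                rw [norm_smul, hbn i, mul_one]
                exact h2 i
            _ = q * hh := by rw [Finset.sum_const, Finset.card_univ, Fintype.card_fin, nsmul_eq_mul]
            _ < r0 := by
                rw [hhh, mul_div_assoc', div_lt_iff₀ (by positivity)]
                nlinarith
        · -- in `N`
          have e1 : dist (((W n').1⁻¹ * (W n).1) • x) x = dist ((W n).1 • x) ((W n').1 • x) := by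
            have := h.hN (W n').1 (((W n').1⁻¹ * (W n).1) • x) x
            rw [smul_smul, mul_inv_cancel_left, hWc, one_mul] at this
            exact this.symm
          rw [e1]
          have h2 := mem_ball.1 (hν _ (hWx n))
          have h3 := mem_ball.1 (hν _ (hWx n'))
          rw [← hcc2] at h3
          have h4 := dist_triangle_right ((W n).1 • x) ((W n').1 • x) (ν ((W n).1 • x))
          linarith
      exact Subtype.ext (inv_mul_eq_one.1 h1).symm
    refine wd_rel A (q + 1) hWW ?_
    by_contra hcon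
    push Not at hcon
    apply hnn
    funext k
    have := hcon k.1 k.2
    simp only [ext, k.2, dif_pos] at this
    exact Fin.ext this
  -- the closed subgroup
  set H : Subgroup (N ≃ᵢ N) := Subgroup.closure {g | ∃ k < s, g = h.π (A k)} with hH
  set C := H.topologicalClosure with hC
  have hAsC : h.π (A s) ∈ C := by
    have h1 : h.π (A s) ^ e ∈ H := by
      have h2 : Subgroup.closure {g | ∃ k < s, g = A k} ≤ H.comap h.π := by
        rw [Subgroup.closure_le]
        rintro _ ⟨k, hk, rfl⟩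
        exact Subgroup.subset_closure ⟨k, hk, rfl⟩
      have h3 := h2 hse
      rwa [Subgroup.mem_comap, map_pow] at h3
    have h2 := (hG s).dense e he (hG s).mem
    have h3 : closure (Subgroup.zpowers (h.π (A s) ^ e) : Set (N ≃ᵢ N)) ⊆ closure (H : Set (N ≃ᵢ N)) := by
      refine closure_mono ?_
      have : Subgroup.zpowers (h.π (A s) ^ e) ≤ H := by
        rw [Subgroup.zpowers_le]; exact h1
      exact this
    exact h3 h2
  have hstep : ∀ k, h.cj β (h.π (A k)) = h.π (A (k + 1)) := by
    intro k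
    ext y
    show β • (β ^ k * a.1 * (β ^ k)⁻¹) • β⁻¹ • y = (β ^ (k + 1) * a.1 * (β ^ (k + 1))⁻¹) • y
    rw [smul_smul, smul_smul]
    congr 1
    rw [pow_succ']; group
  have hCC : ∀ f ∈ C, h.cj β f ∈ C := by
    intro f hf
    have h1 : H ≤ C.comap (h.cj β) := by
      rw [hH, Subgroup.closure_le]
      rintro _ ⟨k, hk, rfl⟩
      show h.cj β (h.π (A k)) ∈ C
      rw [hstep]
      rcases Nat.lt_or_ge (k + 1) s with h2 | h2
      · exact Subgroup.le_topologicalClosure _ (Subgroup.subset_closure ⟨k + 1, h2, rfl⟩)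
      · have : k + 1 = s := by omega
        rw [this]; exact hAsC
    have h2 : IsClosed ((h.cj β) ⁻¹' (C : Set (N ≃ᵢ N))) :=
      (Subgroup.isClosed_topologicalClosure _).preimage (h.continuous_cj β)
    exact h2.closure_subset_iff.2 h1 hf
  have hAllC : ∀ k, h.π (A k) ∈ C := by
    intro k
    induction k with
    | zero =>
      rcases Nat.eq_zero_or_pos s with h1 | h1
      · rw [← h1]; exact hAsC
      · exact Subgroup.le_topologicalClosure _ (Subgroup.subset_closure ⟨0, h1, rfl⟩)
    | succ k ih =>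
      rw [← hstep]; exact hCC _ ih
  have hCP : (C : Set (N ≃ᵢ N)) ⊆ P := by
    refine hPc.isClosed.closure_subset_iff.2 ?_
    have : H ≤ P := by
      rw [hH, Subgroup.closure_le]
      rintro _ ⟨k, hk, rfl⟩
      exact hPA k (by omega)
    exact this
  -- the end
  have hKc : IsCompact (closedBall p0 M ×ˢ Cx) := (isCompact_closedBall p0 M).prod hCxc
  have hfin := h.pd _ hKc
  have hmem : ∀ k, (A k).1 ∈ {g : Γ | ∃ p ∈ closedBall p0 M ×ˢ Cx,
      (g • p.1, g • p.2) ∈ closedBall p0 M ×ˢ Cx} := by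
    intro k
    refine ⟨(p0, x), ⟨mem_closedBall_self hM0, 1, P.one_mem, rfl⟩, ?_, ?_⟩
    · rw [mem_closedBall, dist_eq_norm]; exact hdisp' k
    · exact ⟨h.π (A k), hCP (hAllC k), rfl⟩
  have hninj : ¬ Function.Injective fun k => (A k).1 := by
    intro hinj
    have h1 : (range fun k => (A k).1).Infinite := infinite_range_of_injective hinj
    exact h1 (hfin.subset (range_subset_iff.2 hmem))
  have hMz : M = 0 := by
    by_contra hMne
    apply hninj
    intro k l hkl
    have hkl' : (A k).1 = (A l).1 := hkl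
    have h1 := hdisp k
    rw [hkl', hdisp l] at h1
    have h2 : c β ^ l = c β ^ k := mul_right_cancel₀ hMne h1
    exact (pow_right_injective_of_lt_one hβ0 hβ h2).symm
  refine h.free a.1 p0 x ?_ hax
  exact sub_eq_zero.1 (norm_eq_zero.1 hMz)
where
  pow_right_injective_of_lt_one {r : ℝ} (h0 : 0 < r) (h1 : r < 1) {k l : ℕ} (h : r ^ k = r ^ l) :
      k = l := by
    rcases lt_trichotomy k l with hlt | heq | hlt
    · exact absurd h (pow_lt_pow_right_of_lt_one₀ h0 h1 hlt).ne'
    · exact heq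
    · exact absurd h (pow_lt_pow_right_of_lt_one₀ h0 h1 hlt).ne

end Pool.Agent.K4H32.LCP
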