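import Pool.Agent.K4H32.LCP.Mani

set_option autoImplicit false
set_option maxSynthPendingDepth 3
set_option linter.unusedSectionVars false

/-!
# Rigidity of isometries of a connected Riemannian manifold
-/

namespace Pool.Agent.K4H32.LCP

open Set Filter Topology Metric Manifold Bundle
open scoped ContDiff

variable {E : Type*} [NormedAddCommGroup E] [NormedSpace ℝ E] [FiniteDimensional ℝ E]
  {N : Type*} [MetricSpace N] [ChartedSpace E N] [IsManifold 𝓘(ℝ, E) ∞ N]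
  [RiemannianBundle (fun (x : N) ↦ TangentSpace 𝓘(ℝ, E) x)]
  [IsContMDiffRiemannianBundle 𝓘(ℝ, E) ∞ E (fun (x : N) ↦ TangentSpace 𝓘(ℝ, E) x)]

variable (E) in
/-- a smooth map preserving the Riemannian metric and the distance -/
structure RIso (f : N → N) : Prop where
  smooth : ContMDiff 𝓘(ℝ, E) 𝓘(ℝ, E) ∞ f
  norm : ∀ (y : N) (u : E), gN (f y) (dN (E := E) f y u) (dN (E := E) f y u) = gN y u u
  dist : ∀ y z : N, dist (f y) (f z) = dist y z

lemma RIso.inner {f : N → N} (hf : RIso E f) (y : N) (u v : E) :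
    gN (f y) (dN (E := E) f y u) (dN (E := E) f y v) = gN y u v := by
  have h1 := hf.norm y (u + v)
  rw [map_add, gN_add_left, gN_add_right, gN_add_right, hf.norm, hf.norm, gN_add_left,
    gN_add_right, gN_add_right, gN_symm (f y) (dN f y v) (dN f y u), gN_symm y v u] at h1
  linarith

/-- the chart at `y0` on a small ball -/
lemma exists_box (y0 : N) : ∃ R r ρ c C : ℝ, 0 < r ∧ r ≤ R ∧ 0 < ρ ∧
    closedBall (extChartAt 𝓘(ℝ, E) y0 y0) R ⊆ (extChartAt 𝓘(ℝ, E) y0).target ∧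
    Bds (chG (E := E) y0) (closedBall (extChartAt 𝓘(ℝ, E) y0 y0) R) c C ∧
    ∀ f : N → N, RIso E f → (∃ w ∈ ball (extChartAt 𝓘(ℝ, E) y0 y0) r,
      dist (f ((extChartAt 𝓘(ℝ, E) y0).symm w)) ((extChartAt 𝓘(ℝ, E) y0).symm w) < ρ) →
      Iso (chG (E := E) y0) (ball (extChartAt 𝓘(ℝ, E) y0 y0) r)
        (closedBall (extChartAt 𝓘(ℝ, E) y0 y0) R) (chF (E := E) y0 f) ∧
      ∀ z ∈ ball (extChartAt 𝓘(ℝ, E) y0 y0) r,
        f ((extChartAt 𝓘(ℝ, E) y0).symm z) ∈ (extChartAt 𝓘(ℝ, E) y0).source := by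
  set z0 := extChartAt 𝓘(ℝ, E) y0 y0 with hz0
  have hz0t : z0 ∈ (extChartAt 𝓘(ℝ, E) y0).target := mem_extChartAt_target y0
  obtain ⟨R, hR0, hR⟩ := Metric.nhds_basis_closedBall.mem_iff.1
    ((isOpen_tgt (E := E) y0).mem_nhds hz0t)
  obtain ⟨c, C, hB⟩ := exists_bds (isOpen_tgt (E := E) y0) (contDiffOn_chG (E := E) y0)
    (fun z hz v hv => by rw [chG_apply]; exact gN_pos _ (chA_inj (E := E) y0 hz hv))
    (fun z hz u v => by rw [chG_apply, chG_apply, gN_symm]) hR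
  have hU : (extChartAt 𝓘(ℝ, E) y0).source ∩ extChartAt 𝓘(ℝ, E) y0 ⁻¹' (ball z0 R) ∈ 𝓝 y0 := by
    refine Filter.inter_mem (extChartAt_source_mem_nhds y0) ?_
    exact (continuousAt_extChartAt y0) (ball_mem_nhds z0 hR0)
  obtain ⟨ρ0, hρ0, hρ⟩ := Metric.mem_nhds_iff.1 hU
  have hsy : (extChartAt 𝓘(ℝ, E) y0).symm z0 = y0 := extChartAt_to_inv y0
  have hcs : ContinuousAt (extChartAt 𝓘(ℝ, E) y0).symm z0 := continuousAt_extChartAt_symm y0
  have hpre : (extChartAt 𝓘(ℝ, E) y0).symm ⁻¹' (ball y0 (ρ0 / 4)) ∈ 𝓝 z0 := by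
    apply hcs
    rw [hsy]
    exact ball_mem_nhds y0 (by positivity)
  obtain ⟨r0, hr0, hr⟩ := Metric.mem_nhds_iff.1 hpre
  refine ⟨R, min r0 R, ρ0 / 4, c, C, lt_min hr0 hR0, min_le_right _ _, by positivity, hR, hB, ?_⟩
  rintro f hf ⟨w, hw, hfw⟩
  have hO : ball z0 (min r0 R) ⊆ closedBall z0 R :=
    (ball_subset_ball (min_le_right _ _)).trans ball_subset_closedBall
  have hmap : ∀ z ∈ ball z0 (min r0 R), f ((extChartAt 𝓘(ℝ, E) y0).symm z) ∈
      (extChartAt 𝓘(ℝ, E) y0).source ∩ extChartAt 𝓘(ℝ, E) y0 ⁻¹' (ball z0 R) := by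
    intro z hz
    apply hρ
    have h1 : dist ((extChartAt 𝓘(ℝ, E) y0).symm z) y0 < ρ0 / 4 :=
      hr (ball_subset_ball (min_le_left _ _) hz)
    have h2 : dist ((extChartAt 𝓘(ℝ, E) y0).symm w) y0 < ρ0 / 4 :=
      hr (ball_subset_ball (min_le_left _ _) hw)
    have h3 := hf.dist ((extChartAt 𝓘(ℝ, E) y0).symm z) ((extChartAt 𝓘(ℝ, E) y0).symm w)
    have h4 := dist_triangle_right ((extChartAt 𝓘(ℝ, E) y0).symm z)
      ((extChartAt 𝓘(ℝ, E) y0).symm w) y0
    have h5 := dist_triangle4 (f ((extChartAt 𝓘(ℝ, E) y0).symm z))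
      (f ((extChartAt 𝓘(ℝ, E) y0).symm w)) ((extChartAt 𝓘(ℝ, E) y0).symm w) y0
    rw [mem_ball]
    linarith
  refine ⟨⟨fun z hz => ?_, fun z hz => ?_, fun z hz u v => ?_⟩, fun z hz => (hmap z hz).1⟩
  · exact ball_subset_closedBall (hmap z hz).2
  · have := contMDiffAt_chF (E := E) y0 hf.smooth (hR (hO hz)) (hmap z hz).1
    rw [contMDiffAt_iff_contDiffAt] at this
    exact this.of_le (WithTop.coe_le_coe.2 (le_top : (2 : ℕ∞) ≤ ⊤))
  · have hzt := hR (hO hz)
    have e1 := chA_fderiv_chF (E := E) y0 hf.smooth hzt (hmap z hz).1 u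
    have e2 := chA_fderiv_chF (E := E) y0 hf.smooth hzt (hmap z hz).1 v
    rw [chG_apply, chG_apply, e1, e2]
    have e3 : (extChartAt 𝓘(ℝ, E) y0).symm (chF (E := E) y0 f z) =
        f ((extChartAt 𝓘(ℝ, E) y0).symm z) := (extChartAt 𝓘(ℝ, E) y0).left_inv (hmap z hz).1
    rw [e3]
    exact hf.inner _ _ _

variable {ι : Type*} {l : Filter ι} {f : ι → N → N}

/-- **Rigidity.** If isometries `f i` fix `x` and their derivatives at `x` tend to the identity,
then `f i` tends to the identity everywhere. -/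
theorem rigid [ConnectedSpace N] (hf : ∀ i, RIso E (f i)) {x : N} (hx : ∀ i, f i x = x)
    (hd : ∀ u : E, Tendsto (fun i => dN (E := E) (f i) x u) l (𝓝 u)) (y : N) :
    Tendsto (fun i => f i y) l (𝓝 y) := by
  set Fx : Set N := {y | Tendsto (fun i => f i y) l (𝓝 y)} with hFx
  -- pushing convergence through a box
  have push : ∀ y0 : N, ∀ R r ρ c C : ℝ, 0 < r → r ≤ R →
      closedBall (extChartAt 𝓘(ℝ, E) y0 y0) R ⊆ (extChartAt 𝓘(ℝ, E) y0).target →
      Bds (chG (E := E) y0) (closedBall (extChartAt 𝓘(ℝ, E) y0 y0) R) c C →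
      (∀ᶠ i in l, Iso (chG (E := E) y0) (ball (extChartAt 𝓘(ℝ, E) y0 y0) r)
        (closedBall (extChartAt 𝓘(ℝ, E) y0 y0) R) (chF (E := E) y0 (f i)) ∧
        ∀ z ∈ ball (extChartAt 𝓘(ℝ, E) y0 y0) r,
        f i ((extChartAt 𝓘(ℝ, E) y0).symm z) ∈ (extChartAt 𝓘(ℝ, E) y0).source) →
      (∃ w ∈ ball (extChartAt 𝓘(ℝ, E) y0 y0) r,
        Tendsto (fun i => chF (E := E) y0 (f i) w) l (𝓝 w) ∧
        Tendsto (fun i => fderiv ℝ (chF (E := E) y0 (f i)) w) l (𝓝 1)) →
      y0 ∈ interior Fx := by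
    intro y0 R r ρ c C hr hrR hRt hB hev ⟨w, hw, hw1, hw2⟩
    have hO : ball (extChartAt 𝓘(ℝ, E) y0 y0) r ⊆ closedBall (extChartAt 𝓘(ℝ, E) y0 y0) R :=
      (ball_subset_ball hrR).trans ball_subset_closedBall
    have hconv := fun z (hz : z ∈ ball (extChartAt 𝓘(ℝ, E) y0 y0) r) =>
      tendsto_of_jet hB hO isOpen_ball (convex_ball _ _) (hev.mono fun i hi => hi.1) hw hw1 hw2 hz
    rw [mem_interior_iff_mem_nhds]
    have hU : (extChartAt 𝓘(ℝ, E) y0).source ∩
        extChartAt 𝓘(ℝ, E) y0 ⁻¹' (ball (extChartAt 𝓘(ℝ, E) y0 y0) r) ∈ 𝓝 y0 := by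
      refine Filter.inter_mem (extChartAt_source_mem_nhds y0) ?_
      exact (continuousAt_extChartAt y0) (ball_mem_nhds _ hr)
    refine Filter.mem_of_superset hU ?_
    rintro y ⟨hys, hyb⟩
    have hyb' : extChartAt 𝓘(ℝ, E) y0 y ∈ ball (extChartAt 𝓘(ℝ, E) y0 y0) r := hyb
    have h1 := hconv _ hyb'
    have hsym : ContinuousAt (extChartAt 𝓘(ℝ, E) y0).symm (extChartAt 𝓘(ℝ, E) y0 y) :=
      (mdiffAt_symm (E := E) y0 ((extChartAt 𝓘(ℝ, E) y0).map_source hys)).continuousAt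
    have h2 := hsym.tendsto.comp h1
    rw [(extChartAt 𝓘(ℝ, E) y0).left_inv hys] at h2
    refine h2.congr' ?_
    filter_upwards [hev] with i hi
    have h3 := hi.2 _ hyb'
    simp only [Function.comp_apply, chF]
    rw [(extChartAt 𝓘(ℝ, E) y0).left_inv h3, (extChartAt 𝓘(ℝ, E) y0).left_inv hys]
  have hclosed : IsClosed Fx := by
    rw [← closure_subset_iff_isClosed]
    intro y hy
    change Tendsto (fun i => f i y) l (𝓝 y)
    rw [Metric.tendsto_nhds]
    intro ε hε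
    obtain ⟨y', hy', hd'⟩ := Metric.mem_closure_iff.1 hy (ε / 3) (by positivity)
    filter_upwards [Metric.tendsto_nhds.1 hy' (ε / 3) (by positivity)] with i hi
    have h1 := (hf i).dist y y'
    have h2 := dist_triangle4 (f i y) (f i y') y' y
    rw [dist_comm y' y] at h2
    linarith
  have hne : (interior Fx).Nonempty := by
    obtain ⟨R, r, ρ, c, C, hr, hrR, hρ, hRt, hB, hbox⟩ := exists_box (E := E) x
    refine ⟨x, push x R r ρ c C hr hrR hRt hB ?_ ?_⟩
    · refine Filter.Eventually.of_forall fun i => hbox (f i) (hf i)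
        ⟨extChartAt 𝓘(ℝ, E) x x, mem_ball_self hr, ?_⟩
      rw [extChartAt_to_inv x, hx i, dist_self]
      exact hρ
    · have hz0t : extChartAt 𝓘(ℝ, E) x x ∈ (extChartAt 𝓘(ℝ, E) x).target :=
        mem_extChartAt_target x
      have hsy : (extChartAt 𝓘(ℝ, E) x).symm (extChartAt 𝓘(ℝ, E) x x) = x := extChartAt_to_inv x
      have hFz : ∀ i, chF (E := E) x (f i) (extChartAt 𝓘(ℝ, E) x x) = extChartAt 𝓘(ℝ, E) x x := by
        intro i
        rw [chF, hsy, hx i]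
      refine ⟨extChartAt 𝓘(ℝ, E) x x, mem_ball_self hr, ?_, ?_⟩
      · refine tendsto_const_nhds.congr fun i => (hFz i).symm
      · refine tendsto_clm fun u => ?_
        have key : ∀ i, fderiv ℝ (chF (E := E) x (f i)) (extChartAt 𝓘(ℝ, E) x x) u =
            chD x x (dN (E := E) (f i) x (chA x (extChartAt 𝓘(ℝ, E) x x) u)) := by
          intro i
          have hsrc : f i ((extChartAt 𝓘(ℝ, E) x).symm (extChartAt 𝓘(ℝ, E) x x)) ∈
              (extChartAt 𝓘(ℝ, E) x).source := by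
            rw [hsy, hx i]; exact mem_extChartAt_source x
          have h1 := chA_fderiv_chF (E := E) x (hf i).smooth hz0t hsrc u
          rw [hFz i, hsy] at h1
          rw [← h1]
          have h2 := chD_chA (E := E) x hz0t
            (fderiv ℝ (chF (E := E) x (f i)) (extChartAt 𝓘(ℝ, E) x x) u)
          rw [hsy] at h2
          exact h2.symm
        simp only [key]
        have h3 := ((chD (E := E) x x).continuous.tendsto _).comp
          (hd (chA x (extChartAt 𝓘(ℝ, E) x x) u))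
        have h4 := chD_chA (E := E) x hz0t u
        rw [hsy] at h4
        rw [h4] at h3
        exact h3
  have hclos2 : IsClosed (interior Fx) := by
    rw [← closure_subset_iff_isClosed]
    intro y0 hy0
    have hy0F : y0 ∈ Fx := hclosed.closure_subset_iff.2 interior_subset hy0
    obtain ⟨R, r, ρ, c, C, hr, hrR, hρ, hRt, hB, hbox⟩ := exists_box (E := E) y0
    have hO : ball (extChartAt 𝓘(ℝ, E) y0 y0) r ⊆ closedBall (extChartAt 𝓘(ℝ, E) y0 y0) R :=
      (ball_subset_ball hrR).trans ball_subset_closedBall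
    have hsy : (extChartAt 𝓘(ℝ, E) y0).symm (extChartAt 𝓘(ℝ, E) y0 y0) = y0 := extChartAt_to_inv y0
    have hev : ∀ᶠ i in l, Iso (chG (E := E) y0) (ball (extChartAt 𝓘(ℝ, E) y0 y0) r)
        (closedBall (extChartAt 𝓘(ℝ, E) y0 y0) R) (chF (E := E) y0 (f i)) ∧
        ∀ z ∈ ball (extChartAt 𝓘(ℝ, E) y0 y0) r,
        f i ((extChartAt 𝓘(ℝ, E) y0).symm z) ∈ (extChartAt 𝓘(ℝ, E) y0).source := by
      filter_upwards [Metric.tendsto_nhds.1 hy0F ρ hρ] with i hi
      refine hbox (f i) (hf i) ⟨_, mem_ball_self hr, ?_⟩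
      rw [hsy]; exact hi
    refine push y0 R r ρ c C hr hrR hRt hB hev ?_
    -- a point of the interior in the box
    have hU : (extChartAt 𝓘(ℝ, E) y0).source ∩
        extChartAt 𝓘(ℝ, E) y0 ⁻¹' (ball (extChartAt 𝓘(ℝ, E) y0 y0) r) ∈ 𝓝 y0 := by
      refine Filter.inter_mem (extChartAt_source_mem_nhds y0) ?_
      exact (continuousAt_extChartAt y0) (ball_mem_nhds _ hr)
    obtain ⟨y, ⟨hys, hyb⟩, hyW⟩ := mem_closure_iff_nhds.1 hy0 _ hU
    have hyb' : extChartAt 𝓘(ℝ, E) y0 y ∈ ball (extChartAt 𝓘(ℝ, E) y0 y0) r := hyb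
    have hytgt : extChartAt 𝓘(ℝ, E) y0 y ∈ (extChartAt 𝓘(ℝ, E) y0).target :=
      (extChartAt 𝓘(ℝ, E) y0).map_source hys
    have hsym : ContinuousAt (extChartAt 𝓘(ℝ, E) y0).symm (extChartAt 𝓘(ℝ, E) y0 y) :=
      (mdiffAt_symm (E := E) y0 hytgt).continuousAt
    have hnear : ∀ᶠ z in 𝓝 (extChartAt 𝓘(ℝ, E) y0 y),
        Tendsto (fun i => chF (E := E) y0 (f i) z) l (𝓝 z) := by
      have h1 : (extChartAt 𝓘(ℝ, E) y0).symm ⁻¹' (interior Fx) ∈ 𝓝 (extChartAt 𝓘(ℝ, E) y0 y) := by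
        apply hsym
        rw [(extChartAt 𝓘(ℝ, E) y0).left_inv hys]
        exact isOpen_interior.mem_nhds hyW
      filter_upwards [h1, (isOpen_tgt (E := E) y0).mem_nhds hytgt] with z hz hzt
      have hz' : Tendsto (fun i => f i ((extChartAt 𝓘(ℝ, E) y0).symm z)) l
        (𝓝 ((extChartAt 𝓘(ℝ, E) y0).symm z)) := interior_subset hz
      have hc : ContinuousAt (extChartAt 𝓘(ℝ, E) y0) ((extChartAt 𝓘(ℝ, E) y0).symm z) :=
        (mdiffAt_chart (E := E) y0 ((extChartAt 𝓘(ℝ, E) y0).map_target hzt)).continuousAt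
      have h2 := hc.tendsto.comp hz'
      rw [(extChartAt 𝓘(ℝ, E) y0).right_inv hzt] at h2
      exact h2
    refine ⟨_, hyb', hnear.self_of_nhds, ?_⟩
    exact tendsto_fderiv hB hO isOpen_ball isBounded_closedBall (hev.mono fun i hi => hi.1) hyb'
      hnear
  have huniv : interior Fx = univ := IsClopen.eq_univ ⟨hclos2, isOpen_interior⟩ hne
  have : y ∈ interior Fx := by rw [huniv]; trivial
  exact interior_subset this

end Pool.Agent.K4H32.LCP
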