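import Pool.Agent.K4H32.LCP.Tor

set_option autoImplicit false
set_option linter.unusedSectionVars false

/-!
# Saturated points of the torus
-/

namespace Pool.Agent.K4H32.LCP

open Set Filter Topology Metric

variable {d : ℕ}

/-- the pairing of a character and a point -/
noncomputable def pr (k : Fin d → ℤ) (z : UnitAddTorus (Fin d)) : UnitAddCircle := ∑ i, k i • z i

lemma pr_add (k l : Fin d → ℤ) (z : UnitAddTorus (Fin d)) : pr (k + l) z = pr k z + pr l z := by
  simp only [pr, Pi.add_apply, add_smul, Finset.sum_add_distrib]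

lemma pr_zero (z : UnitAddTorus (Fin d)) : pr 0 z = 0 := by simp [pr]

lemma pr_smul (c : ℤ) (k : Fin d → ℤ) (z : UnitAddTorus (Fin d)) : pr (c • k) z = c • pr k z := by
  simp only [pr, Pi.smul_apply, smul_eq_mul, mul_smul, Finset.smul_sum]

lemma pr_nsmul (k : Fin d → ℤ) (n : ℕ) (z : UnitAddTorus (Fin d)) : pr k (n • z) = n • pr k z := by
  simp only [pr, Pi.smul_apply, Finset.smul_sum]
  refine Finset.sum_congr rfl fun i _ => ?_
  rw [smul_comm]

lemma pr_sub (k : Fin d → ℤ) (z w : UnitAddTorus (Fin d)) : pr k (z - w) = pr k z - pr k w := by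
  simp only [pr, Pi.sub_apply, smul_sub, Finset.sum_sub_distrib]

/-- the characters trivial on `z` -/
noncomputable def ann (z : UnitAddTorus (Fin d)) : Submodule ℤ (Fin d → ℤ) where
  carrier := {k | pr k z = 0}
  add_mem' := by
    intro a b ha hb
    have ha' : pr a z = 0 := ha
    have hb' : pr b z = 0 := hb
    show pr (a + b) z = 0
    rw [pr_add, ha', hb', add_zero]
  zero_mem' := pr_zero z
  smul_mem' := by
    intro c a ha
    have ha' : pr a z = 0 := ha
    show pr (c • a) z = 0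
    rw [pr_smul, ha', smul_zero]

lemma mem_ann {z : UnitAddTorus (Fin d)} {k : Fin d → ℤ} : k ∈ ann z ↔ pr k z = 0 := Iff.rfl

/-- some multiple of `z` is saturated -/
theorem exists_sat (z : UnitAddTorus (Fin d)) : ∃ m : ℕ, 0 < m ∧
    ∀ (k : Fin d → ℤ) (n : ℕ), 0 < n → pr k (n • (m • z)) = 0 → pr k (m • z) = 0 := by
  let T : ℕ →o Submodule ℤ (Fin d → ℤ) :=
    ⟨fun n => ann (n.factorial • z), by
      intro a b hab k hk
      rw [mem_ann, pr_nsmul] at hk ⊢
      obtain ⟨c, hc⟩ := Nat.factorial_dvd_factorial hab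
      rw [hc, mul_comm, mul_smul, hk, smul_zero]⟩
  obtain ⟨n0, hn0⟩ := monotone_stabilizes_iff_noetherian.2
    (inferInstance : IsNoetherian ℤ (Fin d → ℤ)) T
  refine ⟨n0.factorial, Nat.factorial_pos _, fun k n hn hk => ?_⟩
  have h1 : n0 ≤ n * n0.factorial := by
    calc n0 ≤ n0.factorial := Nat.self_le_factorial n0
      _ ≤ n * n0.factorial := Nat.le_mul_of_pos_left _ hn
  have h2 : k ∈ T (n * n0.factorial) := by
    show pr k _ = 0
    rw [smul_smul, pr_nsmul] at hk
    rw [pr_nsmul]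
    obtain ⟨c, hc⟩ : n * n0.factorial ∣ (n * n0.factorial).factorial :=
      Nat.dvd_factorial (Nat.mul_pos hn (Nat.factorial_pos _)) le_rfl
    rw [hc, mul_comm (n * n0.factorial) c, mul_smul, hk, smul_zero]
  rw [← hn0 _ h1] at h2
  exact h2

/-- saturated points -/
def Sat (z : UnitAddTorus (Fin d)) : Prop :=
  ∀ (k : Fin d → ℤ) (n : ℕ), 0 < n → pr k (n • z) = 0 → pr k z = 0

lemma Sat.dense {z : UnitAddTorus (Fin d)} (hz : Sat z) {n : ℕ} (hn : 0 < n) {δ : ℝ} (hδ : 0 < δ) :
    ∃ l : ℕ, ‖l • (n • z) - z‖ < δ := by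
  obtain ⟨l, hl⟩ := Pool.Agent.W654.Kron.kronecker (n • z) z (fun k hk => hz k n hn hk) δ hδ
  exact ⟨l, by rwa [dist_eq_norm] at hl⟩

lemma circle_lift (x : UnitAddCircle) : ∃ t : ℝ, (t : UnitAddCircle) = x ∧ |t| = ‖x‖ := by
  obtain ⟨s, rfl⟩ := QuotientAddGroup.mk_surjective x
  refine ⟨s - round s, ?_, ?_⟩
  · have : (((round s : ℤ) : ℝ) : UnitAddCircle) = 0 := by
      have h := AddCircle.coe_period (1 : ℝ)
      have h2 : (((round s : ℤ) : ℝ) : UnitAddCircle) = (round s) • ((1 : ℝ) : UnitAddCircle) := by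
        rw [← AddCircle.coe_zsmul]; simp
      rw [h2, h, smul_zero]
    have h3 : ((s - round s : ℝ) : UnitAddCircle) = (s : UnitAddCircle) - ((round s : ℤ) : ℝ) := by
      rw [AddCircle.coe_sub]
    rw [h3, this, sub_zero]
  · exact (UnitAddCircle.norm_eq (x := s)).symm

/-- torsion points near a saturated point -/
theorem exists_torsion_near (z : UnitAddTorus (Fin d)) {δ : ℝ} (hδ : 0 < δ) :
    ∃ (y : UnitAddTorus (Fin d)) (M : ℕ), 0 < M ∧ M • y = M • z ∧ ‖y‖ < δ ∧
      ∀ δ' : ℝ, 0 < δ' → ∃ n : ℕ, ‖n • z - y‖ < δ' := by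
  obtain ⟨S, hS⟩ := IsNoetherian.noetherian (ann z)
  set B : ℝ := 1 + ∑ k ∈ S, ∑ i, |(k i : ℝ)| with hB
  have hB1 : 1 ≤ B := by
    have : 0 ≤ ∑ k ∈ S, ∑ i, |(k i : ℝ)| :=
      Finset.sum_nonneg fun _ _ => Finset.sum_nonneg fun _ _ => abs_nonneg _
    linarith
  set δ1 := min δ (1 / (2 * B)) with hδ1
  have hδ10 : 0 < δ1 := lt_min hδ (by positivity)
  -- recurrence
  obtain ⟨n, hn⟩ := Pool.Agent.W654.Kron.kronecker z (-z) (fun k hk => by
    simp only [Pi.neg_apply, smul_neg, Finset.sum_neg_distrib, hk, neg_zero]) δ1 hδ10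
  rw [dist_eq_norm, sub_neg_eq_add, ← succ_nsmul] at hn
  set M := n + 1 with hM
  have hM0 : 0 < M := Nat.succ_pos n
  have hMr : (0 : ℝ) < M := by exact_mod_cast hM0
  choose t ht htn using fun i => circle_lift ((M • z) i)
  have htb : ∀ i, |t i| < δ1 := by
    intro i
    rw [htn i]
    exact (norm_le_pi_norm (M • z) i).trans_lt hn
  set y : UnitAddTorus (Fin d) := fun i => ((t i / M : ℝ) : UnitAddCircle) with hy
  have hMy : M • y = M • z := by
    funext i
    rw [Pi.smul_apply, hy]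
    simp only
    rw [← AddCircle.coe_nsmul, ← ht i]
    congr 1
    rw [nsmul_eq_mul]; field_simp
  have hyn : ‖y‖ < δ := by
    refine lt_of_lt_of_le ?_ (min_le_left δ (1 / (2 * B)))
    rw [pi_norm_lt_iff hδ10]
    intro i
    have h1 : ‖y i‖ ≤ |t i / M| := by
      rw [hy]
      simp only
      rw [UnitAddCircle.norm_eq]
      have := round_le (t i / M) 0
      simpa using this
    refine h1.trans_lt (lt_of_le_of_lt ?_ (htb i))
    rw [abs_div, abs_of_pos hMr]
    apply div_le_self (abs_nonneg _)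
    exact_mod_cast hM0
  refine ⟨y, M, hM0, hMy, hyn, fun δ' hδ' => ?_⟩
  -- the characters trivial on `z` are trivial on `y`
  have hann : ann z ≤ ann y := by
    rw [← hS, Submodule.span_le]
    intro k hk
    have hkz : pr k z = 0 := by
      have : k ∈ ann z := by rw [← hS]; exact Submodule.subset_span hk
      exact this
    have h1 : ((∑ i, k i * t i : ℝ) : UnitAddCircle) = 0 := by
      have h2 : ((∑ i, k i * t i : ℝ) : UnitAddCircle) = pr k (M • z) := by
        rw [pr]
        rw [show ((∑ i, k i * t i : ℝ) : UnitAddCircle) =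
          ∑ i, ((k i * t i : ℝ) : UnitAddCircle) from map_sum (QuotientAddGroup.mk' _) _ _]
        refine Finset.sum_congr rfl fun i _ => ?_
        rw [← ht i, ← zsmul_eq_mul, AddCircle.coe_zsmul]
      rw [h2, pr_nsmul, hkz, smul_zero]
    have h2 : ∑ i, (k i : ℝ) * t i = 0 := by
      obtain ⟨c, hc⟩ := (AddCircle.coe_eq_zero_iff (1 : ℝ)).1 h1
      rw [zsmul_eq_mul, mul_one] at hc
      have h3 : |∑ i, (k i : ℝ) * t i| < 1 := by
        calc |∑ i, (k i : ℝ) * t i| ≤ ∑ i, |(k i : ℝ) * t i| := Finset.abs_sum_le_sum_abs _ _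
          _ ≤ ∑ i, |(k i : ℝ)| * δ1 := by
              refine Finset.sum_le_sum fun i _ => ?_
              rw [abs_mul]
              gcongr
              exact (htb i).le
          _ = (∑ i, |(k i : ℝ)|) * δ1 := by rw [Finset.sum_mul]
          _ ≤ B * (1 / (2 * B)) := by
              gcongr
              · have := Finset.single_le_sum (f := fun k : Fin d → ℤ => ∑ i, |(k i : ℝ)|)
                  (fun _ _ => Finset.sum_nonneg fun _ _ => abs_nonneg _) hk
                rw [hB]
                linarith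
              · exact min_le_right _ _
          _ = 1 / 2 := by field_simp
          _ < 1 := by norm_num
      rw [← hc] at h3 ⊢
      have h4 : |c| < 1 := by exact_mod_cast h3
      have : c = 0 := Int.abs_lt_one_iff.1 h4
      rw [this]; simp
    show pr k y = 0
    have h3 : pr k y = ((∑ i, k i * (t i / M) : ℝ) : UnitAddCircle) := by
      rw [pr]
      rw [show ((∑ i, k i * (t i / M) : ℝ) : UnitAddCircle) =
          ∑ i, ((k i * (t i / M) : ℝ) : UnitAddCircle) from map_sum (QuotientAddGroup.mk' _) _ _]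
      refine Finset.sum_congr rfl fun i _ => ?_
      rw [← zsmul_eq_mul, AddCircle.coe_zsmul]
    have h4 : ∑ i, (k i : ℝ) * (t i / M) = 0 := by
      have : ∑ i, (k i : ℝ) * (t i / M) = (∑ i, (k i : ℝ) * t i) / M := by
        rw [Finset.sum_div]
        refine Finset.sum_congr rfl fun i _ => ?_
        ring
      rw [this, h2, zero_div]
    rw [h3, h4]
    simp
  obtain ⟨n', hn'⟩ := Pool.Agent.W654.Kron.kronecker z y (fun k hk => hann hk) δ' hδ'
  exact ⟨n', by rwa [dist_eq_norm] at hn'⟩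

end Pool.Agent.K4H32.LCP
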