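import Mathlib
import Pool.Agent.W654.Kron

set_option autoImplicit false
set_option linter.unusedSectionVars false

/-!
# The torus of a linear isometry
-/

namespace Pool.Agent.K4H32.LCP

open Set Filter Topology Metric

section Lin

variable {V : Type*} [NormedAddCommGroup V] [InnerProductSpace ℝ V] [FiniteDimensional ℝ V]

lemma inner_inv_left (A : V ≃ₗᵢ[ℝ] V) (u v : V) : inner ℝ (A⁻¹ u) v = inner ℝ u (A v) := by
  have h := A.inner_map_map (A⁻¹ u) v
  rw [show A (A⁻¹ u) = u from A.apply_symm_apply u] at h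
  exact h.symm

lemma inner_left_eq (A : V ≃ₗᵢ[ℝ] V) (u v : V) : inner ℝ (A u) v = inner ℝ u (A⁻¹ v) := by
  have h := A.inner_map_map u (A⁻¹ v)
  rw [show A (A⁻¹ v) = v from A.apply_symm_apply v] at h
  exact h

/-- the sum of `A` and its inverse -/
noncomputable def symS (A : V ≃ₗᵢ[ℝ] V) : V →ₗ[ℝ] V :=
  (A.toLinearEquiv : V →ₗ[ℝ] V) + ((A⁻¹).toLinearEquiv : V →ₗ[ℝ] V)

lemma symS_apply (A : V ≃ₗᵢ[ℝ] V) (u : V) : symS A u = A u + A⁻¹ u := rfl

lemma symS_symm (A : V ≃ₗᵢ[ℝ] V) : (symS A).IsSymmetric := by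
  intro u v
  rw [symS_apply, symS_apply, inner_add_left, inner_add_right, inner_inv_left, inner_left_eq,
    add_comm]

lemma pow_add_inv_pow (A : V ≃ₗᵢ[ℝ] V) {e : V} {θ : ℝ} (h : A e + A⁻¹ e = (2 * Real.cos θ) • e)
    (n : ℕ) : (A ^ n) e + (A ^ n)⁻¹ e = (2 * Real.cos (n * θ)) • e ∧
      (A ^ (n + 1)) e + (A ^ (n + 1))⁻¹ e = (2 * Real.cos ((n + 1 : ℕ) * θ)) • e := by
  induction n with
  | zero =>
    refine ⟨?_, ?_⟩
    · simp only [pow_zero, inv_one, Nat.cast_zero, zero_mul, Real.cos_zero, mul_one]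
      show e + e = (2 : ℝ) • e
      rw [two_smul]
    · simpa using h
  | succ n ih =>
    refine ⟨ih.2, ?_⟩
    have h1 : symS A ((A ^ (n + 1)) e + (A ^ (n + 1))⁻¹ e) =
        ((A ^ (n + 1 + 1)) e + (A ^ (n + 1 + 1))⁻¹ e) + ((A ^ n) e + (A ^ n)⁻¹ e) := by
      rw [symS_apply, map_add, map_add]
      have e1 : A ((A ^ (n + 1)) e) = (A ^ (n + 1 + 1)) e := by
        rw [pow_succ' A (n + 1)]; rfl
      have e2 : A ((A ^ (n + 1))⁻¹ e) = (A ^ n)⁻¹ e := by
        have : A * (A ^ (n + 1))⁻¹ = (A ^ n)⁻¹ := by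
          rw [pow_succ]; group
        rw [← this]; rfl
      have e3 : A⁻¹ ((A ^ (n + 1)) e) = (A ^ n) e := by
        have : A⁻¹ * (A ^ (n + 1)) = A ^ n := by
          rw [pow_succ']; group
        rw [← this]; rfl
      have e4 : A⁻¹ ((A ^ (n + 1))⁻¹ e) = (A ^ (n + 1 + 1))⁻¹ e := by
        have : A⁻¹ * (A ^ (n + 1))⁻¹ = (A ^ (n + 1 + 1))⁻¹ := by
          rw [← mul_inv_rev, ← pow_succ]
        rw [← this]; rfl
      rw [e1, e2, e3, e4]
      abel
    rw [ih.2, map_smul, symS_apply, h, ih.1, smul_smul] at h1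
    have h2 : (A ^ (n + 1 + 1)) e + (A ^ (n + 1 + 1))⁻¹ e =
        (2 * Real.cos ((n + 1 : ℕ) * θ) * (2 * Real.cos θ)) • e - (2 * Real.cos (n * θ)) • e := by
      rw [h1]; abel
    rw [h2, ← sub_smul]
    congr 1
    have e5 : ((n + 1 + 1 : ℕ) : ℝ) * θ = (n + 1 : ℕ) * θ + θ := by push_cast; ring
    have e6 : (n : ℝ) * θ = (n + 1 : ℕ) * θ - θ := by push_cast; ring
    rw [e5, e6, Real.cos_add, Real.cos_sub]
    ring

/-- the torus of a linear isometry -/
theorem exists_torus (A : V ≃ₗᵢ[ℝ] V) : ∃ (d : ℕ) (z : UnitAddTorus (Fin d)),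
    ∀ η : ℝ, 0 < η → ∃ δ : ℝ, 0 < δ ∧ ∀ n : ℕ, ‖n • z‖ < δ → ∀ v, ‖(A ^ n) v - v‖ ≤ η * ‖v‖ := by
  set b := (symS_symm A).eigenvectorBasis (n := Module.finrank ℝ V) rfl with hb
  set μ := (symS_symm A).eigenvalues (n := Module.finrank ℝ V) rfl with hμ
  have hbe : ∀ i, A (b i) + A⁻¹ (b i) = μ i • b i := by
    intro i
    have := (symS_symm A).apply_eigenvectorBasis (n := Module.finrank ℝ V) rfl i
    rw [symS_apply] at this
    exact this
  have hbn : ∀ i, ‖b i‖ = 1 := fun i => b.orthonormal.1 i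
  have hμ2 : ∀ i, |μ i| ≤ 2 := by
    intro i
    have h1 : ‖μ i • b i‖ ≤ 2 := by
      rw [← hbe i]
      refine (norm_add_le _ _).trans ?_
      rw [A.norm_map, (A⁻¹).norm_map, hbn i]
      norm_num
    rwa [norm_smul, hbn i, mul_one, Real.norm_eq_abs] at h1
  set θ : Fin (Module.finrank ℝ V) → ℝ := fun i => Real.arccos (μ i / 2) with hθ
  have hcos : ∀ i, 2 * Real.cos (θ i) = μ i := by
    intro i
    have := abs_le.1 (hμ2 i)
    rw [hθ]
    simp only
    rw [Real.cos_arccos (by linarith) (by linarith)]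
    ring
  refine ⟨Module.finrank ℝ V, fun i => ((θ i / (2 * Real.pi) : ℝ) : UnitAddCircle), ?_⟩
  intro η hη
  set D : ℝ := (Module.finrank ℝ V : ℝ) + 1 with hD
  have hD0 : 0 < D := by positivity
  refine ⟨η / (2 * Real.pi * D), by positivity, ?_⟩
  intro n hn v
  have hpi := Real.pi_pos
  -- each basis vector
  have key : ∀ i, ‖(A ^ n) (b i) - b i‖ ≤ η / D := by
    intro i
    have h1 := (pow_add_inv_pow A (e := b i) (θ := θ i) (by rw [hcos, hbe]) n).1
    have h2 : inner ℝ ((A ^ n) (b i)) (b i) = Real.cos (n * θ i) := by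
      have h3 := congrArg (fun w => inner ℝ w (b i)) h1
      simp only [inner_add_left, real_inner_smul_left, real_inner_self_eq_norm_sq, hbn i] at h3
      rw [inner_inv_left, real_inner_comm ((A ^ n) (b i)) (b i)] at h3
      linarith
    have h3 : ‖(A ^ n) (b i) - b i‖ ^ 2 = 2 - 2 * Real.cos (n * θ i) := by
      rw [norm_sub_sq_real, h2, (A ^ n).norm_map, hbn i]
      ring
    -- the angle
    set t : ℝ := n * (θ i / (2 * Real.pi)) with ht
    have h4 : |t - round t| < η / (2 * Real.pi * D) := by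
      have h5 : ‖(n • (fun i => ((θ i / (2 * Real.pi) : ℝ) : UnitAddCircle)) :
        UnitAddTorus (Fin _)) i‖ ≤ ‖n • (fun i => ((θ i / (2 * Real.pi) : ℝ) : UnitAddCircle))‖ :=
        norm_le_pi_norm (n • (fun i => ((θ i / (2 * Real.pi) : ℝ) : UnitAddCircle))) i
      have h6 : (n • (fun i => ((θ i / (2 * Real.pi) : ℝ) : UnitAddCircle)) :
        UnitAddTorus (Fin _)) i = ((t : ℝ) : UnitAddCircle) := by
        rw [ht, Pi.smul_apply, ← nsmul_eq_mul, AddCircle.coe_nsmul]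
      rw [h6, UnitAddCircle.norm_eq] at h5
      exact h5.trans_lt hn
    have h7 : Real.cos (n * θ i) = Real.cos (2 * Real.pi * (t - round t)) := by
      have : 2 * Real.pi * (t - round t) = n * θ i - (round t : ℤ) * (2 * Real.pi) := by
        rw [ht]; field_simp
      rw [this, Real.cos_sub_int_mul_two_pi]
    have h8 := Real.one_sub_sq_div_two_le_cos (x := 2 * Real.pi * (t - round t))
    rw [← h7] at h8
    have h9 : ‖(A ^ n) (b i) - b i‖ ^ 2 ≤ (2 * Real.pi * |t - round t|) ^ 2 := by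
      rw [h3, mul_pow, sq_abs]
      nlinarith
    have h10 : ‖(A ^ n) (b i) - b i‖ ≤ 2 * Real.pi * |t - round t| :=
      abs_le_of_sq_le_sq' h9 (by positivity) |>.2
    refine h10.trans ?_
    calc 2 * Real.pi * |t - round t| ≤ 2 * Real.pi * (η / (2 * Real.pi * D)) := by gcongr
      _ = η / D := by field_simp
  have hv : v = ∑ i, inner ℝ (b i) v • b i := (b.sum_repr' v).symm
  have h1 : (A ^ n) v - v = ∑ i, inner ℝ (b i) v • ((A ^ n) (b i) - b i) := by
    conv_lhs => rw [hv]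
    rw [map_sum, ← Finset.sum_sub_distrib]
    refine Finset.sum_congr rfl fun i _ => ?_
    rw [map_smul, smul_sub]
  rw [h1]
  calc ‖∑ i, inner ℝ (b i) v • ((A ^ n) (b i) - b i)‖ ≤
        ∑ i, ‖inner ℝ (b i) v • ((A ^ n) (b i) - b i)‖ := norm_sum_le _ _
    _ ≤ ∑ _i : Fin (Module.finrank ℝ V), ‖v‖ * (η / D) := by
        refine Finset.sum_le_sum fun i _ => ?_
        rw [norm_smul]
        gcongr
        · have := abs_real_inner_le_norm (b i) v
          rwa [hbn i, one_mul] at this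
        · exact key i
    _ = ((Module.finrank ℝ V : ℝ) / D) * (η * ‖v‖) := by
        rw [Finset.sum_const, Finset.card_univ, Fintype.card_fin, nsmul_eq_mul]; ring
    _ ≤ 1 * (η * ‖v‖) := by
        gcongr
        rw [div_le_one hD0]; linarith
    _ = η * ‖v‖ := one_mul _

end Lin

end Pool.Agent.K4H32.LCP
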